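import Mathlib

/-!
# `p`-harmonic functions and their degree of regularity
-/

set_option autoImplicit false

open MeasureTheory Set Filter
open scoped ENNReal Topology ContDiff RealInnerProductSpace

namespace Pool.Agent.Lib.MP_c081e6_an

/-- Euclidean space `ℝⁿ`. -/
abbrev Rn (n : ℕ) : Type := EuclideanSpace ℝ (Fin n)

/-- `φ` is a test function on `Ω`: `φ ∈ C_c^∞(Ω)`. -/
def IsTestFunction {n : ℕ} (Ω : Set (Rn n)) (φ : Rn n → ℝ) : Prop :=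
  ContDiff ℝ ∞ φ ∧ HasCompactSupport φ ∧ tsupport φ ⊆ Ω

/-- `f ∈ L^p_loc(Ω)`: `f ∈ L^p(K)` for every compact `K ⊆ Ω`. -/
def IsLpLoc {n : ℕ} {F : Type} [NormedAddCommGroup F] (p : ℝ) (Ω : Set (Rn n))
    (f : Rn n → F) : Prop :=
  ∀ K : Set (Rn n), K ⊆ Ω → IsCompact K → MemLp f (ENNReal.ofReal p) (volume.restrict K)

/-- `G` is the weak gradient of `u` on `Ω`. -/
def IsWeakGradient {n : ℕ} (Ω : Set (Rn n)) (u : Rn n → ℝ) (G : Rn n → Rn n) : Prop :=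
  ∀ φ : Rn n → ℝ, IsTestFunction Ω φ → ∀ e : Rn n,
    ∫ x in Ω, u x * ⟪gradient φ x, e⟫ = -∫ x in Ω, ⟪G x, e⟫ * φ x

/-- `u` is `p`-harmonic on `Ω`: `u ∈ W^{1,p}_loc(Ω)`, with weak gradient `G = ∇u`, and
`∫_Ω |∇u|^(p-2) ⟨∇u, ∇φ⟩ dx = 0` for all `φ ∈ C_c^∞(Ω)`. -/
def IsPHarmonic {n : ℕ} (p : ℝ) (Ω : Set (Rn n)) (u : Rn n → ℝ) : Prop :=
  ∃ G : Rn n → Rn n, IsLpLoc p Ω u ∧ IsLpLoc p Ω G ∧ IsWeakGradient Ω u G ∧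
    ∀ φ : Rn n → ℝ, IsTestFunction Ω φ →
      ∫ x in Ω, ‖G x‖ ^ (p - 2) * ⟪G x, gradient φ x⟫ = 0

/-- `u ∈ C^s_loc(Ω)` for a real `s > 0`: with `s = k + α`, `k ≥ 0` an integer and `α ∈ (0,1]`,
the function `u` agrees almost everywhere on `Ω` with a `C^k` function on `Ω` whose derivatives of
order `k` are locally `α`-Hölder continuous. -/
def IsCsLoc {n : ℕ} (s : ℝ) (Ω : Set (Rn n)) (u : Rn n → ℝ) : Prop :=
  ∃ (k : ℕ) (α : ℝ), 0 < α ∧ α ≤ 1 ∧ s = k + α ∧ ∃ g : Rn n → ℝ,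
    u =ᵐ[volume.restrict Ω] g ∧ ContDiffOn ℝ k g Ω ∧
    ∀ x ∈ Ω, ∃ r > 0, ∃ C : ℝ, ∀ y ∈ Metric.ball x r ∩ Ω, ∀ z ∈ Metric.ball x r ∩ Ω,
      ‖iteratedFDeriv ℝ k g y - iteratedFDeriv ℝ k g z‖ ≤ C * ‖y - z‖ ^ α

/-- The degree of regularity `γ(n,p)` of `p`-harmonic functions in dimension `n`: the supremum of
all `s > 0` such that every `p`-harmonic function on every open `Ω ⊆ ℝⁿ` lies in
`C^s_loc(Ω)`. -/
noncomputable def gammaDeg (n : ℕ) (p : ℝ) : ℝ≥0∞ :=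
  sSup {t : ℝ≥0∞ | ∃ s : ℝ, 0 < s ∧ t = ENNReal.ofReal s ∧
    ∀ Ω : Set (Rn n), IsOpen Ω → ∀ u : Rn n → ℝ, IsPHarmonic p Ω u → IsCsLoc s Ω u}

end Pool.Agent.Lib.MP_c081e6_an
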