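import Mathlib

/-!
# Pointwise inequalities for `|ξ|^p`, `1 < p < 2`
-/

set_option autoImplicit false

open Set
open scoped RealInnerProductSpace

namespace Pool.Agent.Lib.MP_c081e6_an

section Real1

variable {p R : ℝ}

lemma psi_hasDerivAt (_hp1 : 1 < p) (c : ℝ) {t : ℝ} (ht : 0 < t) :
    HasDerivAt (fun t : ℝ => t ^ p - c * t ^ 2) (p * t ^ (p - 1) - 2 * c * t) t := by
  have h1 := Real.hasDerivAt_rpow_const (x := t) (p := p) (Or.inl ht.ne')
  have h2 := ((hasDerivAt_id t).pow 2).const_mul c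
  refine (h1.sub h2).congr_deriv ?_
  simp; ring

lemma psi_continuous (hp1 : 1 < p) (c : ℝ) : Continuous (fun t : ℝ => t ^ p - c * t ^ 2) := by
  have : Continuous (fun t : ℝ => t ^ p) := Real.continuous_rpow_const (by linarith)
  fun_prop

lemma rpow_sub_two_le {t : ℝ} (_hp1 : 1 < p) (hp2 : p < 2) (ht : 0 < t) (htR : t ≤ R) :
    R ^ (p - 2) ≤ t ^ (p - 2) :=
  Real.rpow_le_rpow_of_nonpos ht htR (by linarith)

lemma psi_monotoneOn (hp1 : 1 < p) (hp2 : p < 2) (_hR : 0 < R) :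
    MonotoneOn (fun t : ℝ => t ^ p - (p * (p - 1) / 2 * R ^ (p - 2)) * t ^ 2) (Icc 0 R) := by
  refine monotoneOn_of_deriv_nonneg (convex_Icc 0 R) (psi_continuous hp1 _).continuousOn ?_ ?_
  · intro t ht
    rw [interior_Icc] at ht
    exact (psi_hasDerivAt hp1 _ ht.1).differentiableAt.differentiableWithinAt
  · intro t ht
    rw [interior_Icc] at ht
    rw [(psi_hasDerivAt hp1 _ ht.1).deriv]
    have h1 := rpow_sub_two_le hp1 hp2 ht.1 ht.2.le
    have h2 : t ^ (p - 1) = t ^ (p - 2) * t := by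
      rw [← Real.rpow_add_one ht.1.ne']; congr 1; ring
    have h3 : 0 < R ^ (p - 2) := Real.rpow_pos_of_pos (ht.1.trans ht.2) _
    have h4 : R ^ (p - 2) * t ≤ t ^ (p - 2) * t := mul_le_mul_of_nonneg_right h1 ht.1.le
    rw [h2]
    have h5 : 0 ≤ R ^ (p - 2) * t := by have := ht.1; positivity
    have h6 : p * (R ^ (p - 2) * t) ≤ p * (t ^ (p - 2) * t) :=
      mul_le_mul_of_nonneg_left h4 (by linarith)
    have h7 : (p - 1) * (p * (R ^ (p - 2) * t)) ≤ 1 * (p * (R ^ (p - 2) * t)) :=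
      mul_le_mul_of_nonneg_right (by linarith) (mul_nonneg (by linarith) h5)
    linarith

lemma psi_convexOn (hp1 : 1 < p) (hp2 : p < 2) (_hR : 0 < R) :
    ConvexOn ℝ (Icc 0 R) (fun t : ℝ => t ^ p - (p * (p - 1) / 2 * R ^ (p - 2)) * t ^ 2) := by
  refine MonotoneOn.convexOn_of_deriv (convex_Icc 0 R) (psi_continuous hp1 _).continuousOn ?_ ?_
  · intro t ht
    rw [interior_Icc] at ht
    exact (psi_hasDerivAt hp1 _ ht.1).differentiableAt.differentiableWithinAt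
  · rw [interior_Icc]
    have key : MonotoneOn (fun t : ℝ => p * t ^ (p - 1) -
        2 * (p * (p - 1) / 2 * R ^ (p - 2)) * t) (Ioo 0 R) := by
      have hd : ∀ t ∈ Ioo 0 R, HasDerivAt (fun t : ℝ => p * t ^ (p - 1) -
        2 * (p * (p - 1) / 2 * R ^ (p - 2)) * t)
          (p * ((p - 1) * t ^ (p - 1 - 1)) - 2 * (p * (p - 1) / 2 * R ^ (p - 2))) t := by
        intro t ht
        have h1 := (Real.hasDerivAt_rpow_const (x := t) (p := p - 1) (Or.inl ht.1.ne')).const_mul p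
        have h2 := (hasDerivAt_id t).const_mul (2 * (p * (p - 1) / 2 * R ^ (p - 2)))
        refine (h1.sub h2).congr_deriv ?_
        simp
      refine monotoneOn_of_deriv_nonneg (convex_Ioo 0 R) ?_ ?_ ?_
      · intro t ht
        exact (hd t ht).continuousAt.continuousWithinAt
      · intro t ht
        rw [interior_Ioo] at ht
        exact (hd t ht).differentiableAt.differentiableWithinAt
      · intro t ht
        rw [interior_Ioo] at ht
        rw [(hd t ht).deriv]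
        have h1 := rpow_sub_two_le hp1 hp2 ht.1 ht.2.le
        have h2 : p - 1 - 1 = p - 2 := by ring
        rw [h2]
        have h3 : 0 < p * (p - 1) := by nlinarith
        nlinarith
    intro s hs t ht hst
    rw [(psi_hasDerivAt hp1 _ hs.1).deriv, (psi_hasDerivAt hp1 _ ht.1).deriv]
    exact key hs ht hst

end Real1

section Vec

variable {E : Type*} [NormedAddCommGroup E] [InnerProductSpace ℝ E] {p : ℝ}

/-- Quantitative strict convexity of `‖·‖^p` for `1 < p < 2`. -/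
theorem strict_convexity (hp1 : 1 < p) (hp2 : p < 2) (a b : E) :
    ‖(1 / 2 : ℝ) • (a + b)‖ ^ p + p * (p - 1) / 8 * ((‖a‖ + ‖b‖) ^ (p - 2) * ‖a - b‖ ^ 2) ≤
      (‖a‖ ^ p + ‖b‖ ^ p) / 2 := by
  rcases eq_or_lt_of_le (add_nonneg (norm_nonneg a) (norm_nonneg b)) with hR | hR
  · have ha : ‖a‖ = 0 := by linarith [norm_nonneg a, norm_nonneg b]
    have hb : ‖b‖ = 0 := by linarith [norm_nonneg a, norm_nonneg b]
    rw [norm_eq_zero] at ha hb
    subst ha; subst hb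
    simp [Real.zero_rpow (by linarith : p ≠ 0)]
  set R := ‖a‖ + ‖b‖ with hRdef
  set c := p * (p - 1) / 2 * R ^ (p - 2) with hc
  set m := ‖(1 / 2 : ℝ) • (a + b)‖ with hm
  have hmle : m ≤ (‖a‖ + ‖b‖) / 2 := by
    rw [hm, norm_smul]
    have := norm_add_le a b
    rw [Real.norm_of_nonneg (by norm_num)]
    linarith
  have hm0 : 0 ≤ m := norm_nonneg _
  have ha0 := norm_nonneg a
  have hb0 := norm_nonneg b
  have h1 := psi_monotoneOn hp1 hp2 hR (a := m) (b := (‖a‖ + ‖b‖) / 2)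
    ⟨hm0, by linarith⟩ ⟨by linarith, by linarith⟩ hmle
  have hxa : ‖a‖ ∈ Icc 0 R := ⟨ha0, by linarith⟩
  have hxb : ‖b‖ ∈ Icc 0 R := ⟨hb0, by linarith⟩
  have h2 := (psi_convexOn hp1 hp2 hR).2 hxa hxb (by norm_num : (0 : ℝ) ≤ 1 / 2)
    (by norm_num : (0 : ℝ) ≤ 1 / 2) (by norm_num)
  simp only [smul_eq_mul] at h2
  have h3 : (1 / 2 : ℝ) * ‖a‖ + 1 / 2 * ‖b‖ = (‖a‖ + ‖b‖) / 2 := by ring
  rw [h3] at h2
  have h4 := h1.trans h2
  rw [← hc] at h4
  beta_reduce at h4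
  have h5 : m ^ 2 = (‖a‖ ^ 2 + ‖b‖ ^ 2) / 2 - ‖a - b‖ ^ 2 / 4 := by
    have e1 : m ^ 2 = (1 / 4) * ‖a + b‖ ^ 2 := by
      rw [hm, norm_smul, Real.norm_of_nonneg (by norm_num)]; ring
    rw [e1, norm_add_sq_real, norm_sub_sq_real]; ring
  rw [h5] at h4
  have h6 : p * (p - 1) / 8 * (R ^ (p - 2) * ‖a - b‖ ^ 2) = c * (‖a - b‖ ^ 2 / 4) := by
    rw [hc]; ring
  rw [h6]
  linarith

/-- The map `ξ ↦ ‖ξ‖^(p-2) ξ`. -/
noncomputable def pmap (p : ℝ) (ξ : E) : E := ‖ξ‖ ^ (p - 2) • ξ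

lemma norm_pmap (hp1 : 1 < p) (ξ : E) : ‖pmap p ξ‖ = ‖ξ‖ ^ (p - 1) := by
  rcases eq_or_ne ξ 0 with rfl | h
  · simp [pmap, Real.zero_rpow (by linarith : p - 1 ≠ 0)]
  · have h0 : 0 < ‖ξ‖ := norm_pos_iff.2 h
    rw [pmap, norm_smul, Real.norm_of_nonneg (by positivity), ← Real.rpow_add_one h0.ne']
    congr 1; ring

lemma inner_pmap_self (hp1 : 1 < p) (ξ : E) : ⟪pmap p ξ, ξ⟫ = ‖ξ‖ ^ p := by
  rcases eq_or_ne ξ 0 with rfl | h
  · simp [pmap, Real.zero_rpow (by linarith : p ≠ 0)]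
  · have h0 : 0 < ‖ξ‖ := norm_pos_iff.2 h
    rw [pmap, real_inner_smul_left, real_inner_self_eq_norm_sq, ← Real.rpow_natCast,
      ← Real.rpow_add h0]
    congr 1; push_cast; ring

lemma pmap_zero : pmap p (0 : E) = 0 := by simp [pmap]

lemma pmap_neg (ξ : E) : pmap p (-ξ) = -pmap p ξ := by simp [pmap]

lemma continuous_pmap (hp1 : 1 < p) : Continuous (pmap p : E → E) := by
  rw [continuous_iff_continuousAt]
  intro ξ
  rcases eq_or_ne ξ 0 with rfl | h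
  · rw [ContinuousAt, pmap_zero, tendsto_zero_iff_norm_tendsto_zero]
    have h1 : Filter.Tendsto (fun ξ : E => ‖ξ‖ ^ (p - 1)) (nhds 0) (nhds 0) := by
      have : Continuous (fun ξ : E => ‖ξ‖ ^ (p - 1)) :=
        continuous_norm.rpow_const (fun _ => Or.inr (by linarith))
      have h2 := this.tendsto (0 : E)
      rwa [norm_zero, Real.zero_rpow (by linarith : p - 1 ≠ 0)] at h2
    refine h1.congr fun ξ => (norm_pmap hp1 ξ).symm
  · have h0 : ‖ξ‖ ≠ 0 := norm_ne_zero_iff.2 h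
    exact (continuousAt_id.norm.rpow_const (Or.inl h0)).smul continuousAt_id

/-- The gradient inequality for `‖·‖^p`. -/
lemma gradient_ineq (hp1 : 1 < p) (a b : E) :
    ‖b‖ ^ p + p * ⟪pmap p b, a - b⟫ ≤ ‖a‖ ^ p := by
  have h1 : ⟪pmap p b, a⟫ ≤ ‖b‖ ^ (p - 1) * ‖a‖ := by
    have := real_inner_le_norm (pmap p b) a
    rwa [norm_pmap hp1] at this
  have h2 : ⟪pmap p b, b⟫ = ‖b‖ ^ p := inner_pmap_self hp1 b
  rw [inner_sub_right, h2]
  -- Young
  have hq : p.HolderConjugate (p / (p - 1)) := by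
    rw [Real.holderConjugate_iff]
    refine ⟨hp1, ?_⟩
    have : p - 1 ≠ 0 := by linarith
    field_simp
    ring
  have h3 := Real.young_inequality_of_nonneg (a := ‖a‖) (b := ‖b‖ ^ (p - 1)) (norm_nonneg a)
    (by positivity) hq
  have h4 : (‖b‖ ^ (p - 1)) ^ (p / (p - 1)) = ‖b‖ ^ p := by
    rw [← Real.rpow_mul (norm_nonneg b)]
    congr 1
    have : p - 1 ≠ 0 := by linarith
    field_simp
  rw [h4] at h3
  have h5 : ‖b‖ ^ p / (p / (p - 1)) = (p - 1) / p * ‖b‖ ^ p := by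
    have : p - 1 ≠ 0 := by linarith
    have : p ≠ 0 := by linarith
    field_simp
  rw [h5] at h3
  have hp0 : 0 < p := by linarith
  have h6 : p * (‖a‖ * ‖b‖ ^ (p - 1)) ≤ ‖a‖ ^ p + (p - 1) * ‖b‖ ^ p := by
    have := mul_le_mul_of_nonneg_left h3 hp0.le
    have e : p * (‖a‖ ^ p / p + (p - 1) / p * ‖b‖ ^ p) = ‖a‖ ^ p + (p - 1) * ‖b‖ ^ p := by
      field_simp
    rwa [e] at this
  nlinarith

lemma pmap_monotone (hp1 : 1 < p) (a b : E) : 0 ≤ ⟪pmap p a - pmap p b, a - b⟫ := by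
  have h1 := gradient_ineq hp1 a b
  have h2 := gradient_ineq hp1 b a
  have h3 : ⟪pmap p a, b - a⟫ = -⟪pmap p a, a - b⟫ := by
    rw [← neg_sub a b, inner_neg_right]
  rw [h3] at h2
  rw [inner_sub_left]
  nlinarith

/-- strict monotonicity -/
lemma pmap_strict (hp1 : 1 < p) (hp2 : p < 2) {a b : E}
    (h : ⟪pmap p a - pmap p b, a - b⟫ ≤ 0) : a = b := by
  have h1 := gradient_ineq hp1 a b
  have h2 := gradient_ineq hp1 b a
  have h3 : ⟪pmap p a, b - a⟫ = -⟪pmap p a, a - b⟫ := by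
    rw [← neg_sub a b, inner_neg_right]
  rw [h3] at h2
  rw [inner_sub_left] at h
  have hp0 : 0 < p := by linarith
  -- equality in the gradient inequality at `b`
  have h4 : ‖a‖ ^ p = ‖b‖ ^ p + p * ⟪pmap p b, a - b⟫ := by nlinarith
  have h5 := gradient_ineq hp1 ((1 / 2 : ℝ) • (a + b)) b
  have h6 : (1 / 2 : ℝ) • (a + b) - b = (1 / 2 : ℝ) • (a - b) := by module
  rw [h6, real_inner_smul_right] at h5
  have h7 := strict_convexity hp1 hp2 a b
  have h8 : p * (p - 1) / 8 * ((‖a‖ + ‖b‖) ^ (p - 2) * ‖a - b‖ ^ 2) ≤ 0 := by nlinarith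
  by_contra hne
  have hab : 0 < ‖a - b‖ := norm_pos_iff.2 (sub_ne_zero.2 hne)
  have hR : 0 < ‖a‖ + ‖b‖ := lt_of_lt_of_le hab (norm_sub_le a b)
  have h9 : 0 < p * (p - 1) / 8 * ((‖a‖ + ‖b‖) ^ (p - 2) * ‖a - b‖ ^ 2) := by
    have : 0 < p - 1 := by linarith
    positivity
  linarith

end Vec

end Pool.Agent.Lib.MP_c081e6_an
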