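import Mathlib
import Pool.Agent.Lib.MP_c081e6_an.PointIneq
import Pool.Agent.Lib.MP_c081e6_an.Defs

/-!
# Gradients, divergence and integration by parts
-/

set_option autoImplicit false

open MeasureTheory Set Filter
open scoped ENNReal NNReal Topology RealInnerProductSpace

namespace Pool.Agent.Lib.MP_c081e6_an

variable {n : ℕ}

/-- `C¹` functions with compact support in `Ω`. -/
def IsC1c (Ω : Set (Rn n)) (φ : Rn n → ℝ) : Prop :=
  ContDiff ℝ 1 φ ∧ HasCompactSupport φ ∧ tsupport φ ⊆ Ω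

lemma IsTestFunction.isC1c {Ω : Set (Rn n)} {φ : Rn n → ℝ} (h : IsTestFunction Ω φ) :
    IsC1c Ω φ := ⟨h.1.of_le (by exact_mod_cast le_top), h.2.1, h.2.2⟩

lemma IsC1c.mono {Ω Ω' : Set (Rn n)} {φ : Rn n → ℝ} (h : IsC1c Ω φ) (hs : Ω ⊆ Ω') :
    IsC1c Ω' φ := ⟨h.1, h.2.1, h.2.2.trans hs⟩

lemma IsC1c.zero (Ω : Set (Rn n)) : IsC1c Ω (fun _ => 0) := by
  refine ⟨contDiff_const, HasCompactSupport.zero, ?_⟩
  have : tsupport (fun _ : Rn n => (0 : ℝ)) = ∅ := by
    rw [tsupport_eq_empty_iff]; rfl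
  rw [this]; exact empty_subset _

lemma IsC1c.add {Ω : Set (Rn n)} {φ ψ : Rn n → ℝ} (h : IsC1c Ω φ) (h' : IsC1c Ω ψ) :
    IsC1c Ω (fun x => φ x + ψ x) := by
  refine ⟨h.1.add h'.1, h.2.1.add h'.2.1, ?_⟩
  have : tsupport (fun x => φ x + ψ x) ⊆ tsupport φ ∪ tsupport ψ := by
    refine closure_minimal ?_ ((isClosed_tsupport _).union (isClosed_tsupport _))
    intro x hx
    by_contra hc
    rw [mem_union, not_or] at hc
    have h1 := image_eq_zero_of_notMem_tsupport hc.1
    have h2 := image_eq_zero_of_notMem_tsupport hc.2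
    exact hx (by simp [h1, h2])
  exact this.trans (union_subset h.2.2 h'.2.2)

lemma IsC1c.const_mul {Ω : Set (Rn n)} {φ : Rn n → ℝ} (c : ℝ) (h : IsC1c Ω φ) :
    IsC1c Ω (fun x => c * φ x) := by
  refine ⟨contDiff_const.mul h.1, h.2.1.mul_left, ?_⟩
  exact (tsupport_mul_subset_right).trans h.2.2

lemma IsC1c.sub {Ω : Set (Rn n)} {φ ψ : Rn n → ℝ} (h : IsC1c Ω φ) (h' : IsC1c Ω ψ) :
    IsC1c Ω (fun x => φ x - ψ x) := by
  have := h.add (h'.const_mul (-1))
  have e : (fun x => φ x - ψ x) = fun x => φ x + -1 * ψ x := by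
    ext x; ring
  rwa [e]

/-- Integrability of a locally continuous function with controlled support. -/
lemma integrable_of_support {F : Type*} [NormedAddCommGroup F] {D K : Set (Rn n)} (hD : IsOpen D)
    {h : Rn n → F} (hc : ContinuousOn h D) (hK : IsCompact K) (hKD : K ⊆ D)
    (hs : ∀ x, x ∉ K → h x = 0) : Integrable h volume := by
  have h1 : tsupport h ⊆ K := closure_minimal
    (fun x hx => by by_contra hxK; exact hx (hs x hxK)) hK.isClosed
  have h2 : Continuous h := continuousOn_univ.1 (by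
    have := hc.continuous_of_tsupport_subset hD (h1.trans hKD)
    exact this.continuousOn)
  exact h2.integrable_of_hasCompactSupport (HasCompactSupport.intro hK hs)

lemma gradient_eq_zero_of_notMem {φ : Rn n → ℝ} {x : Rn n} (hx : x ∉ tsupport φ) :
    gradient φ x = 0 := by
  have h : φ =ᶠ[𝓝 x] (fun _ => 0) := by
    have : (tsupport φ)ᶜ ∈ 𝓝 x := (isClosed_tsupport φ).isOpen_compl.mem_nhds hx
    filter_upwards [this] with y hy
    exact image_eq_zero_of_notMem_tsupport hy
  rw [gradient, h.fderiv_eq]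
  simp

lemma continuous_gradient {φ : Rn n → ℝ} (h : ContDiff ℝ 1 φ) : Continuous (gradient φ) :=
  (InnerProductSpace.toDual ℝ (Rn n)).symm.continuous.comp (h.continuous_fderiv one_ne_zero)

lemma norm_gradient (φ : Rn n → ℝ) (x : Rn n) : ‖gradient φ x‖ = ‖fderiv ℝ φ x‖ := by
  rw [gradient, LinearIsometryEquiv.norm_map]

lemma gradient_add' {φ ψ : Rn n → ℝ} {x : Rn n} (h : DifferentiableAt ℝ φ x)
    (h' : DifferentiableAt ℝ ψ x) :
    gradient (fun y => φ y + ψ y) x = gradient φ x + gradient ψ x := by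
  rw [gradient, gradient, gradient, fderiv_fun_add h h', map_add]

lemma gradient_const_mul' {φ : Rn n → ℝ} {x : Rn n} (c : ℝ) (h : DifferentiableAt ℝ φ x) :
    gradient (fun y => c * φ y) x = c • gradient φ x := by
  rw [gradient, gradient, fderiv_const_mul h]
  simp

lemma gradient_sub' {φ ψ : Rn n → ℝ} {x : Rn n} (h : DifferentiableAt ℝ φ x)
    (h' : DifferentiableAt ℝ ψ x) :
    gradient (fun y => φ y - ψ y) x = gradient φ x - gradient ψ x := by
  rw [gradient, gradient, gradient, fderiv_fun_sub h h', map_sub]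

lemma gradient_mul' {φ ψ : Rn n → ℝ} {x : Rn n} (h : DifferentiableAt ℝ φ x)
    (h' : DifferentiableAt ℝ ψ x) :
    gradient (fun y => φ y * ψ y) x = φ x • gradient ψ x + ψ x • gradient φ x := by
  rw [gradient, gradient, gradient, fderiv_fun_mul h h']
  simp

lemma gradient_comp_real {θ : ℝ → ℝ} {φ : Rn n → ℝ} {x : Rn n} {θ' : ℝ}
    (hθ : HasDerivAt θ θ' (φ x)) (h : DifferentiableAt ℝ φ x) :
    gradient (fun y => θ (φ y)) x = θ' • gradient φ x := by
  have h1 : HasFDerivAt (fun y => θ (φ y)) (θ' • fderiv ℝ φ x) x := hθ.comp_hasFDerivAt x h.hasFDerivAt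
  rw [gradient, gradient, h1.fderiv]
  simp

lemma gradient_comp_isometry {φ : Rn n → ℝ} (T : Rn n ≃ₗᵢ[ℝ] Rn n) {x : Rn n} :
    gradient (fun y => φ (T y)) x = T.symm (gradient φ (T x)) := by
  have h1 : fderiv ℝ (fun y => φ (T y)) x =
      (fderiv ℝ φ (T x)).comp (T.toContinuousLinearEquiv : Rn n →L[ℝ] Rn n) := by
    have := T.toContinuousLinearEquiv.comp_right_fderiv (f := φ) (x := x)
    exact this
  refine ext_inner_right ℝ fun y => ?_
  rw [inner_gradient_left, h1]
  have h2 : ⟪T.symm (gradient φ (T x)), y⟫ = ⟪gradient φ (T x), T y⟫ := by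
    rw [← T.inner_map_map, T.apply_symm_apply]
  rw [h2, inner_gradient_left]
  rfl

/-- Integration by parts in a fixed direction. -/
lemma ibp_dir {D : Set (Rn n)} (hD : IsOpen D) {f ψ : Rn n → ℝ} (hf : ContDiffOn ℝ 1 f D)
    (hψ : IsC1c D ψ) (e : Rn n) :
    ∫ x, f x * ⟪gradient ψ x, e⟫ = -∫ x, fderiv ℝ f x e * ψ x := by
  have hfc : ContinuousOn f D := hf.continuousOn
  have hf' : ContinuousOn (fun x => fderiv ℝ f x) D :=
    hf.continuousOn_fderiv_of_isOpen hD le_rfl
  have hψc : Continuous ψ := hψ.1.continuous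
  have hψ' : Continuous (fun x => fderiv ℝ ψ x) := hψ.1.continuous_fderiv one_ne_zero
  simp only [inner_gradient_left]
  refine integral_mul_fderiv_eq_neg_fderiv_mul_of_integrable ?_ ?_ ?_ ?_ ?_
  · refine integrable_of_support hD ?_ hψ.2.1 hψ.2.2 ?_
    · exact (hf'.clm_apply continuousOn_const).mul hψc.continuousOn
    · intro x hx
      rw [image_eq_zero_of_notMem_tsupport hx, mul_zero]
  · refine integrable_of_support hD ?_ hψ.2.1 hψ.2.2 ?_
    · exact hfc.mul (hψ'.clm_apply continuous_const).continuousOn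
    · intro x hx
      have := gradient_eq_zero_of_notMem hx
      rw [← inner_gradient_left, this, inner_zero_left, mul_zero]
  · refine integrable_of_support hD ?_ hψ.2.1 hψ.2.2 ?_
    · exact hfc.mul hψc.continuousOn
    · intro x hx
      rw [image_eq_zero_of_notMem_tsupport hx, mul_zero]
  · intro x hx
    exact (hf.differentiableOn one_ne_zero).differentiableAt (hD.mem_nhds (hψ.2.2 hx))
  · intro x _
    exact hψ.1.differentiable one_ne_zero x

/-- The divergence of a vector field. -/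
noncomputable def dvg (F : Rn n → Rn n) (x : Rn n) : ℝ :=
  ∑ i, ⟪EuclideanSpace.basisFun (Fin n) ℝ i, fderiv ℝ F x (EuclideanSpace.basisFun (Fin n) ℝ i)⟫

lemma dvg_smul {a : Rn n → ℝ} {G : Rn n → Rn n} {x : Rn n} (ha : DifferentiableAt ℝ a x)
    (hG : DifferentiableAt ℝ G x) :
    dvg (fun y => a y • G y) x = a x * dvg G x + fderiv ℝ a x (G x) := by
  unfold dvg
  rw [fderiv_fun_smul ha hG]
  simp only [add_apply, smul_apply,
    ContinuousLinearMap.smulRight_apply, inner_add_right, real_inner_smul_right]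
  rw [Finset.sum_add_distrib, Finset.mul_sum]
  congr 1
  have h1 : G x = ∑ i, ⟪EuclideanSpace.basisFun (Fin n) ℝ i, G x⟫ •
      EuclideanSpace.basisFun (Fin n) ℝ i :=
    ((EuclideanSpace.basisFun (Fin n) ℝ).sum_repr' (G x)).symm
  conv_rhs => rw [h1, map_sum]
  refine Finset.sum_congr rfl fun i _ => ?_
  rw [map_smul, smul_eq_mul, mul_comm]

lemma dvg_add {F G : Rn n → Rn n} {x : Rn n} (hF : DifferentiableAt ℝ F x)
    (hG : DifferentiableAt ℝ G x) :
    dvg (fun y => F y + G y) x = dvg F x + dvg G x := by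
  unfold dvg
  rw [fderiv_fun_add hF hG, ← Finset.sum_add_distrib]
  simp only [add_apply, inner_add_right]

lemma dvg_congr {F G : Rn n → Rn n} {x : Rn n} (h : F =ᶠ[𝓝 x] G) : dvg F x = dvg G x := by
  unfold dvg
  rw [h.fderiv_eq]

/-- The divergence theorem for compactly supported test functions. -/
lemma ibp_dvg {D : Set (Rn n)} (hD : IsOpen D) {F : Rn n → Rn n} {ψ : Rn n → ℝ}
    (hF : ContDiffOn ℝ 1 F D) (hψ : IsC1c D ψ) :
    ∫ x, ⟪F x, gradient ψ x⟫ = -∫ x, dvg F x * ψ x := by
  set b := EuclideanSpace.basisFun (Fin n) ℝ with hb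
  have hcomp : ∀ i, ContDiffOn ℝ 1 (fun x => ⟪F x, b i⟫) D := fun i =>
    hF.inner ℝ contDiffOn_const
  have hψ' : Continuous (gradient ψ) := continuous_gradient hψ.1
  have e1 : ∀ x, ⟪F x, gradient ψ x⟫ = ∑ i, ⟪F x, b i⟫ * ⟪gradient ψ x, b i⟫ := by
    intro x
    rw [← b.sum_inner_mul_inner (F x) (gradient ψ x)]
    refine Finset.sum_congr rfl fun i _ => ?_
    rw [real_inner_comm (gradient ψ x)]
  have hFd : ∀ x ∈ D, DifferentiableAt ℝ F x := fun x hx =>
    (hF.differentiableOn one_ne_zero).differentiableAt (hD.mem_nhds hx)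
  have e2 : ∀ x, dvg F x * ψ x = ∑ i, fderiv ℝ (fun x => ⟪F x, b i⟫) x (b i) * ψ x := by
    intro x
    by_cases hx : x ∈ D
    · unfold dvg
      rw [Finset.sum_mul]
      refine Finset.sum_congr rfl fun i _ => ?_
      rw [fderiv_inner_apply ℝ (hFd x hx) (differentiableAt_const _)]
      simp [hb, real_inner_comm]
    · have : ψ x = 0 := image_eq_zero_of_notMem_tsupport fun h => hx (hψ.2.2 h)
      simp [this]
  simp only [e1, e2]
  rw [integral_finsetSum, integral_finsetSum, ← Finset.sum_neg_distrib]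
  · exact Finset.sum_congr rfl fun i _ => ibp_dir hD (hcomp i) hψ (b i)
  · intro i _
    refine integrable_of_support hD ?_ hψ.2.1 hψ.2.2 ?_
    · exact (((hcomp i).continuousOn_fderiv_of_isOpen hD le_rfl).clm_apply
        continuousOn_const).mul hψ.1.continuous.continuousOn
    · intro x hx
      rw [image_eq_zero_of_notMem_tsupport hx, mul_zero]
  · intro i _
    refine integrable_of_support hD ?_ hψ.2.1 hψ.2.2 ?_
    · exact (hcomp i).continuousOn.mul (hψ'.inner continuous_const).continuousOn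
    · intro x hx
      rw [gradient_eq_zero_of_notMem hx, inner_zero_left, mul_zero]

/-- A `C¹` field which is weakly divergence free is divergence free. -/
lemma dvg_eq_zero_of_weak {D : Set (Rn n)} (hD : IsOpen D) {F : Rn n → Rn n}
    (hF : ContDiffOn ℝ 1 F D)
    (h : ∀ ψ, IsTestFunction D ψ → ∫ x, ⟪F x, gradient ψ x⟫ = 0) : ∀ x ∈ D, dvg F x = 0 := by
  have hcont : ContinuousOn (dvg F) D := by
    unfold dvg
    refine continuousOn_finsetSum _ fun i _ => ?_
    exact continuousOn_const.inner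
      ((hF.continuousOn_fderiv_of_isOpen hD le_rfl).clm_apply continuousOn_const)
  have hae : ∀ᵐ x ∂volume, x ∈ D → dvg F x = 0 := by
    refine hD.ae_eq_zero_of_integral_contDiff_smul_eq_zero ?_ ?_
    · exact hcont.locallyIntegrableOn hD.measurableSet
    · intro g hg hgc hgs
      have h1 := ibp_dvg hD hF (IsTestFunction.isC1c ⟨hg, hgc, hgs⟩)
      rw [h g ⟨hg, hgc, hgs⟩] at h1
      have : ∫ x, g x • dvg F x = ∫ x, dvg F x * g x := by
        congr 1; ext x; rw [smul_eq_mul, mul_comm]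
      rw [this]; linarith
  have h0 : ∀ x ∈ D, dvg F x = (fun _ => (0 : ℝ)) x := by
    have := MeasureTheory.Measure.eqOn_open_of_ae_eq (μ := (volume : Measure (Rn n)))
      (f := dvg F) (g := fun _ => (0 : ℝ)) (U := D) ?_ hD hcont continuousOn_const
    · exact this
    · exact (ae_restrict_iff' hD.measurableSet).2 hae
  exact h0

end Pool.Agent.Lib.MP_c081e6_an
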