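import Mathlib
import Pool.Agent.Lib.MP_c081e6_an.Grad

/-!
# The barrier `v(x) = ⟨Sx,x⟩ ‖Sx‖`
-/

set_option autoImplicit false

open MeasureTheory Set Filter
open scoped ENNReal NNReal Topology RealInnerProductSpace

namespace Pool.Agent.Lib.MP_c081e6_an

variable {n : ℕ} {p : ℝ}

/-- The signs `+1` (first four coordinates), `-1` (next four), `0` (the rest). -/
noncomputable def sg (i : ℕ) : ℝ := if i < 4 then 1 else if i < 8 then -1 else 0

lemma sg_cube (i : ℕ) : sg i * (sg i * (sg i)) = sg i := by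
  unfold sg; split_ifs <;> norm_num

/-- The diagonal map with entries `sg i`. -/
noncomputable def SL (n : ℕ) : Rn n →L[ℝ] Rn n :=
  LinearMap.toContinuousLinearMap
    { toFun := fun x => WithLp.toLp 2 (fun i : Fin n => sg i * x i)
      map_add' := by intro x y; ext i; simp [mul_add]
      map_smul' := by intro c x; ext i; simp; ring }

lemma SL_apply (x : Rn n) (i : Fin n) : (SL n x) i = sg i * x i := rfl

lemma SL_cube (x : Rn n) : SL n (SL n (SL n x)) = SL n x := by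
  ext i
  simp only [SL_apply]
  rw [← mul_assoc, ← mul_assoc, mul_assoc (sg i), sg_cube]

lemma SL_symm (x y : Rn n) : ⟪SL n x, y⟫ = ⟪x, SL n y⟫ := by
  simp only [PiLp.inner_apply, SL_apply]
  refine Finset.sum_congr rfl fun i _ => ?_
  simp
  ring

lemma sum_sg (hn : 8 ≤ n) : ∑ i : Fin n, sg i = 0 := by
  rw [Fin.sum_univ_eq_sum_range (fun i => sg i) n]
  rw [← Finset.sum_subset (Finset.range_subset_range.2 hn)]
  · simp [Finset.sum_range_succ, sg]
  · intro i _ hi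
    rw [Finset.mem_range, not_lt] at hi
    unfold sg
    rw [if_neg (by omega), if_neg (by omega)]

lemma sum_sg_sq (hn : 8 ≤ n) : ∑ i : Fin n, sg i * sg i = 8 := by
  rw [Fin.sum_univ_eq_sum_range (fun i => sg i * sg i) n]
  rw [← Finset.sum_subset (Finset.range_subset_range.2 hn)]
  · norm_num [Finset.sum_range_succ, sg]
  · intro i _ hi
    rw [Finset.mem_range, not_lt] at hi
    unfold sg
    rw [if_neg (by omega), if_neg (by omega)]
    norm_num

lemma inner_basis_SL (i : Fin n) :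
    ⟪EuclideanSpace.basisFun (Fin n) ℝ i, SL n (EuclideanSpace.basisFun (Fin n) ℝ i)⟫ = sg i := by
  rw [EuclideanSpace.basisFun_apply, EuclideanSpace.inner_single_left]
  simp [SL_apply]

lemma inner_basis_SL2 (i : Fin n) :
    ⟪EuclideanSpace.basisFun (Fin n) ℝ i, SL n (SL n (EuclideanSpace.basisFun (Fin n) ℝ i))⟫ =
      sg i * sg i := by
  rw [EuclideanSpace.basisFun_apply, EuclideanSpace.inner_single_left]
  simp [SL_apply]

lemma dvg_SL (hn : 8 ≤ n) (x : Rn n) : dvg (fun y => SL n y) x = 0 := by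
  unfold dvg
  rw [show fderiv ℝ (fun y => SL n y) x = SL n from (SL n).fderiv]
  simp only [inner_basis_SL]
  exact sum_sg hn

lemma dvg_SL2 (hn : 8 ≤ n) (x : Rn n) : dvg (fun y => SL n (SL n y)) x = 8 := by
  unfold dvg
  rw [show fderiv ℝ (fun y => SL n (SL n y)) x = (SL n).comp (SL n) from
    ((SL n).comp (SL n)).fderiv]
  simp only [ContinuousLinearMap.comp_apply, inner_basis_SL2]
  exact sum_sg_sq hn

/-- `σ(x) = ⟨Sx,x⟩`. -/
noncomputable def sgm (x : Rn n) : ℝ := ⟪SL n x, x⟫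

/-- `ρ(x) = ‖Sx‖²`. -/
noncomputable def rho (x : Rn n) : ℝ := ⟪SL n x, SL n x⟫

lemma rho_eq (x : Rn n) : rho x = ‖SL n x‖ ^ 2 := real_inner_self_eq_norm_sq _

lemma rho_nonneg (x : Rn n) : 0 ≤ rho x := by rw [rho_eq]; positivity

lemma sqrt_rho (x : Rn n) : √(rho x) = ‖SL n x‖ := by
  rw [rho_eq, Real.sqrt_sq (norm_nonneg _)]

lemma inner_S_S2 (x : Rn n) : ⟪SL n x, SL n (SL n x)⟫ = sgm x := by
  rw [SL_symm, SL_cube, real_inner_comm]; rfl

lemma inner_S2_S2 (x : Rn n) : ⟪SL n (SL n x), SL n (SL n x)⟫ = rho x := by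
  rw [SL_symm, SL_cube]; rfl

lemma norm_S2 (x : Rn n) : ‖SL n (SL n x)‖ = ‖SL n x‖ := by
  have h1 := inner_S2_S2 x
  rw [real_inner_self_eq_norm_sq, rho_eq] at h1
  exact (sq_eq_sq₀ (norm_nonneg _) (norm_nonneg _)).1 h1

lemma abs_sgm_le (x : Rn n) : |sgm x| ≤ ‖SL n x‖ ^ 2 := by
  rw [← inner_S_S2]
  refine (abs_real_inner_le_norm _ _).trans ?_
  rw [norm_S2, sq]

/-- The barrier. -/
noncomputable def bv (x : Rn n) : ℝ := sgm x * ‖SL n x‖

/-- The gradient of the barrier. -/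
noncomputable def gv (x : Rn n) : Rn n :=
  (2 * ‖SL n x‖) • SL n x + (sgm x / ‖SL n x‖) • SL n (SL n x)

lemma hasFDerivAt_sgm (x : Rn n) :
    HasFDerivAt sgm ((2 : ℝ) • (innerSL ℝ (SL n x)) : Rn n →L[ℝ] ℝ) x := by
  have h := ((SL n).hasFDerivAt (x := x)).inner ℝ (hasFDerivAt_id x)
  refine h.congr_fderiv ?_
  ext y
  simp only [ContinuousLinearMap.comp_apply, fderivInnerCLM_apply]
  simp
  rw [real_inner_comm x, ← SL_symm]
  ring

lemma hasFDerivAt_rho (x : Rn n) :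
    HasFDerivAt rho ((2 : ℝ) • (innerSL ℝ (SL n (SL n x))) : Rn n →L[ℝ] ℝ) x := by
  have h := ((SL n).hasFDerivAt (x := x)).inner ℝ ((SL n).hasFDerivAt (x := x))
  refine h.congr_fderiv ?_
  ext y
  simp only [ContinuousLinearMap.comp_apply, fderivInnerCLM_apply]
  simp
  rw [real_inner_comm (SL n x), ← SL_symm]
  ring

lemma gv_eq (x : Rn n) : gv x = (2 * √(rho x)) • SL n x + (sgm x / √(rho x)) • SL n (SL n x) := by
  rw [sqrt_rho]; rfl

lemma hasGradientAt_bv (x : Rn n) : HasGradientAt bv (gv x) x := by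
  rw [hasGradientAt_iff_hasFDerivAt]
  rcases eq_or_ne (SL n x) 0 with h0 | h0
  · have hg : gv x = 0 := by simp [gv, h0]
    have hb : bv x = 0 := by simp [bv, h0]
    rw [hg, map_zero, hasFDerivAt_iff_isLittleO]
    have h1 : (fun y : Rn n => bv y - bv x - (0 : Rn n →L[ℝ] ℝ) (y - x)) =O[𝓝 x]
        fun y => ‖y - x‖ ^ 3 := by
      refine Asymptotics.IsBigO.of_bound (‖SL n‖ ^ 3) (Eventually.of_forall fun y => ?_)
      rw [hb]
      simp only [sub_zero, zero_apply]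
      have e1 : SL n y = SL n (y - x) := by rw [map_sub, h0, sub_zero]
      have e2 : ‖SL n y‖ ≤ ‖SL n‖ * ‖y - x‖ := by rw [e1]; exact (SL n).le_opNorm _
      calc ‖bv y‖ = |sgm y| * ‖SL n y‖ := by rw [bv, norm_mul, norm_norm, Real.norm_eq_abs]
        _ ≤ ‖SL n y‖ ^ 2 * ‖SL n y‖ := by gcongr; exact abs_sgm_le y
        _ = ‖SL n y‖ ^ 3 := by ring
        _ ≤ (‖SL n‖ * ‖y - x‖) ^ 3 := by gcongr
        _ = ‖SL n‖ ^ 3 * ‖‖y - x‖ ^ 3‖ := by rw [mul_pow, Real.norm_of_nonneg (by positivity)]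
    refine h1.trans_isLittleO ?_
    have h2 : (fun y : Rn n => ‖y - x‖ ^ 3) =o[𝓝 x] fun y => ‖y - x‖ := by
      have h3 : Tendsto (fun y : Rn n => ‖y - x‖) (𝓝 x) (𝓝 0) := by
        have : Continuous (fun y : Rn n => ‖y - x‖) := by fun_prop
        have h := this.tendsto x
        simpa using h
      have h4 : (fun t : ℝ => t ^ 3) =o[𝓝 0] fun t => t := by
        have := Asymptotics.isLittleO_pow_pow (𝕜 := ℝ) (m := 1) (n := 3) (by norm_num)
        simpa using this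
      exact h4.comp_tendsto h3
    exact Asymptotics.isLittleO_norm_right.1 h2
  · have hn0 : ‖SL n x‖ ≠ 0 := norm_ne_zero_iff.2 h0
    have hr : HasFDerivAt (fun y => √(rho y))
        ((1 / (2 * √(rho x))) • ((2 : ℝ) • (innerSL ℝ (SL n (SL n x))) : Rn n →L[ℝ] ℝ)) x := by
      refine (hasFDerivAt_rho x).sqrt ?_
      rw [rho_eq]; positivity
    have h := (hasFDerivAt_sgm x).mul hr
    have e : bv = fun y : Rn n => sgm y * √(rho y) := by
      ext y; rw [sqrt_rho]; rfl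
    rw [e]
    refine h.congr_fderiv ?_
    ext y
    rw [sqrt_rho]
    simp only [gv, add_apply, smul_apply, innerSL_apply_apply, smul_eq_mul,
      InnerProductSpace.toDual_apply_apply, inner_add_left, real_inner_smul_left]
    field_simp
    ring

lemma gradient_bv : (gradient bv : Rn n → Rn n) = gv := by
  ext1 x; exact (hasGradientAt_bv x).gradient

lemma continuous_sgm : Continuous (sgm : Rn n → ℝ) :=
  (SL n).continuous.inner continuous_id

lemma continuous_gv : Continuous (gv : Rn n → Rn n) := by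
  unfold gv
  refine Continuous.add (by fun_prop) ?_
  rw [continuous_iff_continuousAt]
  intro x
  rcases eq_or_ne (SL n x) 0 with h0 | h0
  · rw [ContinuousAt, h0]
    simp only [norm_zero, div_zero, map_zero, smul_zero]
    rw [tendsto_zero_iff_norm_tendsto_zero]
    have h1 : Tendsto (fun y : Rn n => ‖SL n y‖ ^ 2) (𝓝 x) (𝓝 0) := by
      have : Continuous (fun y : Rn n => ‖SL n y‖ ^ 2) := by fun_prop
      have h := this.tendsto x
      simpa [h0] using h
    refine squeeze_zero (fun y => norm_nonneg _) (fun y => ?_) h1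
    rw [norm_smul, norm_div, norm_norm, Real.norm_eq_abs, norm_S2]
    rcases eq_or_ne (SL n y) 0 with h | h
    · simp [h]
    · have : ‖SL n y‖ ≠ 0 := norm_ne_zero_iff.2 h
      rw [div_mul_cancel₀ _ this]
      exact abs_sgm_le y
  · have hn0 : ‖SL n x‖ ≠ 0 := norm_ne_zero_iff.2 h0
    have c1 : ContinuousAt (fun y : Rn n => ‖SL n y‖) x := by fun_prop
    have c2 : ContinuousAt (fun y : Rn n => SL n (SL n y)) x := by fun_prop
    exact (continuous_sgm.continuousAt.div c1 hn0).smul c2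

lemma contDiff_bv : ContDiff ℝ 1 (bv : Rn n → ℝ) := by
  rw [contDiff_one_iff_fderiv]
  refine ⟨fun x => (hasGradientAt_bv x).differentiableAt, ?_⟩
  have e : (fderiv ℝ (bv : Rn n → ℝ)) = fun x => InnerProductSpace.toDual ℝ (Rn n) (gv x) := by
    ext1 x
    exact ((hasGradientAt_iff_hasFDerivAt).1 (hasGradientAt_bv x)).fderiv
  rw [e]
  exact (InnerProductSpace.toDual ℝ (Rn n)).continuous.comp continuous_gv

/-- `|∇v|² = 4ρ² + 5σ²`. -/
lemma norm_gv_sq (x : Rn n) : ‖gv x‖ ^ 2 = 4 * rho x ^ 2 + 5 * sgm x ^ 2 := by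
  rcases eq_or_ne (SL n x) 0 with h0 | h0
  · have h1 : gv x = 0 := by simp [gv, h0]
    have h2 : rho x = 0 := by rw [rho_eq, h0]; simp
    have h3 : sgm x = 0 := by simp [sgm, h0]
    rw [h1, h2, h3]; simp
  · have hn0 : ‖SL n x‖ ≠ 0 := norm_ne_zero_iff.2 h0
    rw [gv, norm_add_sq_real, norm_smul, norm_smul, norm_S2, real_inner_smul_left,
      real_inner_smul_right, inner_S_S2, rho_eq, Real.norm_eq_abs, Real.norm_eq_abs, mul_pow,
      mul_pow, sq_abs, sq_abs]
    field_simp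
    ring

/-- One-dimensional derivative computations. -/
lemma hasDerivAt_coefA {r s : ℝ → ℝ} {r' s' e : ℝ} (hr : HasDerivAt r r' 0)
    (hs : HasDerivAt s s' 0) (h0 : 0 < r 0) :
    HasDerivAt (fun t => (4 * r t ^ 2 + 5 * s t ^ 2) ^ e * (2 * √(r t)))
      ((8 * r 0 * r' + 10 * s 0 * s') * e * (4 * r 0 ^ 2 + 5 * s 0 ^ 2) ^ (e - 1) *
        (2 * √(r 0)) + (4 * r 0 ^ 2 + 5 * s 0 ^ 2) ^ e * (r' / √(r 0))) 0 := by
  have hQ : HasDerivAt (fun t => 4 * r t ^ 2 + 5 * s t ^ 2) (8 * r 0 * r' + 10 * s 0 * s') 0 := by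
    refine (((hr.pow 2).const_mul 4).add ((hs.pow 2).const_mul 5)).congr_deriv ?_
    simp; ring
  have hQ0 : 4 * r 0 ^ 2 + 5 * s 0 ^ 2 ≠ 0 := by positivity
  have h1 := hQ.rpow_const (p := e) (Or.inl hQ0)
  have h2 := (hr.sqrt h0.ne').const_mul 2
  refine (h1.mul h2).congr_deriv ?_
  have : √(r 0) ≠ 0 := (Real.sqrt_pos.2 h0).ne'
  field_simp

lemma hasDerivAt_coefB {r s : ℝ → ℝ} {r' s' e : ℝ} (hr : HasDerivAt r r' 0)
    (hs : HasDerivAt s s' 0) (h0 : 0 < r 0) :
    HasDerivAt (fun t => (4 * r t ^ 2 + 5 * s t ^ 2) ^ e * (s t / √(r t)))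
      ((8 * r 0 * r' + 10 * s 0 * s') * e * (4 * r 0 ^ 2 + 5 * s 0 ^ 2) ^ (e - 1) *
        (s 0 / √(r 0)) + (4 * r 0 ^ 2 + 5 * s 0 ^ 2) ^ e *
          ((s' * √(r 0) - s 0 * (r' / (2 * √(r 0)))) / √(r 0) ^ 2)) 0 := by
  have hQ : HasDerivAt (fun t => 4 * r t ^ 2 + 5 * s t ^ 2) (8 * r 0 * r' + 10 * s 0 * s') 0 := by
    refine (((hr.pow 2).const_mul 4).add ((hs.pow 2).const_mul 5)).congr_deriv ?_
    simp; ring
  have hQ0 : 4 * r 0 ^ 2 + 5 * s 0 ^ 2 ≠ 0 := by positivity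
  have h1 := hQ.rpow_const (p := e) (Or.inl hQ0)
  have h2 := hs.div (hr.sqrt h0.ne') (Real.sqrt_pos.2 h0).ne'
  exact h1.mul h2

/-- The first coefficient of the field `|∇v|^(p-2) ∇v`. -/
noncomputable def cA (p : ℝ) (x : Rn n) : ℝ :=
  (4 * rho x ^ 2 + 5 * sgm x ^ 2) ^ ((p - 2) / 2) * (2 * √(rho x))

/-- The second coefficient of the field `|∇v|^(p-2) ∇v`. -/
noncomputable def cB (p : ℝ) (x : Rn n) : ℝ :=
  (4 * rho x ^ 2 + 5 * sgm x ^ 2) ^ ((p - 2) / 2) * (sgm x / √(rho x))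

lemma pmap_gv (x : Rn n) :
    pmap p (gv x) = cA p x • SL n x + cB p x • SL n (SL n x) := by
  have h1 : ‖gv x‖ ^ (p - 2) = (4 * rho x ^ 2 + 5 * sgm x ^ 2) ^ ((p - 2) / 2) := by
    rw [← norm_gv_sq, ← Real.rpow_natCast, ← Real.rpow_mul (norm_nonneg _)]
    congr 1
    push_cast; ring
  rw [pmap, h1]
  conv_lhs => rw [gv_eq]
  rw [cA, cB, smul_add, smul_smul, smul_smul]

lemma contDiff_sgm : ContDiff ℝ 1 (sgm : Rn n → ℝ) := by
  unfold sgm; exact (SL n).contDiff.inner ℝ contDiff_id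

lemma contDiff_rho : ContDiff ℝ 1 (rho : Rn n → ℝ) := by
  unfold rho; exact (SL n).contDiff.inner ℝ (SL n).contDiff

lemma rho_pos_of {x : Rn n} (hx : 0 < sgm x) : 0 < rho x := by
  have h := abs_sgm_le x
  rw [abs_of_pos hx] at h
  rw [rho_eq]; linarith

lemma contDiffAt_cA {x : Rn n} (hx : 0 < sgm x) : ContDiffAt ℝ 1 (cA p) x := by
  have hr := rho_pos_of hx
  unfold cA
  refine ContDiffAt.mul (ContDiffAt.rpow_const_of_ne ?_ (by positivity)) ?_
  · exact ((contDiff_const.mul (contDiff_rho.pow 2)).add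
      (contDiff_const.mul (contDiff_sgm.pow 2))).contDiffAt
  · exact contDiffAt_const.mul (contDiff_rho.contDiffAt.sqrt hr.ne')

lemma contDiffAt_cB {x : Rn n} (hx : 0 < sgm x) : ContDiffAt ℝ 1 (cB p) x := by
  have hr := rho_pos_of hx
  unfold cB
  refine ContDiffAt.mul (ContDiffAt.rpow_const_of_ne ?_ (by positivity)) ?_
  · exact ((contDiff_const.mul (contDiff_rho.pow 2)).add
      (contDiff_const.mul (contDiff_sgm.pow 2))).contDiffAt
  · exact contDiff_sgm.contDiffAt.div (contDiff_rho.contDiffAt.sqrt hr.ne')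
      (Real.sqrt_pos.2 hr).ne'

lemma fderiv_apply_of_line {f : Rn n → ℝ} {x y : Rn n} {f' : ℝ} (hf : DifferentiableAt ℝ f x)
    (h : HasDerivAt (fun t : ℝ => f (x + t • y)) f' 0) : fderiv ℝ f x y = f' :=
  (hf.hasFDerivAt.hasLineDerivAt y).unique h

lemma line_rho (x y : Rn n) :
    HasDerivAt (fun t : ℝ => rho (x + t • y)) (2 * ⟪SL n (SL n x), y⟫) 0 := by
  have := (hasFDerivAt_rho x).hasLineDerivAt y
  exact this

lemma line_sgm (x y : Rn n) :
    HasDerivAt (fun t : ℝ => sgm (x + t • y)) (2 * ⟪SL n x, y⟫) 0 := by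
  have := (hasFDerivAt_sgm x).hasLineDerivAt y
  exact this

/-- The divergence of `|∇v|^(p-2) ∇v` on `{σ > 0}`. -/
lemma dvg_pmap_gv (hn : 8 ≤ n) {x : Rn n} (hx : 0 < sgm x) :
    dvg (fun y => pmap p (gv y)) x =
      (4 * rho x ^ 2 + 5 * sgm x ^ 2) ^ ((p - 2) / 2 - 1) * (sgm x / √(rho x)) *
        (44 * (p - 1) * rho x ^ 2 + (35 + 10 * p) * sgm x ^ 2) := by
  have hr := rho_pos_of hx
  have hr' := Real.sqrt_pos.2 hr
  have e0 : (fun y : Rn n => pmap p (gv y)) =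
      fun y => cA p y • SL n y + cB p y • SL n (SL n y) := funext pmap_gv
  have dA : DifferentiableAt ℝ (cA p) x := (contDiffAt_cA hx).differentiableAt one_ne_zero
  have dB : DifferentiableAt ℝ (cB p) x := (contDiffAt_cB hx).differentiableAt one_ne_zero
  have dS : DifferentiableAt ℝ (fun y => SL n y) x := (SL n).differentiableAt
  have dS2 : DifferentiableAt ℝ (fun y => SL n (SL n y)) x :=
    ((SL n).comp (SL n)).differentiableAt
  have dAS : DifferentiableAt ℝ (fun y => cA p y • SL n y) x := dA.smul dS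
  have dBS : DifferentiableAt ℝ (fun y => cB p y • SL n (SL n y)) x := dB.smul dS2
  rw [e0, dvg_add dAS dBS, dvg_smul dA dS, dvg_smul dB dS2, dvg_SL hn, dvg_SL2 hn]
  have hA := hasDerivAt_coefA (e := (p - 2) / 2) (line_rho x (SL n x)) (line_sgm x (SL n x))
    (by simpa using hr)
  have hB := hasDerivAt_coefB (e := (p - 2) / 2) (line_rho x (SL n (SL n x)))
    (line_sgm x (SL n (SL n x))) (by simpa using hr)
  simp only [zero_smul, add_zero] at hA hB
  rw [fderiv_apply_of_line dA hA, fderiv_apply_of_line dB hB]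
  have i1 : ⟪SL n (SL n x), SL n x⟫ = sgm x := by rw [real_inner_comm]; exact inner_S_S2 x
  have i2 : ⟪SL n x, SL n x⟫ = rho x := rfl
  rw [i1, i2, inner_S2_S2, inner_S_S2]
  set Q := 4 * rho x ^ 2 + 5 * sgm x ^ 2 with hQ
  have hQ0 : 0 < Q := by positivity
  have hQe : Q ^ ((p - 2) / 2) = Q ^ ((p - 2) / 2 - 1) * Q := by
    rw [← Real.rpow_add_one hQ0.ne']; congr 1; ring
  rw [cB, ← hQ, hQe]
  set P := Q ^ ((p - 2) / 2 - 1) with hP
  set r := √(rho x) with hrdef
  have hrr : rho x = r ^ 2 := (Real.sq_sqrt hr.le).symm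
  rw [hQ, hrr]
  field_simp
  ring

/-- `v` is a subsolution on `{σ > 0}`. -/
lemma bv_subsolution (hn : 8 ≤ n) (hp1 : 1 < p) {ψ : Rn n → ℝ}
    (hψ : IsC1c {x | 0 < sgm x} ψ) (h0 : ∀ x, 0 ≤ ψ x) :
    ∫ x, ⟪pmap p (gv x), gradient ψ x⟫ ≤ 0 := by
  have hD : IsOpen {x : Rn n | 0 < sgm x} := isOpen_lt continuous_const continuous_sgm
  have hF : ContDiffOn ℝ 1 (fun y : Rn n => pmap p (gv y)) {x : Rn n | 0 < sgm x} := by
    have e0 : (fun y : Rn n => pmap p (gv y)) =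
      fun y => cA p y • SL n y + cB p y • SL n (SL n y) := funext pmap_gv
    rw [e0]
    intro x hx
    exact (((contDiffAt_cA hx).smul (SL n).contDiff.contDiffAt).add
      ((contDiffAt_cB hx).smul ((SL n).comp (SL n)).contDiff.contDiffAt)).contDiffWithinAt
  rw [ibp_dvg hD hF hψ]
  rw [neg_nonpos]
  refine integral_nonneg fun x => ?_
  simp only [Pi.zero_apply]
  by_cases hx : 0 < sgm x
  · rw [dvg_pmap_gv hn hx]
    have hr := rho_pos_of hx
    have : 0 < p - 1 := by linarith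
    have := h0 x
    positivity
  · have : ψ x = 0 := image_eq_zero_of_notMem_tsupport fun h => hx (hψ.2.2 h)
    rw [this, mul_zero]

end Pool.Agent.Lib.MP_c081e6_an
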