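import Mathlib
import Pool.Agent.Lib.MP_c081e6_an.PointIneq

/-!
# `L^p` estimates from quantitative strict convexity
-/

set_option autoImplicit false

open MeasureTheory Set Filter
open scoped ENNReal Topology RealInnerProductSpace

namespace Pool.Agent.Lib.MP_c081e6_an

variable {α : Type*} [MeasurableSpace α] {μ : Measure α}
variable {E : Type*} [NormedAddCommGroup E] [InnerProductSpace ℝ E] {p : ℝ}

lemma ofReal_ne_zero' (hp1 : 1 < p) : ENNReal.ofReal p ≠ 0 := by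
  simp; linarith

lemma integrable_rpow (hp1 : 1 < p) {a : α → E} (ha : MemLp a (ENNReal.ofReal p) μ) :
    Integrable (fun x => ‖a x‖ ^ p) μ := by
  have := ha.integrable_norm_rpow (ofReal_ne_zero' hp1) ENNReal.ofReal_ne_top
  rwa [ENNReal.toReal_ofReal (by linarith)] at this

lemma memLp_norm_add {a b : α → E}
    (ha : MemLp a (ENNReal.ofReal p) μ) (hb : MemLp b (ENNReal.ofReal p) μ) :
    MemLp (fun x => ‖a x‖ + ‖b x‖) (ENNReal.ofReal p) μ :=
  ha.norm.add hb.norm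

lemma integrable_weight (hp1 : 1 < p) (_hp2 : p < 2) {a b : α → E}
    (ha : MemLp a (ENNReal.ofReal p) μ) (hb : MemLp b (ENNReal.ofReal p) μ) :
    Integrable (fun x => (‖a x‖ + ‖b x‖) ^ (p - 2) * ‖a x - b x‖ ^ 2) μ := by
  have h1 := integrable_rpow hp1 (memLp_norm_add ha hb)
  refine h1.mono' ?_ (Eventually.of_forall fun x => ?_)
  · have m1 := ha.1.norm
    have m2 := hb.1.norm
    have m3 := (ha.1.sub hb.1).norm
    exact ((m1.add m2).aemeasurable.pow_const (p - 2)).aestronglyMeasurable.mul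
      (m3.pow 2)
  · have h0 : 0 ≤ ‖a x‖ + ‖b x‖ := by positivity
    rw [Real.norm_of_nonneg (by positivity), Real.norm_of_nonneg h0]
    rcases eq_or_lt_of_le h0 with h | h
    · have ha0 : ‖a x‖ = 0 := by linarith [norm_nonneg (a x), norm_nonneg (b x)]
      have hb0 : ‖b x‖ = 0 := by linarith [norm_nonneg (a x), norm_nonneg (b x)]
      rw [norm_eq_zero] at ha0 hb0
      simp [ha0, hb0, Real.zero_rpow (by linarith : p ≠ 0)]
    · have h2 : ‖a x - b x‖ ^ 2 ≤ (‖a x‖ + ‖b x‖) ^ 2 := by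
        have := norm_sub_le (a x) (b x)
        gcongr
      calc (‖a x‖ + ‖b x‖) ^ (p - 2) * ‖a x - b x‖ ^ 2
          ≤ (‖a x‖ + ‖b x‖) ^ (p - 2) * (‖a x‖ + ‖b x‖) ^ 2 := by gcongr
        _ = (‖a x‖ + ‖b x‖) ^ p := by
          rw [← Real.rpow_natCast, ← Real.rpow_add h]
          congr 1
          push_cast; ring

/-- Hölder estimate of `∫ ‖a-b‖^p` by the weighted quadratic quantity. -/
lemma holder_est (hp1 : 1 < p) (hp2 : p < 2) {a b : α → E}
    (ha : MemLp a (ENNReal.ofReal p) μ) (hb : MemLp b (ENNReal.ofReal p) μ) :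
    ∫ x, ‖a x - b x‖ ^ p ∂μ ≤
      (∫ x, (‖a x‖ + ‖b x‖) ^ (p - 2) * ‖a x - b x‖ ^ 2 ∂μ) ^ (p / 2) *
      (∫ x, (‖a x‖ + ‖b x‖) ^ p ∂μ) ^ ((2 - p) / 2) := by
  have hw := integrable_weight hp1 hp2 ha hb
  have hs := integrable_rpow hp1 (memLp_norm_add ha hb)
  have hs' : Integrable (fun x => (‖a x‖ + ‖b x‖) ^ p) μ := by
    refine hs.congr (Eventually.of_forall fun x => ?_)
    simp only
    rw [Real.norm_of_nonneg (by positivity)]
  have hq : (2 / p).HolderConjugate (2 / (2 - p)) := by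
    rw [Real.holderConjugate_iff]
    constructor
    · rw [lt_div_iff₀ (by linarith)]; linarith
    · have : p ≠ 0 := by linarith
      have : 2 - p ≠ 0 := by linarith
      field_simp
      ring
  have hp0 : 0 < p := by linarith
  have h2p : 0 < 2 - p := by linarith
  set f : α → ℝ := fun x => ((‖a x‖ + ‖b x‖) ^ (p - 2) * ‖a x - b x‖ ^ 2) ^ (p / 2) with hf
  set g : α → ℝ := fun x => (‖a x‖ + ‖b x‖) ^ (p * (2 - p) / 2) with hg
  have hf0 : ∀ x, 0 ≤ f x := fun x => by positivity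
  have hg0 : ∀ x, 0 ≤ g x := fun x => by positivity
  have hfp : ∀ x, f x ^ (2 / p) = (‖a x‖ + ‖b x‖) ^ (p - 2) * ‖a x - b x‖ ^ 2 := by
    intro x
    rw [hf]
    simp only
    rw [← Real.rpow_mul (by positivity)]
    have : p / 2 * (2 / p) = 1 := by field_simp
    rw [this, Real.rpow_one]
  have hgp : ∀ x, g x ^ (2 / (2 - p)) = (‖a x‖ + ‖b x‖) ^ p := by
    intro x
    rw [hg]
    simp only
    rw [← Real.rpow_mul (by positivity)]
    congr 1
    field_simp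
  have hfm : AEStronglyMeasurable f μ :=
    (hw.1.aemeasurable.pow_const (p / 2)).aestronglyMeasurable
  have hgm : AEStronglyMeasurable g μ :=
    ((ha.1.norm.add hb.1.norm).aemeasurable.pow_const _).aestronglyMeasurable
  have hfL : MemLp f (ENNReal.ofReal (2 / p)) μ := by
    rw [← integrable_norm_rpow_iff hfm (ENNReal.ofReal_pos.2 (by positivity)).ne' ENNReal.ofReal_ne_top,
      ENNReal.toReal_ofReal (by positivity)]
    refine hw.congr (Eventually.of_forall fun x => ?_)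
    simp only
    rw [Real.norm_of_nonneg (hf0 x), hfp]
  have hgL : MemLp g (ENNReal.ofReal (2 / (2 - p))) μ := by
    rw [← integrable_norm_rpow_iff hgm (ENNReal.ofReal_pos.2 (by positivity)).ne' ENNReal.ofReal_ne_top,
      ENNReal.toReal_ofReal (by positivity)]
    refine hs'.congr (Eventually.of_forall fun x => ?_)
    simp only
    rw [Real.norm_of_nonneg (hg0 x), hgp]
  have key := integral_mul_le_Lp_mul_Lq_of_nonneg hq (Eventually.of_forall hf0)
    (Eventually.of_forall hg0) hfL hgL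
  have e1 : ∀ x, f x * g x = ‖a x - b x‖ ^ p := by
    intro x
    have h0 : 0 ≤ ‖a x‖ + ‖b x‖ := by positivity
    rcases eq_or_lt_of_le h0 with h | h
    · have ha0 : ‖a x‖ = 0 := by linarith [norm_nonneg (a x), norm_nonneg (b x)]
      have hb0 : ‖b x‖ = 0 := by linarith [norm_nonneg (a x), norm_nonneg (b x)]
      rw [norm_eq_zero] at ha0 hb0
      rw [hf, hg]
      simp [ha0, hb0, Real.zero_rpow (by linarith : p ≠ 0),
        Real.zero_rpow (by linarith : p / 2 ≠ 0)]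
    · rw [hf, hg]
      simp only
      rw [Real.mul_rpow (by positivity) (by positivity), ← Real.rpow_mul h0,
        ← Real.rpow_natCast (‖a x - b x‖) 2, ← Real.rpow_mul (norm_nonneg _)]
      have e2 : ((2 : ℕ) : ℝ) * (p / 2) = p := by push_cast; ring
      rw [e2, mul_right_comm, ← Real.rpow_add h]
      have e3 : (p - 2) * (p / 2) + p * (2 - p) / 2 = 0 := by ring
      rw [e3, Real.rpow_zero, one_mul]
  simp only [e1, hfp, hgp] at key
  have e4 : 1 / (2 / p) = p / 2 := by field_simp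
  have e5 : 1 / (2 / (2 - p)) = (2 - p) / 2 := by field_simp
  rwa [e4, e5] at key

/-- The integrated strict convexity. -/
lemma energy_gap (hp1 : 1 < p) (hp2 : p < 2) {a b : α → E}
    (ha : MemLp a (ENNReal.ofReal p) μ) (hb : MemLp b (ENNReal.ofReal p) μ) :
    ∫ x, ‖(1 / 2 : ℝ) • (a x + b x)‖ ^ p ∂μ +
      p * (p - 1) / 8 * ∫ x, (‖a x‖ + ‖b x‖) ^ (p - 2) * ‖a x - b x‖ ^ 2 ∂μ ≤
      (∫ x, ‖a x‖ ^ p ∂μ + ∫ x, ‖b x‖ ^ p ∂μ) / 2 := by
  have hw := integrable_weight hp1 hp2 ha hb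
  have i1 : Integrable (fun x => ‖(1 / 2 : ℝ) • (a x + b x)‖ ^ p) μ :=
    integrable_rpow hp1 ((ha.add hb).const_smul (1 / 2 : ℝ))
  have i2 := integrable_rpow hp1 ha
  have i3 := integrable_rpow hp1 hb
  rw [← integral_const_mul, ← integral_add i1 (hw.const_mul _), ← integral_add i2 i3,
    ← integral_div]
  exact integral_mono (i1.add (hw.const_mul _)) ((i2.add i3).div_const 2)
    fun x => strict_convexity hp1 hp2 (a x) (b x)

/-- Closeness of near-minimizers. -/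
lemma near_min (hp1 : 1 < p) (hp2 : p < 2) {a b : α → E} {m : ℝ}
    (ha : MemLp a (ENNReal.ofReal p) μ) (hb : MemLp b (ENNReal.ofReal p) μ)
    (hm : m ≤ ∫ x, ‖(1 / 2 : ℝ) • (a x + b x)‖ ^ p ∂μ) :
    ∫ x, ‖a x - b x‖ ^ p ∂μ ≤
      (8 / (p * (p - 1)) * ((∫ x, ‖a x‖ ^ p ∂μ + ∫ x, ‖b x‖ ^ p ∂μ) / 2 - m)) ^ (p / 2) *
      (2 ^ (p - 1) * (∫ x, ‖a x‖ ^ p ∂μ + ∫ x, ‖b x‖ ^ p ∂μ)) ^ ((2 - p) / 2) := by
  have i2 := integrable_rpow hp1 ha
  have i3 := integrable_rpow hp1 hb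
  have h1 := holder_est hp1 hp2 ha hb
  have h2 := energy_gap hp1 hp2 ha hb
  have hw0 : 0 ≤ ∫ x, (‖a x‖ + ‖b x‖) ^ (p - 2) * ‖a x - b x‖ ^ 2 ∂μ :=
    integral_nonneg fun x => by positivity
  have hc : 0 < p * (p - 1) := by
    have : 0 < p - 1 := by linarith
    positivity
  have h3 : ∫ x, (‖a x‖ + ‖b x‖) ^ (p - 2) * ‖a x - b x‖ ^ 2 ∂μ ≤
      8 / (p * (p - 1)) * ((∫ x, ‖a x‖ ^ p ∂μ + ∫ x, ‖b x‖ ^ p ∂μ) / 2 - m) := by
    have h4 : p * (p - 1) / 8 * ∫ x, (‖a x‖ + ‖b x‖) ^ (p - 2) * ‖a x - b x‖ ^ 2 ∂μ ≤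
      (∫ x, ‖a x‖ ^ p ∂μ + ∫ x, ‖b x‖ ^ p ∂μ) / 2 - m := by linarith
    rw [div_mul_eq_mul_div, le_div_iff₀ hc]
    linarith
  have h5 : ∫ x, (‖a x‖ + ‖b x‖) ^ p ∂μ ≤
      2 ^ (p - 1) * (∫ x, ‖a x‖ ^ p ∂μ + ∫ x, ‖b x‖ ^ p ∂μ) := by
    rw [← integral_add i2 i3, ← integral_const_mul]
    refine integral_mono_of_nonneg (Eventually.of_forall fun x => by positivity)
      ((i2.add i3).const_mul _) (Eventually.of_forall fun x => ?_)
    have := NNReal.rpow_add_le_mul_rpow_add_rpow ‖a x‖₊ ‖b x‖₊ hp1.le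
    have := NNReal.coe_le_coe.2 this
    simpa using this
  have h50 : 0 ≤ ∫ x, (‖a x‖ + ‖b x‖) ^ p ∂μ := integral_nonneg fun x => by positivity
  refine h1.trans ?_
  have h6 := Real.rpow_le_rpow hw0 h3 (by linarith : (0 : ℝ) ≤ p / 2)
  have h7 := Real.rpow_le_rpow h50 h5 (by linarith : (0 : ℝ) ≤ (2 - p) / 2)
  exact mul_le_mul h6 h7 (by positivity) ((Real.rpow_nonneg hw0 _).trans h6)

lemma eLpNorm_eq_ofReal (hp1 : 1 < p) {a : α → E} (ha : MemLp a (ENNReal.ofReal p) μ) :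
    eLpNorm a (ENNReal.ofReal p) μ = ENNReal.ofReal ((∫ x, ‖a x‖ ^ p ∂μ) ^ p⁻¹) := by
  rw [ha.eLpNorm_eq_integral_rpow_norm (ofReal_ne_zero' hp1) ENNReal.ofReal_ne_top,
    ENNReal.toReal_ofReal (by linarith)]

/-- If `a_j, b_j` are sequences with energies tending to `m` whose midpoints have energy at least
`m` then `a_j - b_j → 0` in `L^p`. The double-index version. -/
lemma tendsto_eLpNorm_sub {ι : Type*} {l : Filter ι} (hp1 : 1 < p) (hp2 : p < 2)
    {a b : ι → α → E} {m : ℝ}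
    (ha : ∀ i, MemLp (a i) (ENNReal.ofReal p) μ) (hb : ∀ i, MemLp (b i) (ENNReal.ofReal p) μ)
    (hm : ∀ i, m ≤ ∫ x, ‖(1 / 2 : ℝ) • (a i x + b i x)‖ ^ p ∂μ)
    (hta : Tendsto (fun i => ∫ x, ‖a i x‖ ^ p ∂μ) l (𝓝 m))
    (htb : Tendsto (fun i => ∫ x, ‖b i x‖ ^ p ∂μ) l (𝓝 m)) :
    Tendsto (fun i => eLpNorm (fun x => a i x - b i x) (ENNReal.ofReal p) μ) l (𝓝 0) := by
  have hp0 : 0 < p := by linarith
  have hub : Tendsto (fun i =>
      (8 / (p * (p - 1)) * ((∫ x, ‖a i x‖ ^ p ∂μ + ∫ x, ‖b i x‖ ^ p ∂μ) / 2 - m)) ^ (p / 2) *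
      (2 ^ (p - 1) * (∫ x, ‖a i x‖ ^ p ∂μ + ∫ x, ‖b i x‖ ^ p ∂μ)) ^ ((2 - p) / 2)) l (𝓝 0) := by
    have t1 : Tendsto (fun i => 8 / (p * (p - 1)) *
        ((∫ x, ‖a i x‖ ^ p ∂μ + ∫ x, ‖b i x‖ ^ p ∂μ) / 2 - m)) l (𝓝 0) := by
      have := ((((hta.add htb).div_const 2).sub_const m).const_mul (8 / (p * (p - 1))))
      have e : 8 / (p * (p - 1)) * ((m + m) / 2 - m) = 0 := by ring
      rwa [e] at this
    have t2 : Tendsto (fun i => 2 ^ (p - 1) *
        (∫ x, ‖a i x‖ ^ p ∂μ + ∫ x, ‖b i x‖ ^ p ∂μ)) l (𝓝 (2 ^ (p - 1) * (m + m))) :=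
      (hta.add htb).const_mul _
    have t3 := t1.rpow_const (p := p / 2) (Or.inr (by linarith))
    have t4 := t2.rpow_const (p := (2 - p) / 2) (Or.inr (by linarith))
    have := t3.mul t4
    rwa [Real.zero_rpow (by linarith), zero_mul] at this
  have h1 : Tendsto (fun i => ∫ x, ‖a i x - b i x‖ ^ p ∂μ) l (𝓝 0) :=
    tendsto_of_tendsto_of_tendsto_of_le_of_le tendsto_const_nhds hub
      (fun i => integral_nonneg fun x => by positivity)
      (fun i => near_min hp1 hp2 (ha i) (hb i) (hm i))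
  have h2 := h1.rpow_const (p := p⁻¹) (Or.inr (by positivity))
  rw [Real.zero_rpow (by positivity)] at h2
  have h3 := (ENNReal.continuous_ofReal.tendsto 0).comp h2
  rw [ENNReal.ofReal_zero] at h3
  refine h3.congr fun i => ?_
  exact (eLpNorm_eq_ofReal hp1 ((ha i).sub (hb i))).symm

end Pool.Agent.Lib.MP_c081e6_an
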