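import Mathlib
import Pool.Agent.Lib.MP_c081e6_an.LpTools
import Pool.Agent.Lib.MP_c081e6_an.Defs

/-!
# The minimizer of the `p`-energy with prescribed boundary values
-/

set_option autoImplicit false

open MeasureTheory Set Filter
open scoped ENNReal NNReal Topology RealInnerProductSpace

namespace Pool.Agent.Lib.MP_c081e6_an

section Lp

variable {α : Type*} [MeasurableSpace α] {μ : Measure α}
variable {F : Type*} [NormedAddCommGroup F]

lemma exists_Lp_limit [CompleteSpace F] {q : ℝ≥0∞} (hq : 1 ≤ q) {f : ℕ → α → F}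
    (hf : ∀ j, MemLp (f j) q μ)
    (hc : Tendsto (fun ij : ℕ × ℕ => eLpNorm (fun x => f ij.1 x - f ij.2 x) q μ) atTop (𝓝 0)) :
    ∃ g : α → F, MemLp g q μ ∧ Tendsto (fun j => eLpNorm (fun x => f j x - g x) q μ) atTop (𝓝 0) := by
  have : Fact (1 ≤ q) := ⟨hq⟩
  have hcau : CauchySeq (fun j => (hf j).toLp (f j)) := by
    rw [Lp.cauchySeq_Lp_iff_cauchySeq_eLpNorm]
    refine hc.congr fun ij => eLpNorm_congr_ae ?_
    filter_upwards [(hf ij.1).coeFn_toLp, (hf ij.2).coeFn_toLp] with x h1 h2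
    simp only [Pi.sub_apply, h1, h2]
  obtain ⟨g, hg⟩ := cauchySeq_tendsto_of_complete hcau
  refine ⟨g, Lp.memLp g, ?_⟩
  have hg' : Tendsto (fun j => (hf j).toLp (f j)) atTop (𝓝 ((Lp.memLp g).toLp g)) := by
    rwa [Lp.toLp_coeFn]
  exact (Lp.tendsto_Lp_iff_tendsto_eLpNorm'' f hf g (Lp.memLp g)).1 hg'

/-- `L^p` convergence implies convergence of energies. -/
lemma tendsto_energy {ι : Type*} {l : Filter ι} {p : ℝ} (hp1 : 1 < p) {f : ι → α → F} {g : α → F}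
    (hf : ∀ j, MemLp (f j) (ENNReal.ofReal p) μ) (hg : MemLp g (ENNReal.ofReal p) μ)
    (h : Tendsto (fun j => eLpNorm (fun x => f j x - g x) (ENNReal.ofReal p) μ) l (𝓝 0)) :
    Tendsto (fun j => ∫ x, ‖f j x‖ ^ p ∂μ) l (𝓝 (∫ x, ‖g x‖ ^ p ∂μ)) := by
  have hq : (1 : ℝ≥0∞) ≤ ENNReal.ofReal p := by
    rw [← ENNReal.ofReal_one]; exact ENNReal.ofReal_le_ofReal hp1.le
  have : Fact ((1 : ℝ≥0∞) ≤ ENNReal.ofReal p) := ⟨hq⟩
  have hp0 : 0 < p := by linarith
  have e : ∀ (u : α → F) (hu : MemLp u (ENNReal.ofReal p) μ),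
      ∫ x, ‖u x‖ ^ p ∂μ = ‖hu.toLp u‖ ^ p := by
    intro u hu
    have h0 : 0 ≤ ∫ x, ‖u x‖ ^ p ∂μ := integral_nonneg fun x => by positivity
    rw [Lp.norm_toLp, hu.eLpNorm_eq_integral_rpow_norm (ENNReal.ofReal_pos.2 hp0).ne'
      ENNReal.ofReal_ne_top, ENNReal.toReal_ofReal hp0.le,
      ENNReal.toReal_ofReal (by positivity), ← Real.rpow_mul h0, inv_mul_cancel₀ hp0.ne',
      Real.rpow_one]
  have h1 := (Lp.tendsto_Lp_iff_tendsto_eLpNorm'' f hf g hg).2 h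
  have h2 := (h1.norm).rpow_const (p := p) (Or.inr hp0.le)
  rw [e g hg]
  refine h2.congr fun j => (e (f j) (hf j)).symm

lemma exists_subseq_ae {p : ℝ} (hp1 : 1 < p) {f : ℕ → α → F} {g : α → F}
    (hf : ∀ j, MemLp (f j) (ENNReal.ofReal p) μ) (hg : MemLp g (ENNReal.ofReal p) μ)
    (h : Tendsto (fun j => eLpNorm (fun x => f j x - g x) (ENNReal.ofReal p) μ) atTop (𝓝 0)) :
    ∃ ns : ℕ → ℕ, StrictMono ns ∧ ∀ᵐ x ∂μ, Tendsto (fun i => f (ns i) x) atTop (𝓝 (g x)) := by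
  have hp0 : 0 < p := by linarith
  exact (tendstoInMeasure_of_tendsto_eLpNorm_of_ne_top (ENNReal.ofReal_pos.2 hp0).ne'
    ENNReal.ofReal_ne_top (fun j => (hf j).1) hg.1 h).exists_seq_tendsto_ae

/-- Hölder: if `f_j → g` in `L^p` and `A ∈ L^{p'}`, then `∫⟨A,f_j⟩ → ∫⟨A,g⟩`. -/
lemma tendsto_integral_inner {H : Type*} [NormedAddCommGroup H] [InnerProductSpace ℝ H]
    {ι : Type*} {l : Filter ι} {p q : ℝ} (hpq : p.HolderConjugate q)
    {f : ι → α → H} {g A : α → H}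
    (hf : ∀ j, MemLp (f j) (ENNReal.ofReal p) μ) (hg : MemLp g (ENNReal.ofReal p) μ)
    (hA : MemLp A (ENNReal.ofReal q) μ)
    (h : Tendsto (fun j => eLpNorm (fun x => f j x - g x) (ENNReal.ofReal p) μ) l (𝓝 0)) :
    Tendsto (fun j => ∫ x, ⟪A x, f j x⟫ ∂μ) l (𝓝 (∫ x, ⟪A x, g x⟫ ∂μ)) := by
  have hp0 : 0 < p := hpq.pos
  have hp1 : 1 < p := hpq.lt
  have hint : ∀ (u : α → H), MemLp u (ENNReal.ofReal p) μ →
      Integrable (fun x => ‖A x‖ * ‖u x‖) μ := by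
    intro u hu
    have hh : (ENNReal.ofReal q).HolderConjugate (ENNReal.ofReal p) := by
      exact Real.HolderConjugate.ennrealOfReal hpq.symm
    exact MemLp.integrable_mul hA.norm hu.norm
  have hint' : ∀ (u : α → H), MemLp u (ENNReal.ofReal p) μ →
      Integrable (fun x => ⟪A x, u x⟫) μ := by
    intro u hu
    refine (hint u hu).mono' (hA.1.inner hu.1) (Eventually.of_forall fun x => ?_)
    exact norm_inner_le_norm _ _
  rw [tendsto_iff_norm_sub_tendsto_zero]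
  set C := (∫ x, ‖A x‖ ^ q ∂μ) ^ (1 / q) with hC
  have h1 : Tendsto (fun j => C * (∫ x, ‖f j x - g x‖ ^ p ∂μ) ^ (1 / p)) l (𝓝 0) := by
    have t0 := (ENNReal.tendsto_toReal ENNReal.zero_ne_top).comp h
    have t1 : Tendsto (fun j => (∫ x, ‖f j x - g x‖ ^ p ∂μ) ^ (1 / p)) l (𝓝 0) := by
      rw [ENNReal.toReal_zero] at t0
      refine t0.congr fun j => ?_
      have hm := (hf j).sub hg
      have := hm.eLpNorm_eq_integral_rpow_norm (ENNReal.ofReal_pos.2 hp0).ne'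
        ENNReal.ofReal_ne_top
      simp only [Function.comp_apply]
      have e : eLpNorm (fun x => f j x - g x) (ENNReal.ofReal p) μ =
        eLpNorm (f j - g) (ENNReal.ofReal p) μ := rfl
      rw [e, this, ENNReal.toReal_ofReal (by positivity), ENNReal.toReal_ofReal hp0.le,
        one_div]
      rfl
    have := t1.const_mul C
    rwa [mul_zero] at this
  refine squeeze_zero (fun j => norm_nonneg _) (fun j => ?_) h1
  rw [← integral_sub (hint' _ (hf j)) (hint' _ hg)]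
  calc ‖∫ x, (⟪A x, f j x⟫ - ⟪A x, g x⟫) ∂μ‖ ≤ ∫ x, ‖⟪A x, f j x⟫ - ⟪A x, g x⟫‖ ∂μ :=
        norm_integral_le_integral_norm _
    _ ≤ ∫ x, ‖A x‖ * ‖f j x - g x‖ ∂μ := by
        refine integral_mono_of_nonneg (Eventually.of_forall fun x => norm_nonneg _)
          (hint _ ((hf j).sub hg)) (Eventually.of_forall fun x => ?_)
        simp only
        rw [← inner_sub_right]
        exact norm_inner_le_norm _ _
    _ ≤ C * (∫ x, ‖f j x - g x‖ ^ p ∂μ) ^ (1 / p) := by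
        have := integral_mul_norm_le_Lp_mul_Lq (μ := μ) (f := A) (g := fun x => f j x - g x)
          hpq.symm hA ((hf j).sub hg)
        exact this

end Lp

end Pool.Agent.Lib.MP_c081e6_an
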