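import Mathlib
import Pool.Agent.Lib.MP_c081e6_an.Minimizer
import Pool.Agent.Lib.MP_c081e6_an.Grad

/-!
# Existence of the minimizer in the unit ball
-/

set_option autoImplicit false

open MeasureTheory Set Filter
open scoped ENNReal NNReal Topology RealInnerProductSpace

namespace Pool.Agent.Lib.MP_c081e6_an

variable {n : ℕ} {p : ℝ}

/-- Lebesgue measure on the unit ball. -/
noncomputable def muB (n : ℕ) : Measure (Rn n) := volume.restrict (Metric.ball (0 : Rn n) 1)

instance : IsFiniteMeasure (muB n) :=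
  ⟨by rw [muB, Measure.restrict_apply_univ]; exact measure_ball_lt_top⟩

lemma memLp_of_continuous {F : Type*} [NormedAddCommGroup F] {f : Rn n → F} (hf : Continuous f)
    (q : ℝ≥0∞) : MemLp f q (muB n) := by
  obtain ⟨C, hC⟩ := (isCompact_closedBall (0 : Rn n) 1).exists_bound_of_continuousOn
    hf.continuousOn
  exact MemLp.of_bound hf.aestronglyMeasurable C
    (ae_restrict_of_forall_mem measurableSet_ball fun x hx =>
      hC x (Metric.ball_subset_closedBall hx))

lemma poincare (hn : 2 ≤ n) (hp1 : 1 < p) (hp2 : p < 2) : ∃ C : ℝ≥0, ∀ φ : Rn n → ℝ,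
    IsC1c (Metric.ball 0 1) φ → eLpNorm φ (ENNReal.ofReal p) (muB n) ≤
      C * eLpNorm (gradient φ) (ENNReal.ofReal p) (muB n) := by
  refine ⟨eLpNormLESNormFDerivOfLeConst ℝ (volume : Measure (Rn n)) (Metric.ball 0 1)
    p.toNNReal p.toNNReal, fun φ hφ => ?_⟩
  have hfr : Module.finrank ℝ (Rn n) = n := finrank_euclideanSpace_fin
  have h1 := eLpNorm_le_eLpNorm_fderiv_of_le (μ := (volume : Measure (Rn n))) (F := ℝ)
    (u := φ) (s := Metric.ball 0 1) (p := p.toNNReal) (q := p.toNNReal) hφ.1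
    ((subset_tsupport φ).trans hφ.2.2) (by
      rw [← NNReal.coe_le_coe, Real.coe_toNNReal _ (by linarith)]
      exact_mod_cast hp1.le)
    (by
      rw [hfr, ← NNReal.coe_lt_coe, Real.coe_toNNReal _ (by linarith)]
      have : (2 : ℝ) ≤ n := by exact_mod_cast hn
      push_cast
      linarith) (by
      have : (0 : ℝ) ≤ ((Module.finrank ℝ (Rn n) : ℝ))⁻¹ := by positivity
      push_cast
      linarith) Metric.isBounded_ball
  have h2 : eLpNorm φ (ENNReal.ofReal p) (muB n) ≤ eLpNorm φ (ENNReal.ofReal p) volume :=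
    eLpNorm_mono_measure _ Measure.restrict_le_self
  have h3 : eLpNorm (gradient φ) (ENNReal.ofReal p) (muB n) =
      eLpNorm (fderiv ℝ φ) (ENNReal.ofReal p) volume := by
    rw [muB, eLpNorm_restrict_eq_of_support_subset]
    · exact eLpNorm_congr_norm_ae (Eventually.of_forall fun x => norm_gradient φ x)
    · intro x hx
      by_contra hc
      exact hx (gradient_eq_zero_of_notMem fun h => hc (hφ.2.2 h))
  rw [h3]
  exact h2.trans h1

/-- The energy integral. -/
noncomputable def energy (p : ℝ) (v φ : Rn n → ℝ) : ℝ :=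
  ∫ x, ‖gradient v x + gradient φ x‖ ^ p ∂(muB n)

lemma energy_nonneg (v φ : Rn n → ℝ) : 0 ≤ energy p v φ :=
  integral_nonneg fun x => by positivity

lemma memLp_grad {v φ : Rn n → ℝ} (hv : ContDiff ℝ 1 v)
    (hφ : IsC1c (Metric.ball 0 1) φ) (q : ℝ≥0∞) :
    MemLp (fun x => gradient v x + gradient φ x) q (muB n) :=
  memLp_of_continuous ((continuous_gradient hv).add (continuous_gradient hφ.1)) q

lemma mid_grad {v φ ψ : Rn n → ℝ} (hφ : ContDiff ℝ 1 φ) (hψ : ContDiff ℝ 1 ψ) (x : Rn n) :
    (1 / 2 : ℝ) • ((gradient v x + gradient φ x) + (gradient v x + gradient ψ x)) =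
      gradient v x + gradient (fun y => (1 / 2 : ℝ) * (φ y + ψ y)) x := by
  have h1 := hφ.differentiable one_ne_zero x
  have h2 := hψ.differentiable one_ne_zero x
  have h3 : DifferentiableAt ℝ (fun y => φ y + ψ y) x := h1.add h2
  rw [gradient_const_mul' _ h3, gradient_add' h1 h2]
  module

lemma isC1c_comp {φ : Rn n → ℝ} (hφ : IsC1c (Metric.ball 0 1) φ) (T : Rn n ≃ₗᵢ[ℝ] Rn n) (c : ℝ) :
    IsC1c (Metric.ball 0 1) (fun x => c * φ (T x)) := by
  refine IsC1c.const_mul c ⟨hφ.1.comp T.contDiff, ?_, ?_⟩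
  · exact hφ.2.1.comp_homeomorph T.toHomeomorph
  · refine (tsupport_comp_subset_preimage φ T.continuous).trans ?_
    intro x hx
    have := hφ.2.2 hx
    simpa using this

lemma mp_ball (T : Rn n ≃ₗᵢ[ℝ] Rn n) : MeasurePreserving T (muB n) (muB n) := by
  have h := T.measurePreserving.restrict_preimage (s := Metric.ball (0 : Rn n) 1)
    measurableSet_ball
  have e : (T : Rn n → Rn n) ⁻¹' Metric.ball (0 : Rn n) 1 = Metric.ball 0 1 := by
    ext x; simp
  rw [e] at h
  exact h

theorem exists_minimizer (hn : 2 ≤ n) (hp1 : 1 < p) (hp2 : p < 2) {v : Rn n → ℝ}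
    (hv : ContDiff ℝ 1 v) :
    ∃ (φ : ℕ → Rn n → ℝ) (w : Rn n → ℝ) (G : Rn n → Rn n),
      (∀ j, IsC1c (Metric.ball 0 1) (φ j)) ∧
      MemLp w (ENNReal.ofReal p) (muB n) ∧ MemLp G (ENNReal.ofReal p) (muB n) ∧
      Tendsto (fun j => eLpNorm (fun x => φ j x - w x) (ENNReal.ofReal p) (muB n)) atTop (𝓝 0) ∧
      Tendsto (fun j => eLpNorm (fun x => (gradient v x + gradient (φ j) x) - G x)
        (ENNReal.ofReal p) (muB n)) atTop (𝓝 0) ∧
      (∀ᵐ x ∂(muB n), Tendsto (fun j => φ j x) atTop (𝓝 (w x))) ∧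
      (∀ ψ, IsC1c (Metric.ball 0 1) ψ → ∫ x, ⟪pmap p (G x), gradient ψ x⟫ ∂(muB n) = 0) ∧
      (∀ (T : Rn n ≃ₗᵢ[ℝ] Rn n) (ε : ℝ), ε ^ 2 = 1 → (∀ x, v (T x) = ε * v x) →
        ∀ᵐ x ∂(muB n), w (T x) = ε * w x) := by
  have hq : (1 : ℝ≥0∞) ≤ ENNReal.ofReal p := by
    rw [← ENNReal.ofReal_one]; exact ENNReal.ofReal_le_ofReal hp1.le
  have hp0 : 0 < p := by linarith
  set S : Set ℝ := {e | ∃ φ : Rn n → ℝ, IsC1c (Metric.ball 0 1) φ ∧ e = energy p v φ} with hS
  have hSne : S.Nonempty := ⟨_, _, IsC1c.zero _, rfl⟩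
  have hSb : BddBelow S := ⟨0, by rintro _ ⟨φ, _, rfl⟩; exact energy_nonneg v φ⟩
  obtain ⟨u, -, hut, hu⟩ := exists_seq_tendsto_sInf hSne hSb
  set m := sInf S with hmdef
  have hm : ∀ φ, IsC1c (Metric.ball 0 1) φ → m ≤ energy p v φ := fun φ hφ =>
    csInf_le hSb ⟨φ, hφ, rfl⟩
  choose φ₀ hφ₀ hφe using hu
  have hE₀ : Tendsto (fun j => energy p v (φ₀ j)) atTop (𝓝 m) := by
    refine hut.congr fun j => hφe j
  have hmid : ∀ φ ψ : Rn n → ℝ, IsC1c (Metric.ball 0 1) φ → IsC1c (Metric.ball 0 1) ψ →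
      m ≤ ∫ x, ‖(1 / 2 : ℝ) • ((gradient v x + gradient φ x) +
        (gradient v x + gradient ψ x))‖ ^ p ∂(muB n) := by
    intro φ ψ hφ hψ
    have := hm _ ((hφ.add hψ).const_mul (1 / 2))
    simp only [mid_grad hφ.1 hψ.1]
    exact this
  obtain ⟨C, hC⟩ := poincare hn hp1 hp2
  have hPdiff : ∀ φ ψ : Rn n → ℝ, IsC1c (Metric.ball 0 1) φ → IsC1c (Metric.ball 0 1) ψ →
      eLpNorm (fun x => φ x - ψ x) (ENNReal.ofReal p) (muB n) ≤
      C * eLpNorm (fun x => (gradient v x + gradient φ x) - (gradient v x + gradient ψ x))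
        (ENNReal.ofReal p) (muB n) := by
    intro φ ψ hφ hψ
    refine (hC _ (hφ.sub hψ)).trans_eq ?_
    congr 2
    ext1 x
    rw [gradient_sub' (hφ.1.differentiable one_ne_zero x) (hψ.1.differentiable one_ne_zero x)]
    abel
  have hmemφ : ∀ φ : Rn n → ℝ, IsC1c (Metric.ball 0 1) φ → MemLp φ (ENNReal.ofReal p) (muB n) :=
    fun φ hφ => memLp_of_continuous hφ.1.continuous _
  -- Cauchy property of the gradients and of the functions
  have hcG : Tendsto (fun ij : ℕ × ℕ => eLpNorm (fun x => (gradient v x + gradient (φ₀ ij.1) x) -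
      (gradient v x + gradient (φ₀ ij.2) x)) (ENNReal.ofReal p) (muB n)) atTop (𝓝 0) := by
    refine tendsto_eLpNorm_sub hp1 hp2
      (a := fun (ij : ℕ × ℕ) x => gradient v x + gradient (φ₀ ij.1) x)
      (b := fun (ij : ℕ × ℕ) x => gradient v x + gradient (φ₀ ij.2) x) (m := m)
      (fun ij => memLp_grad hv (hφ₀ _) _) (fun ij => memLp_grad hv (hφ₀ _) _)
      (fun ij => hmid _ _ (hφ₀ _) (hφ₀ _)) ?_ ?_
    · rw [← prod_atTop_atTop_eq]; exact hE₀.comp tendsto_fst
    · rw [← prod_atTop_atTop_eq]; exact hE₀.comp tendsto_snd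
  have hcφ : Tendsto (fun ij : ℕ × ℕ => eLpNorm (fun x => φ₀ ij.1 x - φ₀ ij.2 x)
      (ENNReal.ofReal p) (muB n)) atTop (𝓝 0) := by
    have h1 := ENNReal.Tendsto.const_mul hcG (Or.inr (ENNReal.coe_ne_top (r := C)))
    rw [mul_zero] at h1
    exact tendsto_of_tendsto_of_tendsto_of_le_of_le tendsto_const_nhds h1
      (fun _ => zero_le) (fun ij => hPdiff _ _ (hφ₀ _) (hφ₀ _))
  obtain ⟨G, hG, hGt⟩ := exists_Lp_limit hq (fun j => memLp_grad hv (hφ₀ j) _) hcG
  obtain ⟨w, hw, hwt⟩ := exists_Lp_limit hq (fun j => hmemφ _ (hφ₀ j)) hcφ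
  obtain ⟨ns, hns, hae⟩ := exists_subseq_ae hp1 (fun j => hmemφ _ (hφ₀ j)) hw hwt
  have hnst := hns.tendsto_atTop
  have hEG : ∫ x, ‖G x‖ ^ p ∂(muB n) = m := by
    refine tendsto_nhds_unique ?_ hE₀
    exact tendsto_energy hp1 (fun j => memLp_grad hv (hφ₀ j) _) hG hGt
  refine ⟨fun j => φ₀ (ns j), w, G, fun j => hφ₀ _, hw, hG, hwt.comp hnst, hGt.comp hnst, hae,
    ?_, ?_⟩
  · -- Euler-Lagrange
    have key : ∀ ψ, IsC1c (Metric.ball 0 1) ψ →
        0 ≤ ∫ x, ⟪pmap p (G x), gradient ψ x⟫ ∂(muB n) := by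
      intro ψ hψ
      have hψm : MemLp (gradient ψ) (ENNReal.ofReal p) (muB n) :=
        memLp_of_continuous (continuous_gradient hψ.1) _
      have hmin : ∀ t : ℝ, m ≤ ∫ x, ‖G x + t • gradient ψ x‖ ^ p ∂(muB n) := by
        intro t
        have h1 : Tendsto (fun j => ∫ x, ‖(gradient v x + gradient (φ₀ j) x) +
            t • gradient ψ x‖ ^ p ∂(muB n)) atTop
            (𝓝 (∫ x, ‖G x + t • gradient ψ x‖ ^ p ∂(muB n))) := by
          refine tendsto_energy hp1
            (fun j => (memLp_grad hv (hφ₀ j) _).add (hψm.const_smul t))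
            (hG.add (hψm.const_smul t)) ?_
          refine hGt.congr fun j => ?_
          congr 1
          ext1 x
          abel
        refine ge_of_tendsto' h1 fun j => ?_
        have h2 := hm _ ((hφ₀ j).add (hψ.const_mul t))
        refine h2.trans_eq ?_
        unfold energy
        congr 1
        ext1 x
        have d1 := (hφ₀ j).1.differentiable one_ne_zero x
        have d2 := hψ.1.differentiable one_ne_zero x
        have d3 : DifferentiableAt ℝ (fun y => t * ψ y) x := d2.const_mul t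
        rw [gradient_add' d1 d3, gradient_const_mul' t d2, add_assoc]
      have hbound : ∀ (t : ℝ), 0 ≤ t → t ≤ 1 → ∀ x,
          ‖⟪pmap p (G x + t • gradient ψ x), gradient ψ x⟫‖ ≤ (‖G x‖ + ‖gradient ψ x‖) ^ p := by
        intro t ht0 ht1 x
        have h1 : ‖G x + t • gradient ψ x‖ ≤ ‖G x‖ + ‖gradient ψ x‖ := by
          refine (norm_add_le _ _).trans ?_
          rw [norm_smul, Real.norm_of_nonneg ht0]
          nlinarith [norm_nonneg (gradient ψ x)]
        have h0 : 0 ≤ ‖G x‖ + ‖gradient ψ x‖ := by positivity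
        calc ‖⟪pmap p (G x + t • gradient ψ x), gradient ψ x⟫‖
            ≤ ‖pmap p (G x + t • gradient ψ x)‖ * ‖gradient ψ x‖ := norm_inner_le_norm _ _
          _ = ‖G x + t • gradient ψ x‖ ^ (p - 1) * ‖gradient ψ x‖ := by rw [norm_pmap hp1]
          _ ≤ (‖G x‖ + ‖gradient ψ x‖) ^ (p - 1) * (‖G x‖ + ‖gradient ψ x‖) := by
              have h2 : ‖gradient ψ x‖ ≤ ‖G x‖ + ‖gradient ψ x‖ := by
                linarith [norm_nonneg (G x)]
              have h3 := Real.rpow_le_rpow (norm_nonneg _) h1 (by linarith : 0 ≤ p - 1)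
              exact mul_le_mul h3 h2 (norm_nonneg _) (by positivity)
          _ = (‖G x‖ + ‖gradient ψ x‖) ^ p := by
              rcases eq_or_lt_of_le h0 with h | h
              · rw [← h, Real.zero_rpow (by linarith : p ≠ 0), mul_zero]
              · rw [← Real.rpow_add_one h.ne']
                congr 1; ring
      have hdom : Integrable (fun x => (‖G x‖ + ‖gradient ψ x‖) ^ p) (muB n) := by
        have h1 := integrable_rpow hp1 (memLp_norm_add hG hψm)
        refine h1.congr (Eventually.of_forall fun x => ?_)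
        simp only
        rw [Real.norm_of_nonneg (by positivity)]
      have hmeas : ∀ t : ℝ, AEStronglyMeasurable
          (fun x => ⟪pmap p (G x + t • gradient ψ x), gradient ψ x⟫) (muB n) := by
        intro t
        exact ((continuous_pmap hp1).comp_aestronglyMeasurable
          (hG.1.add (hψm.1.const_smul t))).inner hψm.1
      have hpos : ∀ t : ℝ, 0 < t → t ≤ 1 →
          0 ≤ ∫ x, ⟪pmap p (G x + t • gradient ψ x), gradient ψ x⟫ ∂(muB n) := by
        intro t ht0 ht1
        have i1 : Integrable (fun x => ⟪pmap p (G x + t • gradient ψ x), gradient ψ x⟫)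
          (muB n) := hdom.mono' (hmeas t) (Eventually.of_forall (hbound t ht0.le ht1))
        have i2 := integrable_rpow hp1 hG
        have i3 : Integrable (fun x => ‖G x + t • gradient ψ x‖ ^ p) (muB n) :=
          integrable_rpow hp1 (hG.add (hψm.const_smul t))
        have h1 : ∫ x, (‖G x + t • gradient ψ x‖ ^ p -
            (p * t) * ⟪pmap p (G x + t • gradient ψ x), gradient ψ x⟫) ∂(muB n) ≤
            ∫ x, ‖G x‖ ^ p ∂(muB n) := by
          refine integral_mono (i3.sub (i1.const_mul _)) i2 fun x => ?_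
          have := gradient_ineq hp1 (G x) (G x + t • gradient ψ x)
          have e : G x - (G x + t • gradient ψ x) = -(t • gradient ψ x) := by abel
          rw [e, inner_neg_right, real_inner_smul_right] at this
          simp only
          linarith
        rw [integral_sub i3 (i1.const_mul _), integral_const_mul, hEG] at h1
        have h2 := hmin t
        have h3 : 0 ≤ (p * t) *
            ∫ x, ⟪pmap p (G x + t • gradient ψ x), gradient ψ x⟫ ∂(muB n) := by linarith
        exact nonneg_of_mul_nonneg_right h3 (by positivity)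
      have hlim : Tendsto (fun t : ℝ => ∫ x, ⟪pmap p (G x + t • gradient ψ x),
          gradient ψ x⟫ ∂(muB n)) (𝓝[>] 0) (𝓝 (∫ x, ⟪pmap p (G x), gradient ψ x⟫ ∂(muB n))) := by
        refine tendsto_integral_filter_of_dominated_convergence _
          (Eventually.of_forall hmeas) ?_ hdom ?_
        · have : Ioc (0 : ℝ) 1 ∈ 𝓝[>] (0 : ℝ) := Ioc_mem_nhdsGT (by norm_num)
          filter_upwards [this] with t ht
          exact Eventually.of_forall (hbound t ht.1.le ht.2)
        · refine Eventually.of_forall fun x => ?_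
          have hc : Continuous (fun t : ℝ => ⟪pmap p (G x + t • gradient ψ x), gradient ψ x⟫) :=
            ((continuous_pmap hp1).comp (by fun_prop)).inner continuous_const
          have := hc.tendsto 0
          simp only [zero_smul, add_zero] at this
          exact this.mono_left nhdsWithin_le_nhds
      refine ge_of_tendsto hlim ?_
      have : Ioc (0 : ℝ) 1 ∈ 𝓝[>] (0 : ℝ) := Ioc_mem_nhdsGT (by norm_num)
      filter_upwards [this] with t ht using hpos t ht.1 ht.2
    intro ψ hψ
    refine le_antisymm ?_ (key ψ hψ)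
    have h1 := key _ (hψ.const_mul (-1))
    have h2 : ∫ x, ⟪pmap p (G x), gradient (fun y => -1 * ψ y) x⟫ ∂(muB n) =
        -∫ x, ⟪pmap p (G x), gradient ψ x⟫ ∂(muB n) := by
      rw [← integral_neg]
      congr 1
      ext1 x
      rw [gradient_const_mul' _ (hψ.1.differentiable one_ne_zero x), real_inner_smul_right]
      ring
    rw [h2] at h1
    linarith
  · -- symmetry
    intro T ε hε hvT
    set φ₁ : ℕ → Rn n → ℝ := fun j x => ε * φ₀ j (T x) with hφ₁def
    have hφ₁ : ∀ j, IsC1c (Metric.ball 0 1) (φ₁ j) := fun j => isC1c_comp (hφ₀ j) T ε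
    have hve : ∀ x, v x = ε * v (T x) := by
      intro x; rw [hvT, ← mul_assoc]
      have : ε * ε = 1 := by rw [← hε]; ring
      rw [this, one_mul]
    have hgv : ∀ x, gradient v x = ε • T.symm (gradient v (T x)) := by
      intro x
      have e : v = fun y => ε * v (T y) := funext hve
      have d : DifferentiableAt ℝ (fun y => v (T y)) x :=
        ((hv.differentiable one_ne_zero) (T x)).comp x T.differentiableAt
      conv_lhs => rw [e]
      rw [gradient_const_mul' ε d, gradient_comp_isometry]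
    have hgφ : ∀ j x, gradient (φ₁ j) x = ε • T.symm (gradient (φ₀ j) (T x)) := by
      intro j x
      have d : DifferentiableAt ℝ (fun y => φ₀ j (T y)) x :=
        (((hφ₀ j).1.differentiable one_ne_zero) (T x)).comp x T.differentiableAt
      rw [hφ₁def]
      simp only
      rw [gradient_const_mul' ε d, gradient_comp_isometry]
    have habs : |ε| = 1 := by
      rw [← sq_eq_sq₀ (abs_nonneg _) zero_le_one, sq_abs, hε]; norm_num
    have hnorm : ∀ j x, ‖gradient v x + gradient (φ₁ j) x‖ =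
        ‖gradient v (T x) + gradient (φ₀ j) (T x)‖ := by
      intro j x
      rw [hgv, hgφ, ← smul_add, ← map_add, norm_smul, Real.norm_eq_abs, habs, one_mul,
        LinearIsometryEquiv.norm_map]
    have hE₁ : ∀ j, energy p v (φ₁ j) = energy p v (φ₀ j) := by
      intro j
      unfold energy
      simp only [hnorm]
      exact (mp_ball T).integral_comp T.toHomeomorph.measurableEmbedding
        (fun x => ‖gradient v x + gradient (φ₀ j) x‖ ^ p)
    have hd : Tendsto (fun j => eLpNorm (fun x => (gradient v x + gradient (φ₀ j) x) -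
        (gradient v x + gradient (φ₁ j) x)) (ENNReal.ofReal p) (muB n)) atTop (𝓝 0) := by
      refine tendsto_eLpNorm_sub hp1 hp2
        (a := fun j x => gradient v x + gradient (φ₀ j) x)
        (b := fun j x => gradient v x + gradient (φ₁ j) x) (m := m)
        (fun j => memLp_grad hv (hφ₀ _) _) (fun j => memLp_grad hv (hφ₁ _) _)
        (fun j => hmid _ _ (hφ₀ _) (hφ₁ _)) hE₀ ?_
      exact hE₀.congr fun j => (hE₁ j).symm
    have hd2 : Tendsto (fun j => eLpNorm (fun x => φ₀ j x - φ₁ j x)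
        (ENNReal.ofReal p) (muB n)) atTop (𝓝 0) := by
      have h1 := ENNReal.Tendsto.const_mul hd (Or.inr (ENNReal.coe_ne_top (r := C)))
      rw [mul_zero] at h1
      exact tendsto_of_tendsto_of_tendsto_of_le_of_le tendsto_const_nhds h1
        (fun _ => zero_le) (fun j => hPdiff _ _ (hφ₀ _) (hφ₁ _))
    have hwT : MemLp (fun x => w (T x)) (ENNReal.ofReal p) (muB n) :=
      hw.comp_measurePreserving (mp_ball T)
    have hd3 : Tendsto (fun j => eLpNorm (fun x => φ₁ j x - ε * w (T x))
        (ENNReal.ofReal p) (muB n)) atTop (𝓝 0) := by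
      refine hwt.congr fun j => ?_
      have h1 : eLpNorm (fun x => φ₁ j x - ε * w (T x)) (ENNReal.ofReal p) (muB n) =
          eLpNorm (fun x => φ₀ j (T x) - w (T x)) (ENNReal.ofReal p) (muB n) := by
        refine eLpNorm_congr_norm_ae (Eventually.of_forall fun x => ?_)
        rw [hφ₁def]
        simp only
        rw [← mul_sub, norm_mul, Real.norm_eq_abs ε, habs, one_mul]
      rw [h1]
      exact (eLpNorm_comp_measurePreserving (f := T) (g := fun x => φ₀ j x - w x)
        ((hmemφ _ (hφ₀ j)).sub hw).1 (mp_ball T)).symm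
    have hzero : eLpNorm (fun x => w x - ε * w (T x)) (ENNReal.ofReal p) (muB n) = 0 := by
      have hle : ∀ j, eLpNorm (fun x => w x - ε * w (T x)) (ENNReal.ofReal p) (muB n) ≤
          eLpNorm (fun x => φ₀ j x - w x) (ENNReal.ofReal p) (muB n) +
          (eLpNorm (fun x => φ₀ j x - φ₁ j x) (ENNReal.ofReal p) (muB n) +
          eLpNorm (fun x => φ₁ j x - ε * w (T x)) (ENNReal.ofReal p) (muB n)) := by
        intro j
        have m1 : AEStronglyMeasurable (fun x => w x - φ₀ j x) (muB n) :=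
          (hw.sub (hmemφ _ (hφ₀ j))).1
        have m2 : AEStronglyMeasurable (fun x => φ₀ j x - φ₁ j x) (muB n) :=
          ((hmemφ _ (hφ₀ j)).sub (hmemφ _ (hφ₁ j))).1
        have m3 : AEStronglyMeasurable (fun x => φ₁ j x - ε * w (T x)) (muB n) :=
          ((hmemφ _ (hφ₁ j)).sub (hwT.const_mul ε)).1
        have e1 : (fun x => w x - ε * w (T x)) = (fun x => w x - φ₀ j x) +
            ((fun x => φ₀ j x - φ₁ j x) + (fun x => φ₁ j x - ε * w (T x))) := by
          ext x; simp
        have e2 : eLpNorm (fun x => w x - φ₀ j x) (ENNReal.ofReal p) (muB n) =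
            eLpNorm (fun x => φ₀ j x - w x) (ENNReal.ofReal p) (muB n) :=
          eLpNorm_sub_comm _ _ _ _
        rw [e1]
        refine (eLpNorm_add_le m1 (m2.add m3) hq).trans ?_
        rw [e2]
        gcongr
        exact eLpNorm_add_le m2 m3 hq
      have hlim := hwt.add (hd2.add hd3)
      simp only [add_zero] at hlim
      exact le_antisymm (ge_of_tendsto' hlim hle) zero_le
    have m4 : AEStronglyMeasurable (fun x => w x - ε * w (T x)) (muB n) :=
      (hw.sub (hwT.const_mul ε)).1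
    rw [eLpNorm_eq_zero_iff m4 (ENNReal.ofReal_pos.2 hp0).ne'] at hzero
    filter_upwards [hzero] with x hx
    have hx' : w x = ε * w (T x) := by
      have : w x - ε * w (T x) = 0 := hx
      linarith
    rw [hx', ← mul_assoc]
    have : ε * ε = 1 := by rw [← hε]; ring
    rw [this, one_mul]

end Pool.Agent.Lib.MP_c081e6_an
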