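import Mathlib
import Pool.Agent.Lib.MP_c081e6_an.Existence
import Pool.Agent.Lib.MP_c081e6_an.Barrier

/-!
# The minimizer is `p`-harmonic; its regular representative
-/

set_option autoImplicit false

open MeasureTheory Set Filter
open scoped ENNReal NNReal Topology RealInnerProductSpace

namespace Pool.Agent.Lib.MP_c081e6_an

variable {n : ℕ} {p : ℝ}

/-- The minimizer of the `p`-energy with boundary values `bv`. -/
structure MinData (n : ℕ) (p : ℝ) where
  φ : ℕ → Rn n → ℝ
  w : Rn n → ℝ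
  G : Rn n → Rn n
  hφ : ∀ j, IsC1c (Metric.ball 0 1) (φ j)
  hw : MemLp w (ENNReal.ofReal p) (muB n)
  hG : MemLp G (ENNReal.ofReal p) (muB n)
  tw : Tendsto (fun j => eLpNorm (fun x => φ j x - w x) (ENNReal.ofReal p) (muB n)) atTop (𝓝 0)
  tG : Tendsto (fun j => eLpNorm (fun x => (gradient bv x + gradient (φ j) x) - G x)
    (ENNReal.ofReal p) (muB n)) atTop (𝓝 0)
  hae : ∀ᵐ x ∂(muB n), Tendsto (fun j => φ j x) atTop (𝓝 (w x))
  el : ∀ ψ, IsC1c (Metric.ball 0 1) ψ → ∫ x, ⟪pmap p (G x), gradient ψ x⟫ ∂(muB n) = 0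
  sym : ∀ (T : Rn n ≃ₗᵢ[ℝ] Rn n) (ε : ℝ), ε ^ 2 = 1 → (∀ x, bv (T x) = ε * bv x) →
    ∀ᵐ x ∂(muB n), w (T x) = ε * w x

lemma exists_minData (hn : 2 ≤ n) (hp1 : 1 < p) (hp2 : p < 2) : Nonempty (MinData n p) := by
  obtain ⟨φ, w, G, h1, h2, h3, h4, h5, h6, h7, h8⟩ := exists_minimizer hn hp1 hp2
    (contDiff_bv (n := n))
  exact ⟨⟨φ, w, G, h1, h2, h3, h4, h5, h6, h7, h8⟩⟩

lemma integral_muB_eq {f : Rn n → ℝ} (hf : ∀ x, x ∉ Metric.ball (0 : Rn n) 1 → f x = 0) :
    ∫ x, f x ∂(muB n) = ∫ x, f x :=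
  setIntegral_eq_integral_of_forall_compl_eq_zero hf

lemma holderConj (hp1 : 1 < p) : p.HolderConjugate (p / (p - 1)) := by
  rw [Real.holderConjugate_iff]
  refine ⟨hp1, ?_⟩
  have : p - 1 ≠ 0 := by linarith
  field_simp
  ring

lemma MinData.weak_grad (M : MinData n p) (hp1 : 1 < p) {ψ : Rn n → ℝ}
    (hψ : IsC1c (Metric.ball 0 1) ψ) (e : Rn n) :
    ∫ x, (bv x + M.w x) * ⟪gradient ψ x, e⟫ ∂(muB n) = -∫ x, ⟪M.G x, e⟫ * ψ x ∂(muB n) := by
  have hpq := holderConj hp1
  have hψg := continuous_gradient hψ.1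
  have hbc : Continuous (bv : Rn n → ℝ) := contDiff_bv.continuous
  -- the identity for the approximations
  have h1 : ∀ j, ∫ x, ⟪⟪gradient ψ x, e⟫, bv x + M.φ j x⟫ ∂(muB n) =
      -∫ x, ⟪ψ x • e, gradient bv x + gradient (M.φ j) x⟫ ∂(muB n) := by
    intro j
    have hf : ContDiff ℝ 1 (fun x => bv x + M.φ j x) := contDiff_bv.add (M.hφ j).1
    have h2 := ibp_dir Metric.isOpen_ball hf.contDiffOn hψ e
    rw [integral_muB_eq, integral_muB_eq]
    · have e1 : ∀ x, ⟪⟪gradient ψ x, e⟫, bv x + M.φ j x⟫ =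
          (bv x + M.φ j x) * ⟪gradient ψ x, e⟫ := fun x => by
        rw [real_inner_comm]; simp [mul_comm]
      have e2 : ∀ x, ⟪ψ x • e, gradient bv x + gradient (M.φ j) x⟫ =
          fderiv ℝ (fun x => bv x + M.φ j x) x e * ψ x := fun x => by
        rw [← inner_gradient_left, gradient_add' (contDiff_bv.differentiable one_ne_zero x)
          ((M.hφ j).1.differentiable one_ne_zero x), real_inner_smul_left, real_inner_comm,
          mul_comm]
      simp only [e1, e2]
      exact h2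
    · intro x hx
      rw [image_eq_zero_of_notMem_tsupport fun h => hx (hψ.2.2 h)]
      simp
    · intro x hx
      rw [gradient_eq_zero_of_notMem fun h => hx (hψ.2.2 h)]
      simp
  have hmφ : ∀ j, MemLp (fun x => bv x + M.φ j x) (ENNReal.ofReal p) (muB n) := fun j =>
    memLp_of_continuous (hbc.add (M.hφ j).1.continuous) _
  have hmw : MemLp (fun x => bv x + M.w x) (ENNReal.ofReal p) (muB n) :=
    (memLp_of_continuous hbc _).add M.hw
  have L1 := tendsto_integral_inner (l := atTop) hpq (f := fun j x => bv x + M.φ j x)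
    (g := fun x => bv x + M.w x) (A := fun x => ⟪gradient ψ x, e⟫) hmφ hmw
    (memLp_of_continuous (hψg.inner continuous_const) _) (by
      refine M.tw.congr fun j => ?_
      congr 1
      ext1 x
      ring)
  have L2 := tendsto_integral_inner (l := atTop) hpq
    (f := fun j x => gradient bv x + gradient (M.φ j) x)
    (g := M.G) (A := fun x => ψ x • e) (fun j => memLp_grad contDiff_bv (M.hφ j) _) M.hG
    (memLp_of_continuous (hψ.1.continuous.smul continuous_const) _) M.tG
  have h3 := tendsto_nhds_unique (L1.congr h1) L2.neg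
  have e1 : ∀ x, ⟪⟪gradient ψ x, e⟫, bv x + M.w x⟫ =
      (bv x + M.w x) * ⟪gradient ψ x, e⟫ := fun x => by
    rw [real_inner_comm]; simp [mul_comm]
  have e2 : ∀ x, ⟪ψ x • e, M.G x⟫ = ⟪M.G x, e⟫ * ψ x := fun x => by
    rw [real_inner_smul_left, real_inner_comm, mul_comm]
  simp only [e1, e2] at h3
  exact h3

lemma isLpLoc_of_memLp {F : Type} [NormedAddCommGroup F] {f : Rn n → F}
    (hf : MemLp f (ENNReal.ofReal p) (muB n)) : IsLpLoc p (Metric.ball 0 1) f := by
  intro K hK _
  exact hf.mono_measure (Measure.restrict_mono hK le_rfl)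

/-- The minimizer is `p`-harmonic in the unit ball. -/
lemma MinData.isPHarmonic (M : MinData n p) (hp1 : 1 < p) :
    IsPHarmonic p (Metric.ball 0 1) (fun x => bv x + M.w x) := by
  refine ⟨M.G, isLpLoc_of_memLp ((memLp_of_continuous contDiff_bv.continuous _).add M.hw),
    isLpLoc_of_memLp M.hG, fun φ hφ e => M.weak_grad hp1 hφ.isC1c e, fun φ hφ => ?_⟩
  have h := M.el φ hφ.isC1c
  simp only [pmap, real_inner_smul_left] at h
  exact h

variable {U : Rn n → ℝ}

/-- The gradient of the regular representative is the weak gradient. -/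
lemma MinData.grad_eq (M : MinData n p) (hp1 : 1 < p)
    (hU : ContDiffOn ℝ 1 U (Metric.ball 0 1))
    (hUw : ∀ᵐ x ∂(muB n), U x = bv x + M.w x) :
    ∀ᵐ x ∂(muB n), M.G x = gradient U x := by
  have hB : IsOpen (Metric.ball (0 : Rn n) 1) := Metric.isOpen_ball
  have hgU : ContinuousOn (gradient U) (Metric.ball 0 1) :=
    (InnerProductSpace.toDual ℝ (Rn n)).symm.continuous.comp_continuousOn
      (hU.continuousOn_fderiv_of_isOpen hB le_rfl)
  have hq : (1 : ℝ≥0∞) ≤ ENNReal.ofReal p := by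
    rw [← ENNReal.ofReal_one]; exact ENNReal.ofReal_le_ofReal hp1.le
  have hGi : Integrable M.G (muB n) := M.hG.integrable hq
  have key : ∀ e : Rn n, ∀ᵐ x ∂volume, x ∈ Metric.ball (0 : Rn n) 1 →
      ⟪M.G x, e⟫ - ⟪gradient U x, e⟫ = 0 := by
    intro e
    have l1 : LocallyIntegrableOn (fun x => ⟪M.G x, e⟫) (Metric.ball 0 1) volume :=
      IntegrableOn.locallyIntegrableOn (hGi.inner_const e)
    have l2 : LocallyIntegrableOn (fun x => ⟪gradient U x, e⟫) (Metric.ball 0 1) volume :=
      (hgU.inner continuousOn_const).locallyIntegrableOn measurableSet_ball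
    refine hB.ae_eq_zero_of_integral_contDiff_smul_eq_zero (l1.sub l2) ?_
    intro ψ hψ hψc hψs
    have hC : IsC1c (Metric.ball 0 1) ψ := IsTestFunction.isC1c ⟨hψ, hψc, hψs⟩
    have h1 := M.weak_grad hp1 hC e
    have h2 := ibp_dir hB hU hC e
    have h3 : ∫ x, (bv x + M.w x) * ⟪gradient ψ x, e⟫ ∂(muB n) =
        ∫ x, U x * ⟪gradient ψ x, e⟫ := by
      rw [← integral_muB_eq (f := fun x => U x * ⟪gradient ψ x, e⟫)]
      · refine integral_congr_ae ?_
        filter_upwards [hUw] with x hx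
        rw [hx]
      · intro x hx
        rw [gradient_eq_zero_of_notMem fun h => hx (hC.2.2 h)]
        simp
    have h4 : ∫ x, ⟪M.G x, e⟫ * ψ x ∂(muB n) = ∫ x, ⟪M.G x, e⟫ * ψ x := by
      rw [integral_muB_eq]
      intro x hx
      rw [image_eq_zero_of_notMem_tsupport fun h => hx (hC.2.2 h), mul_zero]
    rw [h3, h2, h4] at h1
    simp only [← inner_gradient_left] at h1
    have i1 : Integrable (fun x => ⟪M.G x, e⟫ * ψ x) volume := by
      have : IntegrableOn (fun x => ⟪M.G x, e⟫ * ψ x) (Metric.ball 0 1) volume := by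
        obtain ⟨C, hC'⟩ := hψc.exists_bound_of_continuous hψ.continuous
        exact (hGi.inner_const e).mul_bdd (c := C) hψ.continuous.aestronglyMeasurable
          (Eventually.of_forall hC')
      rw [integrableOn_iff_integrable_of_support_subset] at this
      · exact this
      · intro x hx
        by_contra hc
        refine hx ?_
        simp only
        rw [image_eq_zero_of_notMem_tsupport fun h => hc (hC.2.2 h), mul_zero]
    have i2 : Integrable (fun x => ⟪gradient U x, e⟫ * ψ x) volume := by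
      refine integrable_of_support hB ?_ hC.2.1 hC.2.2 ?_
      · exact (hgU.inner continuousOn_const).mul hψ.continuous.continuousOn
      · intro x hx
        rw [image_eq_zero_of_notMem_tsupport hx, mul_zero]
    have h5 : ∫ x, ψ x • (⟪M.G x, e⟫ - ⟪gradient U x, e⟫) =
        (∫ x, ⟪M.G x, e⟫ * ψ x) - ∫ x, ⟪gradient U x, e⟫ * ψ x := by
      rw [← integral_sub i1 i2]
      congr 1
      ext1 x
      simp only [smul_eq_mul]
      ring
    rw [h5]
    linarith
  rw [muB, ae_restrict_iff' measurableSet_ball]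
  have hall : ∀ᵐ x ∂(volume : Measure (Rn n)), ∀ i : Fin n, x ∈ Metric.ball (0 : Rn n) 1 →
      ⟪M.G x, EuclideanSpace.basisFun (Fin n) ℝ i⟫ -
        ⟪gradient U x, EuclideanSpace.basisFun (Fin n) ℝ i⟫ = 0 :=
    ae_all_iff.2 fun i => key _
  filter_upwards [hall] with x hx hxB
  ext i
  have := hx i hxB
  rw [EuclideanSpace.basisFun_apply, EuclideanSpace.inner_single_right,
    EuclideanSpace.inner_single_right] at this
  simp only [conj_trivial, one_mul] at this
  linarith

/-- The symmetries hold everywhere for the regular representative. -/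
lemma MinData.sym_eq (M : MinData n p) (hU : ContinuousOn U (Metric.ball 0 1))
    (hUw : ∀ᵐ x ∂(muB n), U x = bv x + M.w x) (T : Rn n ≃ₗᵢ[ℝ] Rn n) {ε : ℝ} (hε : ε ^ 2 = 1)
    (hT : ∀ x : Rn n, bv (T x) = ε * bv x) : ∀ x ∈ Metric.ball (0 : Rn n) 1, U (T x) = ε * U x := by
  have hB : IsOpen (Metric.ball (0 : Rn n) 1) := Metric.isOpen_ball
  have h1 := M.sym T ε hε hT
  have h2 : ∀ᵐ x ∂(muB n), U (T x) = bv (T x) + M.w (T x) :=
    (mp_ball T).quasiMeasurePreserving.ae hUw
  have hae : U ∘ T =ᵐ[volume.restrict (Metric.ball 0 1)] fun x => ε * U x := by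
    have : ∀ᵐ x ∂(muB n), U (T x) = ε * U x := by
      filter_upwards [h1, h2, hUw] with x a b c
      rw [b, a, c, hT]; ring
    exact this
  have hc : ContinuousOn (U ∘ T) (Metric.ball 0 1) := by
    refine hU.comp T.continuous.continuousOn fun x hx => ?_
    simpa using hx
  exact Measure.eqOn_open_of_ae_eq hae hB hc (continuousOn_const.mul hU)

end Pool.Agent.Lib.MP_c081e6_an
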