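import Mathlib
import Pool.Agent.Lib.MP_c081e6_an.Regular

/-!
# The comparison `U ≥ v` on `{σ > 0}`
-/

set_option autoImplicit false

open MeasureTheory Set Filter
open scoped ENNReal NNReal Topology RealInnerProductSpace

namespace Pool.Agent.Lib.MP_c081e6_an

/-! ### The cut-off function -/

/-- `τ(s) = s₊²/(1+s₊²)`. -/
noncomputable def tau (s : ℝ) : ℝ := (max s 0) ^ 2 / (1 + (max s 0) ^ 2)

/-- The derivative of `τ`. -/
noncomputable def tau' (s : ℝ) : ℝ := 2 * (max s 0) / (1 + (max s 0) ^ 2) ^ 2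

lemma hasDerivAt_posPart_sq (s : ℝ) : HasDerivAt (fun t : ℝ => (max t 0) ^ 2) (2 * max s 0) s := by
  rcases lt_trichotomy s 0 with h | h | h
  · have e : (fun t : ℝ => (max t 0) ^ 2) =ᶠ[𝓝 s] fun _ => 0 := by
      filter_upwards [Iio_mem_nhds h] with t ht
      rw [max_eq_right (le_of_lt ht)]; ring
    rw [max_eq_right h.le, mul_zero]
    exact (hasDerivAt_const s (0 : ℝ)).congr_of_eventuallyEq e
  · subst h
    rw [max_self, mul_zero]
    rw [hasDerivAt_iff_isLittleO]
    have h1 : (fun t : ℝ => (max t 0) ^ 2 - (max 0 0) ^ 2 - (t - 0) • (0 : ℝ)) =O[𝓝 0]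
        fun t => t ^ 2 := by
      refine Asymptotics.IsBigO.of_bound 1 (Eventually.of_forall fun t => ?_)
      simp only [max_self, smul_eq_mul, mul_zero, sub_zero]
      rw [one_mul]
      norm_num
      rcases le_total t 0 with ht | ht
      · rw [max_eq_right ht]; simp; positivity
      · rw [max_eq_left ht]
    refine h1.trans_isLittleO ?_
    have := Asymptotics.isLittleO_pow_pow (𝕜 := ℝ) (m := 1) (n := 2) (by norm_num)
    simpa using this
  · have e : (fun t : ℝ => (max t 0) ^ 2) =ᶠ[𝓝 s] fun t => t ^ 2 := by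
      filter_upwards [Ioi_mem_nhds h] with t ht
      rw [max_eq_left (le_of_lt ht)]
    rw [max_eq_left h.le]
    have := (hasDerivAt_pow 2 s).congr_of_eventuallyEq e
    simpa using this

lemma hasDerivAt_tau (s : ℝ) : HasDerivAt tau (tau' s) s := by
  have h := hasDerivAt_posPart_sq s
  have h1 := h.div (h.const_add 1) (by positivity)
  refine h1.congr_deriv ?_
  unfold tau'
  congr 1
  ring

lemma tau_nonneg (s : ℝ) : 0 ≤ tau s := by unfold tau; positivity

lemma tau_le_one (s : ℝ) : tau s ≤ 1 := by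
  unfold tau; rw [div_le_one (by positivity)]; linarith

lemma tau'_nonneg (s : ℝ) : 0 ≤ tau' s := by
  unfold tau'; have : 0 ≤ max s 0 := le_max_right _ _; positivity

lemma tau'_le_two (s : ℝ) : tau' s ≤ 2 := by
  unfold tau'
  have h : 0 ≤ max s 0 := le_max_right _ _
  rw [div_le_iff₀ (by positivity)]
  nlinarith [sq_nonneg (max s 0 - 1), sq_nonneg (max s 0), sq_nonneg ((max s 0) ^ 2)]

lemma continuous_tau : Continuous tau := by
  unfold tau
  refine Continuous.div (by fun_prop) (by fun_prop) fun s => by positivity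

lemma continuous_tau' : Continuous tau' := by
  unfold tau'
  refine Continuous.div (by fun_prop) (by fun_prop) fun s => by positivity

lemma tau_of_nonpos {s : ℝ} (h : s ≤ 0) : tau s = 0 := by
  unfold tau; rw [max_eq_right h]; simp

lemma tau'_of_nonpos {s : ℝ} (h : s ≤ 0) : tau' s = 0 := by
  unfold tau'; rw [max_eq_right h]; simp

lemma tau_pos {s : ℝ} (h : 0 < s) : 0 < tau s := by
  unfold tau; rw [max_eq_left h.le]; positivity

lemma tau'_pos {s : ℝ} (h : 0 < s) : 0 < tau' s := by
  unfold tau'; rw [max_eq_left h.le]; positivity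

lemma contDiff_tau : ContDiff ℝ 1 tau := by
  rw [contDiff_one_iff_deriv]
  refine ⟨fun s => (hasDerivAt_tau s).differentiableAt, ?_⟩
  have : deriv tau = tau' := funext fun s => (hasDerivAt_tau s).deriv
  rw [this]; exact continuous_tau'

/-! ### Limits of weighted integrals -/

section Weight

variable {α : Type*} [MeasurableSpace α] {μ : Measure α}
variable {H : Type*} [NormedAddCommGroup H] [InnerProductSpace ℝ H]

lemma integrable_norm_mul {p q : ℝ} (hpq : p.HolderConjugate q) {A u : α → H}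
    (hA : MemLp A (ENNReal.ofReal q) μ) (hu : MemLp u (ENNReal.ofReal p) μ) :
    Integrable (fun x => ‖A x‖ * ‖u x‖) μ := by
  have hh : (ENNReal.ofReal q).HolderConjugate (ENNReal.ofReal p) :=
    Real.HolderConjugate.ennrealOfReal hpq.symm
  exact MemLp.integrable_mul hA.norm hu.norm

lemma integrable_inner {p q : ℝ} (hpq : p.HolderConjugate q) {A u : α → H}
    (hA : MemLp A (ENNReal.ofReal q) μ) (hu : MemLp u (ENNReal.ofReal p) μ) :
    Integrable (fun x => ⟪A x, u x⟫) μ :=
  (integrable_norm_mul hpq hA hu).mono' (hA.1.inner hu.1)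
    (Eventually.of_forall fun x => norm_inner_le_norm _ _)

lemma tendsto_integral_norm_mul {ι : Type*} {l : Filter ι} {p q : ℝ}
    (hpq : p.HolderConjugate q) {f : ι → α → H} {g A : α → H}
    (hf : ∀ j, MemLp (f j) (ENNReal.ofReal p) μ) (hg : MemLp g (ENNReal.ofReal p) μ)
    (hA : MemLp A (ENNReal.ofReal q) μ)
    (h : Tendsto (fun j => eLpNorm (fun x => f j x - g x) (ENNReal.ofReal p) μ) l (𝓝 0)) :
    Tendsto (fun j => ∫ x, ‖A x‖ * ‖f j x - g x‖ ∂μ) l (𝓝 0) := by
  have hp0 : 0 < p := hpq.pos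
  set C := (∫ x, ‖A x‖ ^ q ∂μ) ^ (1 / q) with hC
  have h1 : Tendsto (fun j => C * (∫ x, ‖f j x - g x‖ ^ p ∂μ) ^ (1 / p)) l (𝓝 0) := by
    have t0 := (ENNReal.tendsto_toReal ENNReal.zero_ne_top).comp h
    have t1 : Tendsto (fun j => (∫ x, ‖f j x - g x‖ ^ p ∂μ) ^ (1 / p)) l (𝓝 0) := by
      rw [ENNReal.toReal_zero] at t0
      refine t0.congr fun j => ?_
      have hm := (hf j).sub hg
      have := hm.eLpNorm_eq_integral_rpow_norm (ENNReal.ofReal_pos.2 hp0).ne'
        ENNReal.ofReal_ne_top
      simp only [Function.comp_apply]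
      have e : eLpNorm (fun x => f j x - g x) (ENNReal.ofReal p) μ =
        eLpNorm (f j - g) (ENNReal.ofReal p) μ := rfl
      rw [e, this, ENNReal.toReal_ofReal (by positivity), ENNReal.toReal_ofReal hp0.le,
        one_div]
      rfl
    have := t1.const_mul C
    rwa [mul_zero] at this
  exact squeeze_zero (fun j => integral_nonneg fun x => by positivity)
    (fun j => integral_mul_norm_le_Lp_mul_Lq (μ := μ) (f := A) (g := fun x => f j x - g x)
      hpq.symm hA ((hf j).sub hg)) h1

lemma tendsto_integral_weight {p q : ℝ} (hpq : p.HolderConjugate q)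
    {f : ℕ → α → H} {g A : α → H} {c : ℕ → α → ℝ} {d : α → ℝ} {C : ℝ}
    (hf : ∀ j, MemLp (f j) (ENNReal.ofReal p) μ) (hg : MemLp g (ENNReal.ofReal p) μ)
    (hA : MemLp A (ENNReal.ofReal q) μ)
    (h : Tendsto (fun j => eLpNorm (fun x => f j x - g x) (ENNReal.ofReal p) μ) atTop (𝓝 0))
    (hc : ∀ j, AEStronglyMeasurable (c j) μ) (hcb : ∀ j x, |c j x| ≤ C)
    (hcd : ∀ᵐ x ∂μ, Tendsto (fun j => c j x) atTop (𝓝 (d x))) :
    Tendsto (fun j => ∫ x, c j x * ⟪A x, f j x⟫ ∂μ) atTop (𝓝 (∫ x, d x * ⟪A x, g x⟫ ∂μ)) := by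
  have hT1 : Tendsto (fun j => ∫ x, c j x * ⟪A x, g x⟫ ∂μ) atTop
      (𝓝 (∫ x, d x * ⟪A x, g x⟫ ∂μ)) := by
    refine tendsto_integral_of_dominated_convergence (fun x => C * ‖⟪A x, g x⟫‖)
      (fun j => (hc j).mul (hA.1.inner hg.1)) ((integrable_inner hpq hA hg).norm.const_mul C)
      (fun j => Eventually.of_forall fun x => ?_) ?_
    · rw [norm_mul]
      exact mul_le_mul_of_nonneg_right (hcb j x) (norm_nonneg _)
    · filter_upwards [hcd] with x hx using hx.mul_const _
  have hT2 : Tendsto (fun j => ∫ x, c j x * ⟪A x, f j x - g x⟫ ∂μ) atTop (𝓝 0) := by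
    rw [tendsto_zero_iff_norm_tendsto_zero]
    have h2 := (tendsto_integral_norm_mul hpq hf hg hA h).const_mul C
    rw [mul_zero] at h2
    refine squeeze_zero (fun j => norm_nonneg _) (fun j => ?_) h2
    rw [← integral_const_mul]
    refine (norm_integral_le_integral_norm _).trans ?_
    refine integral_mono_of_nonneg (Eventually.of_forall fun x => norm_nonneg _)
      ((integrable_norm_mul hpq hA ((hf j).sub hg)).const_mul C)
      (Eventually.of_forall fun x => ?_)
    simp only
    rw [norm_mul]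
    exact mul_le_mul (hcb j x) (norm_inner_le_norm _ _) (norm_nonneg _)
      ((abs_nonneg _).trans (hcb j x))
  have := hT1.add hT2
  rw [add_zero] at this
  refine this.congr fun j => ?_
  have bI : ∀ u : α → H, MemLp u (ENNReal.ofReal p) μ →
      Integrable (fun x => c j x * ⟪A x, u x⟫) μ := fun u hu =>
    (integrable_inner hpq hA hu).bdd_mul (hc j) (Eventually.of_forall (hcb j))
  have b2 : Integrable (fun x => c j x * ⟪A x, f j x - g x⟫) μ := bI _ ((hf j).sub hg)
  rw [← integral_add (bI g hg) b2]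
  congr 1
  ext1 x
  rw [inner_sub_right]
  ring

end Weight

lemma memLp_pmap {α : Type*} [MeasurableSpace α] {μ : Measure α}
    {H : Type*} [NormedAddCommGroup H] [InnerProductSpace ℝ H] {p : ℝ} (hp1 : 1 < p)
    {g : α → H} (hg : MemLp g (ENNReal.ofReal p) μ) :
    MemLp (fun x => pmap p (g x)) (ENNReal.ofReal (p / (p - 1))) μ := by
  have hm : AEStronglyMeasurable (fun x => pmap p (g x)) μ :=
    (continuous_pmap hp1).comp_aestronglyMeasurable hg.1
  have hp0 : 0 < p := by linarith
  have hp10 : 0 < p - 1 := by linarith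
  rw [← integrable_norm_rpow_iff hm (ENNReal.ofReal_pos.2 (by positivity)).ne'
    ENNReal.ofReal_ne_top, ENNReal.toReal_ofReal (by positivity)]
  refine (integrable_rpow hp1 hg).congr (Eventually.of_forall fun x => ?_)
  simp only
  rw [norm_pmap hp1, ← Real.rpow_mul (norm_nonneg _)]
  congr 1
  field_simp

/-! ### The comparison -/

variable {n : ℕ} {p : ℝ}

/-- The domain `{σ > 0} ∩ B`. -/
def DD (n : ℕ) : Set (Rn n) := {x | x ∈ Metric.ball (0 : Rn n) 1 ∧ 0 < sgm x}

lemma isOpen_DD : IsOpen (DD n) :=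
  Metric.isOpen_ball.inter (isOpen_lt continuous_const continuous_sgm)

lemma DD_subset : DD n ⊆ Metric.ball 0 1 := fun _ hx => hx.1

/-- The test function used in the comparison. -/
noncomputable def hfun (U φ : Rn n → ℝ) (δ : ℝ) : Rn n → ℝ :=
  (DD n).indicator fun x => tau (-δ - (U x - bv x)) * tau (-δ - φ x)

variable {U : Rn n → ℝ}

lemma hfun_nonneg (φ : Rn n → ℝ) (δ : ℝ) (x : Rn n) : 0 ≤ hfun U φ δ x := by
  refine indicator_nonneg (fun y _ => ?_) x
  exact mul_nonneg (tau_nonneg _) (tau_nonneg _)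

lemma hfun_isC1c (hU : ContDiffOn ℝ 1 U (Metric.ball 0 1))
    (hzero : ∀ x ∈ Metric.ball (0 : Rn n) 1, sgm x = 0 → U x = 0) {φ : Rn n → ℝ}
    (hφ : IsC1c (Metric.ball 0 1) φ) {δ : ℝ} (hδ : 0 < δ) : IsC1c (DD n) (hfun U φ δ) := by
  have hfc : ContinuousOn (fun x => U x - bv x) (Metric.ball 0 1) :=
    hU.continuousOn.sub contDiff_bv.continuous.continuousOn
  -- the compact set containing the support
  set K : Set (Rn n) := (tsupport φ ∩ (fun x => U x - bv x) ⁻¹' (Iic (-δ))) ∩ {x | 0 ≤ sgm x}
    with hK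
  have hKc : IsCompact K := by
    have h1 : IsClosed (tsupport φ ∩ (fun x => U x - bv x) ⁻¹' (Iic (-δ))) :=
      (hfc.mono hφ.2.2).preimage_isClosed_of_isClosed (isClosed_tsupport φ) isClosed_Iic
    have h2 : IsClosed K := h1.inter (isClosed_le continuous_const continuous_sgm)
    exact hφ.2.1.of_isClosed_subset h2 (fun x hx => hx.1.1)
  have hKD : K ⊆ DD n := by
    rintro x ⟨⟨h1, h2⟩, h3⟩
    have hxB := hφ.2.2 h1
    refine ⟨hxB, lt_of_le_of_ne h3 fun h0 => ?_⟩
    have h4 := hzero x hxB h0.symm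
    have h5 : bv x = 0 := by rw [bv, ← h0, zero_mul]
    have h6 : U x - bv x ≤ -δ := h2
    rw [h4, h5] at h6
    linarith
  have hout : ∀ x, x ∉ K → hfun U φ δ x = 0 := by
    intro x hx
    by_cases hxD : x ∈ DD n
    · rw [hfun, indicator_of_mem hxD]
      by_contra hne
      rw [mul_eq_zero, not_or] at hne
      refine hx ⟨⟨?_, ?_⟩, hxD.2.le⟩
      · by_contra hc
        refine hne.2 ?_
        rw [image_eq_zero_of_notMem_tsupport hc]
        exact tau_of_nonpos (by linarith)
      · by_contra hc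
        have : -δ < U x - bv x := not_le.1 hc
        exact hne.1 (tau_of_nonpos (by linarith))
    · rw [hfun, indicator_of_notMem hxD]
  have hsupp : tsupport (hfun U φ δ) ⊆ K := closure_minimal
    (fun x hx => by by_contra hxK; exact hx (hout x hxK)) hKc.isClosed
  refine ⟨contDiff_iff_contDiffAt.2 fun x => ?_, HasCompactSupport.intro hKc hout,
    hsupp.trans hKD⟩
  by_cases hxs : x ∈ K
  swap
  · have hev0 : hfun U φ δ =ᶠ[𝓝 x] fun _ => 0 := by
      filter_upwards [hKc.isClosed.isOpen_compl.mem_nhds hxs] with y hy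
      exact hout y hy
    exact contDiffAt_const.congr_of_eventuallyEq hev0
  have hxD := hKD hxs
  have hev : hfun U φ δ =ᶠ[𝓝 x] fun x => tau (-δ - (U x - bv x)) * tau (-δ - φ x) := by
    filter_upwards [isOpen_DD.mem_nhds hxD] with y hy
    rw [hfun, indicator_of_mem hy]
  refine ContDiffAt.congr_of_eventuallyEq ?_ hev
  have hUx : ContDiffAt ℝ 1 U x := hU.contDiffAt (Metric.isOpen_ball.mem_nhds hxD.1)
  exact (contDiff_tau.contDiffAt.comp x (contDiffAt_const.sub
    (hUx.sub contDiff_bv.contDiffAt))).mul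
    (contDiff_tau.contDiffAt.comp x (contDiffAt_const.sub hφ.1.contDiffAt))

lemma gradient_tau_comp {f : Rn n → ℝ} {x : Rn n} (δ : ℝ) (hf : DifferentiableAt ℝ f x) :
    gradient (fun y => tau (-δ - f y)) x = -(tau' (-δ - f x)) • gradient f x := by
  have h1 : HasDerivAt (fun t : ℝ => tau (-δ - t)) (-(tau' (-δ - f x))) (f x) := by
    have := (hasDerivAt_tau (-δ - f x)).comp (f x) ((hasDerivAt_id (f x)).const_sub (-δ))
    rw [mul_neg, mul_one] at this
    exact this
  exact gradient_comp_real h1 hf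

lemma gradient_hfun (hU : ContDiffOn ℝ 1 U (Metric.ball 0 1)) {φ : Rn n → ℝ}
    (hφ : IsC1c (Metric.ball 0 1) φ) {δ : ℝ} {x : Rn n} (hx : x ∈ DD n) :
    gradient (hfun U φ δ) x =
      -((tau' (-δ - (U x - bv x)) * tau (-δ - φ x)) • (gradient U x - gradient bv x) +
        (tau (-δ - (U x - bv x)) * tau' (-δ - φ x)) • gradient φ x) := by
  have hev : hfun U φ δ =ᶠ[𝓝 x] fun x => tau (-δ - (U x - bv x)) * tau (-δ - φ x) := by
    filter_upwards [isOpen_DD.mem_nhds hx] with y hy
    rw [hfun, indicator_of_mem hy]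
  have dU : DifferentiableAt ℝ U x :=
    (hU.contDiffAt (Metric.isOpen_ball.mem_nhds hx.1)).differentiableAt one_ne_zero
  have db : DifferentiableAt ℝ bv x := contDiff_bv.differentiable one_ne_zero x
  have df : DifferentiableAt ℝ (fun x => U x - bv x) x := dU.sub db
  have dφ : DifferentiableAt ℝ φ x := hφ.1.differentiable one_ne_zero x
  have d1 : DifferentiableAt ℝ (fun x => tau (-δ - (U x - bv x))) x :=
    (hasDerivAt_tau _).differentiableAt.comp x (df.const_sub (-δ))
  have d2 : DifferentiableAt ℝ (fun x => tau (-δ - φ x)) x :=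
    (hasDerivAt_tau _).differentiableAt.comp x (dφ.const_sub (-δ))
  rw [gradient, hev.fderiv_eq]
  change gradient (fun x => tau (-δ - (U x - bv x)) * tau (-δ - φ x)) x = _
  rw [gradient_mul' d1 d2, gradient_tau_comp δ df, gradient_tau_comp δ dφ, gradient_sub' dU db]
  module

/-- Comparison principle: `v ≤ U` on `{σ > 0}`. -/
theorem MinData.compare (M : MinData n p) (hn : 8 ≤ n) (hp1 : 1 < p) (hp2 : p < 2)
    (hU : ContDiffOn ℝ 1 U (Metric.ball 0 1)) (hUw : ∀ᵐ x ∂(muB n), U x = bv x + M.w x)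
    (hzero : ∀ x ∈ Metric.ball (0 : Rn n) 1, sgm x = 0 → U x = 0) :
    ∀ x ∈ DD n, bv x ≤ U x := by
  have hB : IsOpen (Metric.ball (0 : Rn n) 1) := Metric.isOpen_ball
  have hpq := holderConj hp1
  have hUc := hU.continuousOn
  have hgUc : ContinuousOn (gradient U) (Metric.ball 0 1) :=
    (InnerProductSpace.toDual ℝ (Rn n)).symm.continuous.comp_continuousOn
      (hU.continuousOn_fderiv_of_isOpen hB le_rfl)
  have hfc : ContinuousOn (fun x => U x - bv x) (Metric.ball 0 1) :=
    hUc.sub contDiff_bv.continuous.continuousOn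
  have hgbc : Continuous (gradient (bv : Rn n → ℝ)) := continuous_gradient contDiff_bv
  have hG := M.grad_eq hp1 hU hUw
  have hgU : MemLp (gradient U) (ENNReal.ofReal p) (muB n) := M.hG.ae_eq hG
  have hgb : MemLp (gradient (bv : Rn n → ℝ)) (ENNReal.ofReal p) (muB n) :=
    memLp_of_continuous hgbc _
  set A : Rn n → Rn n := fun x => pmap p (gradient U x) - pmap p (gradient bv x) with hAdef
  have hA : MemLp A (ENNReal.ofReal (p / (p - 1))) (muB n) :=
    (memLp_pmap hp1 hgU).sub (memLp_pmap hp1 hgb)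
  set X : Rn n → Rn n := fun x => gradient U x - gradient bv x with hXdef
  have hX : MemLp X (ENNReal.ofReal p) (muB n) := hgU.sub hgb
  have hgφ : ∀ j, MemLp (gradient (M.φ j)) (ENNReal.ofReal p) (muB n) := fun j =>
    memLp_of_continuous (continuous_gradient (M.hφ j).1) _
  have hφX : Tendsto (fun j => eLpNorm (fun x => gradient (M.φ j) x - X x)
      (ENNReal.ofReal p) (muB n)) atTop (𝓝 0) := by
    refine M.tG.congr fun j => eLpNorm_congr_ae ?_
    filter_upwards [hG] with x hx
    rw [hXdef]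
    simp only
    rw [hx]
    abel
  have hφf : ∀ᵐ x ∂(muB n), Tendsto (fun j => M.φ j x) atTop (𝓝 (U x - bv x)) := by
    filter_upwards [M.hae, hUw] with x h1 h2
    have : U x - bv x = M.w x := by rw [h2]; ring
    rwa [this]
  suffices hmain : ∀ δ : ℝ, 0 < δ → ∀ x ∈ DD n, -δ ≤ U x - bv x by
    intro x hx
    have : 0 ≤ U x - bv x := by
      refine le_of_forall_pos_lt_add fun δ hδ => ?_
      have := hmain (δ / 2) (by positivity) x hx
      linarith
    linarith
  intro δ hδ
  -- the weights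
  set c1 : ℕ → Rn n → ℝ := fun j => (DD n).indicator fun x =>
    tau' (-δ - (U x - bv x)) * tau (-δ - M.φ j x) with hc1
  set c2 : ℕ → Rn n → ℝ := fun j => (DD n).indicator fun x =>
    tau (-δ - (U x - bv x)) * tau' (-δ - M.φ j x) with hc2
  set d : Rn n → ℝ := (DD n).indicator fun x =>
    tau' (-δ - (U x - bv x)) * tau (-δ - (U x - bv x)) with hd
  have hfm : AEStronglyMeasurable (fun x => U x - bv x) (muB n) :=
    hfc.aestronglyMeasurable measurableSet_ball
  have hφm : ∀ j, AEStronglyMeasurable (M.φ j) (muB n) := fun j =>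
    (M.hφ j).1.continuous.aestronglyMeasurable
  have hDm : MeasurableSet (DD n) := isOpen_DD.measurableSet
  have hm1 : ∀ j, AEStronglyMeasurable (c1 j) (muB n) := fun j =>
    ((continuous_tau'.comp_aestronglyMeasurable (aestronglyMeasurable_const.sub hfm)).mul
      (continuous_tau.comp_aestronglyMeasurable (aestronglyMeasurable_const.sub (hφm j)))).indicator hDm
  have hm2 : ∀ j, AEStronglyMeasurable (c2 j) (muB n) := fun j =>
    ((continuous_tau.comp_aestronglyMeasurable (aestronglyMeasurable_const.sub hfm)).mul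
      (continuous_tau'.comp_aestronglyMeasurable (aestronglyMeasurable_const.sub (hφm j)))).indicator hDm
  have hb1 : ∀ j x, |c1 j x| ≤ 2 := by
    intro j x
    by_cases hx : x ∈ DD n
    · rw [hc1]; simp only
      rw [indicator_of_mem hx, abs_mul, abs_of_nonneg (tau'_nonneg _), abs_of_nonneg (tau_nonneg _)]
      have h1 := tau'_le_two (-δ - (U x - bv x))
      have h2 := tau_le_one (-δ - M.φ j x)
      have h3 := tau'_nonneg (-δ - (U x - bv x))
      have h4 := tau_nonneg (-δ - M.φ j x)
      nlinarith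
    · rw [hc1]; simp only
      rw [indicator_of_notMem hx]; norm_num
  have hb2 : ∀ j x, |c2 j x| ≤ 2 := by
    intro j x
    by_cases hx : x ∈ DD n
    · rw [hc2]; simp only
      rw [indicator_of_mem hx, abs_mul, abs_of_nonneg (tau_nonneg _), abs_of_nonneg (tau'_nonneg _)]
      have h1 := tau'_le_two (-δ - M.φ j x)
      have h2 := tau_le_one (-δ - (U x - bv x))
      have h3 := tau'_nonneg (-δ - M.φ j x)
      have h4 := tau_nonneg (-δ - (U x - bv x))
      nlinarith
    · rw [hc2]; simp only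
      rw [indicator_of_notMem hx]; norm_num
  have ht1 : ∀ᵐ x ∂(muB n), Tendsto (fun j => c1 j x) atTop (𝓝 (d x)) := by
    filter_upwards [hφf] with x hx
    by_cases hxD : x ∈ DD n
    · simp only [hc1, hd, indicator_of_mem hxD]
      exact (tendsto_const_nhds).mul ((continuous_tau.tendsto _).comp (hx.const_sub (-δ)))
    · simp only [hc1, hd, indicator_of_notMem hxD]
      exact tendsto_const_nhds
  have ht2 : ∀ᵐ x ∂(muB n), Tendsto (fun j => c2 j x) atTop (𝓝 (d x)) := by
    filter_upwards [hφf] with x hx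
    by_cases hxD : x ∈ DD n
    · simp only [hc2, hd, indicator_of_mem hxD]
      rw [mul_comm (tau' _)]
      exact (tendsto_const_nhds).mul ((continuous_tau'.tendsto _).comp (hx.const_sub (-δ)))
    · simp only [hc2, hd, indicator_of_notMem hxD]
      exact tendsto_const_nhds
  have L1 := tendsto_integral_weight hpq (f := fun _ => X) (fun _ => hX) hX hA
    (by simp) hm1 hb1 ht1
  have L2 := tendsto_integral_weight hpq (f := fun j => gradient (M.φ j)) hgφ hX hA
    hφX hm2 hb2 ht2
  -- the inequality for the approximations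
  have hineq : ∀ j, ∫ x, c1 j x * ⟪A x, X x⟫ ∂(muB n) +
      ∫ x, c2 j x * ⟪A x, gradient (M.φ j) x⟫ ∂(muB n) ≤ 0 := by
    intro j
    have hh := hfun_isC1c hU hzero (M.hφ j) hδ
    have e1 := M.el _ (hh.mono DD_subset)
    have e1' : ∫ x, ⟪pmap p (gradient U x), gradient (hfun U (M.φ j) δ) x⟫ ∂(muB n) = 0 := by
      rw [← e1]
      refine integral_congr_ae ?_
      filter_upwards [hG] with x hx
      rw [hx]
    have e2 : ∫ x, ⟪pmap p (gradient bv x), gradient (hfun U (M.φ j) δ) x⟫ ∂(muB n) ≤ 0 := by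
      rw [integral_muB_eq, gradient_bv]
      · exact bv_subsolution hn hp1 (hh.mono fun x hx => hx.2) (hfun_nonneg _ _)
      · intro x hx
        rw [gradient_eq_zero_of_notMem fun h => hx (DD_subset (hh.2.2 h)), inner_zero_right]
    have hgh : MemLp (gradient (hfun U (M.φ j) δ)) (ENNReal.ofReal p) (muB n) :=
      memLp_of_continuous (continuous_gradient hh.1) _
    have i1 := integrable_inner hpq (memLp_pmap hp1 hgU) hgh
    have i2 := integrable_inner hpq (memLp_pmap hp1 hgb) hgh
    have e3 : 0 ≤ ∫ x, ⟪A x, gradient (hfun U (M.φ j) δ) x⟫ ∂(muB n) := by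
      have : ∫ x, ⟪A x, gradient (hfun U (M.φ j) δ) x⟫ ∂(muB n) =
          (∫ x, ⟪pmap p (gradient U x), gradient (hfun U (M.φ j) δ) x⟫ ∂(muB n)) -
          ∫ x, ⟪pmap p (gradient bv x), gradient (hfun U (M.φ j) δ) x⟫ ∂(muB n) := by
        rw [← integral_sub i1 i2]
        congr 1
        ext1 x
        rw [hAdef]
        simp only
        rw [inner_sub_left]
      rw [this]; linarith
    have i3 : Integrable (fun x => c1 j x * ⟪A x, X x⟫) (muB n) :=
      (integrable_inner hpq hA hX).bdd_mul (hm1 j) (Eventually.of_forall (hb1 j))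
    have i4 : Integrable (fun x => c2 j x * ⟪A x, gradient (M.φ j) x⟫) (muB n) :=
      (integrable_inner hpq hA (hgφ j)).bdd_mul (hm2 j) (Eventually.of_forall (hb2 j))
    have e4 : ∫ x, ⟪A x, gradient (hfun U (M.φ j) δ) x⟫ ∂(muB n) =
        -(∫ x, c1 j x * ⟪A x, X x⟫ ∂(muB n) +
          ∫ x, c2 j x * ⟪A x, gradient (M.φ j) x⟫ ∂(muB n)) := by
      rw [← integral_add i3 i4, ← integral_neg]
      congr 1
      ext1 x
      by_cases hx : x ∈ DD n
      · rw [gradient_hfun hU (M.hφ j) hx, inner_neg_right, inner_add_right,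
          real_inner_smul_right, real_inner_smul_right]
        simp only [hc1, hc2, indicator_of_mem hx]
        rfl
      · rw [gradient_eq_zero_of_notMem fun h => hx (hh.2.2 h), inner_zero_right]
        simp only [hc1, hc2, indicator_of_notMem hx]
        ring
    linarith
  have hlim : (∫ x, d x * ⟪A x, X x⟫ ∂(muB n)) + ∫ x, d x * ⟪A x, X x⟫ ∂(muB n) ≤ 0 :=
    le_of_tendsto' (L1.add L2) hineq
  have hmono : ∀ x, 0 ≤ ⟪A x, X x⟫ := fun x => pmap_monotone hp1 _ _
  have hd0 : ∀ x, 0 ≤ d x := fun x => by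
    refine indicator_nonneg (fun y _ => mul_nonneg (tau'_nonneg _) (tau_nonneg _)) x
  have hdX0 : ∀ x, 0 ≤ d x * ⟪A x, X x⟫ := fun x => mul_nonneg (hd0 x) (hmono x)
  have hint0 : ∫ x, d x * ⟪A x, X x⟫ ∂(muB n) = 0 := by
    have : 0 ≤ ∫ x, d x * ⟪A x, X x⟫ ∂(muB n) := integral_nonneg hdX0
    linarith
  have hdm : AEStronglyMeasurable d (muB n) :=
    ((continuous_tau'.comp_aestronglyMeasurable (aestronglyMeasurable_const.sub hfm)).mul
      (continuous_tau.comp_aestronglyMeasurable (aestronglyMeasurable_const.sub hfm))).indicator hDm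
  have hdb : ∀ x, ‖d x‖ ≤ 2 := by
    intro x
    by_cases hx : x ∈ DD n
    · rw [hd, indicator_of_mem hx, norm_mul, Real.norm_of_nonneg (tau'_nonneg _),
        Real.norm_of_nonneg (tau_nonneg _)]
      have h1 := tau'_le_two (-δ - (U x - bv x))
      have h2 := tau_le_one (-δ - (U x - bv x))
      have h3 := tau'_nonneg (-δ - (U x - bv x))
      have h4 := tau_nonneg (-δ - (U x - bv x))
      nlinarith
    · rw [hd, indicator_of_notMem hx]; norm_num
  have hdi : Integrable (fun x => d x * ⟪A x, X x⟫) (muB n) :=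
    (integrable_inner hpq hA hX).bdd_mul hdm (Eventually.of_forall hdb)
  have hae0 : ∀ᵐ x ∂(muB n), d x * ⟪A x, X x⟫ = 0 := by
    have := (integral_eq_zero_iff_of_nonneg hdX0 hdi).1 hint0
    exact this
  -- everywhere on `DD`
  have hev : ∀ x ∈ DD n, tau' (-δ - (U x - bv x)) * tau (-δ - (U x - bv x)) * ⟪A x, X x⟫ = 0 := by
    have hAc : ContinuousOn A (Metric.ball 0 1) :=
      ((continuous_pmap hp1).comp_continuousOn hgUc).sub
        ((continuous_pmap hp1).comp hgbc).continuousOn
    have hXc : ContinuousOn X (Metric.ball 0 1) := hgUc.sub hgbc.continuousOn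
    have hcont : ContinuousOn (fun x => tau' (-δ - (U x - bv x)) * tau (-δ - (U x - bv x)) *
        ⟪A x, X x⟫) (DD n) := by
      refine ContinuousOn.mono ?_ DD_subset
      exact ((continuous_tau'.comp_continuousOn (continuousOn_const.sub hfc)).mul
        (continuous_tau.comp_continuousOn (continuousOn_const.sub hfc))).mul (hAc.inner hXc)
    have hae1 : (fun x => tau' (-δ - (U x - bv x)) * tau (-δ - (U x - bv x)) *
        ⟪A x, X x⟫) =ᵐ[volume.restrict (DD n)] fun _ => 0 := by
      have h1 : ∀ᵐ x ∂(volume.restrict (DD n)), d x * ⟪A x, X x⟫ = 0 :=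
        ae_mono (Measure.restrict_mono DD_subset le_rfl) hae0
      have h2 : ∀ᵐ x ∂(volume.restrict (DD n)), x ∈ DD n := ae_restrict_mem hDm
      filter_upwards [h1, h2] with x h3 h4
      rw [hd, indicator_of_mem h4] at h3
      exact h3
    exact Measure.eqOn_open_of_ae_eq hae1 isOpen_DD hcont continuousOn_const
  -- the gradient vanishes where `U - v < -δ`
  have hgrad0 : ∀ x ∈ DD n, U x - bv x < -δ → gradient U x - gradient bv x = 0 := by
    intro x hx hlt
    have h1 := hev x hx
    have h2 : 0 < -δ - (U x - bv x) := by linarith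
    have h3 := tau_pos h2
    have h4 := tau'_pos h2
    have h5 : ⟪A x, X x⟫ = 0 := by
      rcases mul_eq_zero.1 h1 with h | h
      · exact absurd h (by positivity)
      · exact h
    exact sub_eq_zero.2 (pmap_strict hp1 hp2 h5.le)
  -- the function `Θ`
  set Θ : Rn n → ℝ := (DD n).indicator fun x => tau (-δ - (U x - bv x)) with hΘ
  have hΘ' : ∀ x ∈ Metric.ball (0 : Rn n) 1, HasFDerivAt Θ (0 : Rn n →L[ℝ] ℝ) x := by
    intro x hx
    by_cases hxD : x ∈ DD n
    · have hevΘ : Θ =ᶠ[𝓝 x] fun x => tau (-δ - (U x - bv x)) := by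
        filter_upwards [isOpen_DD.mem_nhds hxD] with y hy
        rw [hΘ, indicator_of_mem hy]
      have dU : DifferentiableAt ℝ U x :=
        (hU.contDiffAt (hB.mem_nhds hx)).differentiableAt one_ne_zero
      have db : DifferentiableAt ℝ bv x := contDiff_bv.differentiable one_ne_zero x
      have df : DifferentiableAt ℝ (fun x => U x - bv x) x := dU.sub db
      have d1 : DifferentiableAt ℝ (fun x => tau (-δ - (U x - bv x))) x :=
        (hasDerivAt_tau _).differentiableAt.comp x (df.const_sub (-δ))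
      have hg : gradient (fun x => tau (-δ - (U x - bv x))) x = 0 := by
        rw [gradient_tau_comp δ df, gradient_sub' dU db]
        by_cases hlt : U x - bv x < -δ
        · rw [hgrad0 x hxD hlt, smul_zero]
        · rw [tau'_of_nonpos (by linarith), neg_zero, zero_smul]
      have h2 := d1.hasGradientAt.hasFDerivAt
      rw [hg, map_zero] at h2
      exact h2.congr_of_eventuallyEq hevΘ
    · have hs : sgm x ≤ 0 := by
        by_contra h
        exact hxD ⟨hx, not_le.1 h⟩
      have hevΘ : Θ =ᶠ[𝓝 x] fun _ => 0 := by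
        rcases hs.lt_or_eq with h | h
        · have : {y : Rn n | sgm y < 0} ∈ 𝓝 x :=
            (isOpen_lt continuous_sgm continuous_const).mem_nhds h
          filter_upwards [this] with y hy
          rw [hΘ, indicator_of_notMem]
          intro hyD
          exact absurd hyD.2 (not_lt.2 (le_of_lt hy))
        · have hf0 : U x - bv x = 0 := by
            rw [hzero x hx h, bv, h, zero_mul, sub_zero]
          have hca : ContinuousAt (fun x => U x - bv x) x := hfc.continuousAt (hB.mem_nhds hx)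
          have h3 : ∀ᶠ y in 𝓝 x, -δ < U y - bv y := by
            refine hca.eventually (lt_mem_nhds ?_)
            change -δ < U x - bv x
            rw [hf0]; linarith
          filter_upwards [h3] with y hy
          by_cases hyD : y ∈ DD n
          · rw [hΘ, indicator_of_mem hyD, tau_of_nonpos (by linarith)]
          · rw [hΘ, indicator_of_notMem hyD]
      exact (hasFDerivAt_const (0 : ℝ) x).congr_of_eventuallyEq hevΘ
  have hconst : ∀ x ∈ Metric.ball (0 : Rn n) 1, Θ x = Θ 0 := by
    intro x hx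
    refine (convex_ball (0 : Rn n) 1).is_const_of_fderivWithin_eq_zero (𝕜 := ℝ)
      (fun y hy => (hΘ' y hy).differentiableAt.differentiableWithinAt) (fun y hy => ?_) hx
      (by simp)
    rw [fderivWithin_of_isOpen hB hy]
    exact (hΘ' y hy).fderiv
  intro x hx
  by_contra hlt
  push Not at hlt
  have h1 := hconst x hx.1
  have h2 : Θ 0 = 0 := by
    rw [hΘ, indicator_of_notMem]
    intro h
    have h3 := h.2
    simp [sgm] at h3
  rw [h2, hΘ, indicator_of_mem hx] at h1
  exact absurd h1 (tau_pos (by linarith)).ne'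

end Pool.Agent.Lib.MP_c081e6_an
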