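import Mathlib
import Pool.Agent.Lib.MP_c081e6_an.Regular

/-!
# Symmetries of the barrier
-/

set_option autoImplicit false

open MeasureTheory Set Filter
open scoped ENNReal NNReal Topology RealInnerProductSpace

namespace Pool.Agent.Lib.MP_c081e6_an

variable {n : ℕ} {p : ℝ}

lemma bv_comm (T : Rn n ≃ₗᵢ[ℝ] Rn n) {ε : ℝ} (hε : ε ^ 2 = 1)
    (h : ∀ x, SL n (T x) = ε • T (SL n x)) (x : Rn n) : bv (T x) = ε * bv x := by
  have h1 : sgm (T x) = ε * sgm x := by
    rw [sgm, sgm, h, real_inner_smul_left, T.inner_map_map]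
  have habs : |ε| = 1 := by
    rw [← sq_eq_sq₀ (abs_nonneg _) zero_le_one, sq_abs, hε]; norm_num
  have h2 : ‖SL n (T x)‖ = ‖SL n x‖ := by
    rw [h, norm_smul, Real.norm_eq_abs, habs, one_mul, T.norm_map]
  rw [bv, bv, h1, h2, mul_assoc]

/-- The swap of the first two blocks of four coordinates. -/
def swIdx (hn : 8 ≤ n) (i : Fin n) : Fin n :=
  ⟨if (i : ℕ) < 4 then i + 4 else if (i : ℕ) < 8 then i - 4 else i, by
    have := i.2
    split_ifs <;> omega⟩

lemma swIdx_invol (hn : 8 ≤ n) : Function.Involutive (swIdx hn) := by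
  intro i
  apply Fin.ext
  simp only [swIdx]
  split_ifs <;> omega

lemma sg_swIdx (hn : 8 ≤ n) (i : Fin n) : sg (swIdx hn i) = -sg i := by
  simp only [swIdx, sg]
  split_ifs <;> first | omega | norm_num

/-- The swap as a linear isometry. -/
noncomputable def swT (hn : 8 ≤ n) : Rn n ≃ₗᵢ[ℝ] Rn n :=
  LinearIsometryEquiv.piLpCongrLeft 2 ℝ ℝ (swIdx_invol hn).toPerm

lemma swT_apply (hn : 8 ≤ n) (x : Rn n) (i : Fin n) : (swT hn x) i = x (swIdx hn i) := rfl

lemma swT_swT (hn : 8 ≤ n) (x : Rn n) : swT hn (swT hn x) = x := by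
  ext i
  rw [swT_apply, swT_apply, swIdx_invol hn]

lemma SL_swT (hn : 8 ≤ n) (x : Rn n) : SL n (swT hn x) = (-1 : ℝ) • swT hn (SL n x) := by
  ext i
  rw [SL_apply, swT_apply]
  simp only [PiLp.smul_apply, swT_apply, SL_apply, sg_swIdx, smul_eq_mul]
  ring

lemma swT_rest (hn : 8 ≤ n) (x : Rn n) : swT hn (x - SL n (SL n x)) = x - SL n (SL n x) := by
  ext i
  rw [swT_apply]
  simp only [PiLp.sub_apply, SL_apply]
  by_cases h : (i : ℕ) < 8
  · have h1 : sg i * sg i = 1 := by
      unfold sg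
      by_cases h4 : (i : ℕ) < 4
      · rw [if_pos h4]; norm_num
      · rw [if_neg h4, if_pos h]; norm_num
    have h2 : sg (swIdx hn i) * sg (swIdx hn i) = 1 := by rw [sg_swIdx]; linarith
    rw [← mul_assoc, h2, ← mul_assoc, h1]
    ring
  · have h1 : swIdx hn i = i := by
      apply Fin.ext
      simp only [swIdx]
      rw [if_neg (by omega), if_neg h]
    rw [h1]

/-- Reflections along eigenvectors of `S`. -/
lemma SL_refl {c : Rn n} (hc : SL n c = c) (x : Rn n) :
    SL n ((Submodule.span ℝ {c})ᗮ.reflection x) =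
      (1 : ℝ) • (Submodule.span ℝ {c})ᗮ.reflection (SL n x) := by
  rw [one_smul, Submodule.reflection_orthogonal_apply, Submodule.reflection_orthogonal_apply,
    Submodule.reflection_singleton_apply, Submodule.reflection_singleton_apply]
  have h1 : ⟪c, SL n x⟫ = ⟪c, x⟫ := by rw [← SL_symm, hc]
  rw [h1]
  simp only [map_neg, map_sub, map_smul, map_nsmul, hc]

variable {U : Rn n → ℝ}

/-- The regular representative vanishes on the cone. -/
lemma MinData.zero_on_cone (M : MinData n p) (hn : 8 ≤ n)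
    (hU : ContinuousOn U (Metric.ball 0 1)) (hUw : ∀ᵐ x ∂(muB n), U x = bv x + M.w x) :
    ∀ x ∈ Metric.ball (0 : Rn n) 1, sgm x = 0 → U x = 0 := by
  intro x hx hs
  have hswap : ∀ y ∈ Metric.ball (0 : Rn n) 1, U (swT hn y) = -1 * U y :=
    M.sym_eq hU hUw (swT hn) (by norm_num) (bv_comm _ (by norm_num) (SL_swT hn))
  set a : Rn n := (1 / 2 : ℝ) • (SL n (SL n x) + SL n x) with ha
  set b : Rn n := (1 / 2 : ℝ) • (SL n (SL n x) - SL n x) with hb
  set z : Rn n := x - SL n (SL n x) with hz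
  have hxabz : x = a + b + z := by rw [ha, hb, hz]; module
  have hSa : SL n a = a := by
    rw [ha, map_smul, map_add, SL_cube, add_comm]
  have hSb : SL n b = -b := by
    rw [hb, map_smul, map_sub, SL_cube]; module
  have hSz : SL n z = 0 := by rw [hz, map_sub, SL_cube, sub_self]
  have hSb' : SL n (swT hn b) = swT hn b := by
    rw [SL_swT, hSb, map_neg]; module
  set c : Rn n := a - swT hn b with hc
  have hSc : SL n c = c := by rw [hc, map_sub, hSa, hSb']
  have hnorm : ‖a‖ = ‖swT hn b‖ := by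
    rw [LinearIsometryEquiv.norm_map]
    have h1 : ‖a‖ ^ 2 = ‖b‖ ^ 2 := by
      have h2 : ⟪SL n (SL n x), SL n x⟫ = 0 := by
        rw [real_inner_comm, inner_S_S2, hs]
      rw [ha, hb, norm_smul, norm_smul, mul_pow, mul_pow, norm_add_sq_real, norm_sub_sq_real, h2]
      ring
    exact (sq_eq_sq₀ (norm_nonneg _) (norm_nonneg _)).1 h1
  set R := (Submodule.span ℝ {c})ᗮ.reflection with hR
  have hRa : R a = swT hn b := Submodule.reflection_sub hnorm
  have hRv : ∀ v : Rn n, ⟪c, v⟫ = 0 → R v = v := by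
    intro v hv
    rw [hR]
    refine Submodule.reflection_mem_subspace_eq_self ?_
    rw [Submodule.mem_orthogonal_singleton_iff_inner_right]
    exact hv
  have hcb : ⟪c, b⟫ = 0 := by
    have h1 : ⟪c, b⟫ = -⟪c, b⟫ := by
      conv_lhs => rw [← hSc, SL_symm, hSb, inner_neg_right]
    linarith
  have hcz : ⟪c, z⟫ = 0 := by
    rw [← hSc, SL_symm, hSz, inner_zero_right]
  have hRx : R x = swT hn b + b + z := by
    conv_lhs => rw [hxabz]
    rw [map_add, map_add, hRa, hRv b hcb, hRv z hcz]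
  have hTRx : swT hn (R x) = R x := by
    rw [hRx, map_add, map_add, swT_swT, hz, swT_rest]
    abel
  have hRxB : R x ∈ Metric.ball (0 : Rn n) 1 := by
    rw [mem_ball_zero_iff, LinearIsometryEquiv.norm_map]
    exact mem_ball_zero_iff.1 hx
  have h1 := hswap (R x) hRxB
  rw [hTRx] at h1
  have h2 : U (R x) = 1 * U x :=
    M.sym_eq hU hUw R (by norm_num) (bv_comm _ (by norm_num) (SL_refl hSc)) x hx
  linarith

end Pool.Agent.Lib.MP_c081e6_an
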