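import Mathlib
import Pool.Agent.Lib.MP_c081e6_an.Compare
import Pool.Agent.Lib.MP_c081e6_an.Sym

/-!
# A `C³` solution would vanish to third order
-/

set_option autoImplicit false

open MeasureTheory Set Filter
open scoped ENNReal NNReal Topology RealInnerProductSpace

namespace Pool.Agent.Lib.MP_c081e6_an

variable {n : ℕ} {p : ℝ} {U : Rn n → ℝ}

lemma contDiffOn_gradient {k m : ℕ} (hkm : m + 1 ≤ k) (hU : ContDiffOn ℝ k U (Metric.ball 0 1)) :
    ContDiffOn ℝ m (gradient U) (Metric.ball 0 1) := by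
  have h1 : ContDiffOn ℝ m (fun x => fderiv ℝ U x) (Metric.ball 0 1) :=
    hU.fderiv_of_isOpen Metric.isOpen_ball (by exact_mod_cast hkm)
  exact (InnerProductSpace.toDual ℝ (Rn n)).symm.toContinuousLinearEquiv.contDiff.comp_contDiffOn
    h1

/-- The equation in nondivergence form. -/
lemma MinData.nondiv (M : MinData n p) (hp1 : 1 < p)
    (hU : ContDiffOn ℝ 3 U (Metric.ball 0 1)) (hUw : ∀ᵐ x ∂(muB n), U x = bv x + M.w x) :
    ∀ x ∈ Metric.ball (0 : Rn n) 1, ‖gradient U x‖ ^ 2 * dvg (gradient U) x +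
      (p - 2) * ⟪gradient U x, fderiv ℝ (gradient U) x (gradient U x)⟫ = 0 := by
  intro x hx
  by_cases hgx : gradient U x = 0
  · rw [hgx]; simp
  set g := gradient U with hg
  have hB : IsOpen (Metric.ball (0 : Rn n) 1) := Metric.isOpen_ball
  have hU1 : ContDiffOn ℝ 1 U (Metric.ball 0 1) := hU.of_le (by norm_num)
  have hg2 : ContDiffOn ℝ 2 g (Metric.ball 0 1) := contDiffOn_gradient (k := 3) (m := 2) le_rfl hU
  set W : Set (Rn n) := Metric.ball 0 1 ∩ g ⁻¹' {0}ᶜ with hW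
  have hWo : IsOpen W := hg2.continuousOn.isOpen_inter_preimage hB isOpen_compl_singleton
  have hxW : x ∈ W := ⟨hx, hgx⟩
  set a : Rn n → ℝ := fun y => (‖g y‖ ^ 2) ^ ((p - 2) / 2) with ha
  have hFa : ∀ y, pmap p (g y) = a y • g y := by
    intro y
    rw [pmap, ha]
    simp only
    congr 1
    rw [← Real.rpow_natCast, ← Real.rpow_mul (norm_nonneg _)]
    congr 1
    push_cast; ring
  have hgAt : ∀ y ∈ W, ContDiffAt ℝ 1 g y := fun y hy =>
    (hg2.contDiffAt (hB.mem_nhds hy.1)).of_le (by norm_num)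
  have haAt : ∀ y ∈ W, ContDiffAt ℝ 1 a y := fun y hy => by
    refine ContDiffAt.rpow_const_of_ne ((hgAt y hy).norm_sq ℝ) ?_
    have : ‖g y‖ ≠ 0 := norm_ne_zero_iff.2 hy.2
    positivity
  have hF : ContDiffOn ℝ 1 (fun y => pmap p (g y)) W := by
    intro y hy
    simp only [hFa]
    exact ((haAt y hy).smul (hgAt y hy)).contDiffWithinAt
  have hG := M.grad_eq hp1 hU1 hUw
  have hdiv : dvg (fun y => pmap p (g y)) x = 0 := by
    refine dvg_eq_zero_of_weak hWo hF (fun ψ hψ => ?_) x hxW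
    have hC : IsC1c (Metric.ball 0 1) ψ := hψ.isC1c.mono inter_subset_left
    rw [← M.el ψ hC, ← integral_muB_eq]
    · refine integral_congr_ae ?_
      filter_upwards [hG] with y hy
      rw [hy]
    · intro y hy
      rw [gradient_eq_zero_of_notMem fun h => hy (hC.2.2 h), inner_zero_right]
  have da : DifferentiableAt ℝ a x := (haAt x hxW).differentiableAt one_ne_zero
  have dg : DifferentiableAt ℝ g x := (hgAt x hxW).differentiableAt one_ne_zero
  simp only [hFa] at hdiv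
  rw [dvg_smul da dg] at hdiv
  have hn0 : ‖g x‖ ≠ 0 := norm_ne_zero_iff.2 hgx
  have hQ : 0 < ‖g x‖ ^ 2 := by positivity
  have hline : HasDerivAt (fun t : ℝ => g (x + t • g x)) (fderiv ℝ g x (g x)) 0 :=
    dg.hasFDerivAt.hasLineDerivAt (g x)
  have hline2 : HasDerivAt (fun t : ℝ => ‖g (x + t • g x)‖ ^ 2)
      (2 * ⟪g x, fderiv ℝ g x (g x)⟫) 0 := by
    have := hline.norm_sq
    simpa using this
  have hline3 := hline2.rpow_const (p := (p - 2) / 2) (Or.inl (by simpa using hQ.ne'))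
  have hfa := fderiv_apply_of_line da hline3
  rw [hfa] at hdiv
  simp only [zero_smul, add_zero] at hdiv
  have hQe : (‖g x‖ ^ 2) ^ ((p - 2) / 2) = (‖g x‖ ^ 2) ^ ((p - 2) / 2 - 1) * ‖g x‖ ^ 2 := by
    rw [← Real.rpow_add_one hQ.ne']; congr 1; ring
  rw [ha] at hdiv
  simp only at hdiv
  rw [hQe] at hdiv
  have hP : 0 < (‖g x‖ ^ 2) ^ ((p - 2) / 2 - 1) := Real.rpow_pos_of_pos hQ _
  have h3 : (‖g x‖ ^ 2) ^ ((p - 2) / 2 - 1) * (‖g x‖ ^ 2 * dvg g x +
      (p - 2) * ⟪g x, fderiv ℝ g x (g x)⟫) = 0 := by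
    rw [← hdiv]; ring
  exact (mul_eq_zero.1 h3).resolve_left hP.ne'

lemma tendsto_clm_apply {ι : Type*} {l : Filter ι} {A : ι → Rn n →L[ℝ] Rn n} {B : Rn n →L[ℝ] Rn n}
    {x : ι → Rn n} {y : Rn n} (hA : Tendsto A l (𝓝 B)) (hx : Tendsto x l (𝓝 y)) :
    Tendsto (fun i => A i (x i)) l (𝓝 (B y)) :=
  ((isBoundedBilinearMap_apply (𝕜 := ℝ) (E := Rn n) (F := Rn n)).continuous.tendsto
    (B, y)).comp (hA.prodMk_nhds hx)

/-- A symmetric `H` with `⟨Hy, H(Hy)⟩ = 0` for all `y` vanishes. -/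
lemma eq_zero_of_cubic {H : Rn n →L[ℝ] Rn n} (hs : ∀ y z, ⟪H y, z⟫ = ⟪y, H z⟫)
    (h : ∀ y, ⟪H y, H (H y)⟫ = 0) : H = 0 := by
  have h1 : ∀ y z, ⟪H (H (H y)), z⟫ = 0 := by
    intro y z
    have e := h (y + z)
    simp only [map_add, inner_add_left, inner_add_right, h y, h z] at e
    have e1 : ⟪H y, H (H z)⟫ = ⟪H (H (H y)), z⟫ := by rw [hs (H (H y)), hs (H y)]
    have e2 : ⟪H z, H (H y)⟫ = ⟪H (H (H y)), z⟫ := by rw [real_inner_comm, ← hs]
    rw [e1, e2] at e
    linarith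
  have h2 : ∀ y, H (H (H y)) = 0 := fun y => ext_inner_right ℝ fun z => by
    rw [h1 y z, inner_zero_left]
  have h3 : ∀ y, H (H y) = 0 := fun y => by
    have : ⟪H (H y), H (H y)⟫ = 0 := by
      rw [hs, h2, inner_zero_right]
    exact inner_self_eq_zero.1 this
  ext1 y
  have : ⟪H y, H y⟫ = 0 := by
    rw [hs, h3, inner_zero_right]
  exact inner_self_eq_zero.1 this

theorem MinData.contradiction (M : MinData n p) (hn : 8 ≤ n) (hp1 : 1 < p) (hp2 : p < 2)
    (hU : ContDiffOn ℝ 3 U (Metric.ball 0 1)) (hUw : ∀ᵐ x ∂(muB n), U x = bv x + M.w x) :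
    False := by
  have hB : IsOpen (Metric.ball (0 : Rn n) 1) := Metric.isOpen_ball
  have hU1 : ContDiffOn ℝ 1 U (Metric.ball 0 1) := hU.of_le (by norm_num)
  have h0B : (0 : Rn n) ∈ Metric.ball (0 : Rn n) 1 := by simp
  set g := gradient U with hg
  have hg2 : ContDiffOn ℝ 2 g (Metric.ball 0 1) := contDiffOn_gradient (k := 3) (m := 2) le_rfl hU
  have hgd : ∀ x ∈ Metric.ball (0 : Rn n) 1, DifferentiableAt ℝ g x := fun x hx =>
    (hg2.contDiffAt (hB.mem_nhds hx)).differentiableAt two_ne_zero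
  have hUd : ∀ x ∈ Metric.ball (0 : Rn n) 1, DifferentiableAt ℝ U x := fun x hx =>
    (hU1.contDiffAt (hB.mem_nhds hx)).differentiableAt one_ne_zero
  -- symmetry of the gradient
  have hgT : ∀ (T : Rn n ≃ₗᵢ[ℝ] Rn n) (ε : ℝ), (∀ x ∈ Metric.ball (0 : Rn n) 1,
      U (T x) = ε * U x) → ∀ x ∈ Metric.ball (0 : Rn n) 1, g (T x) = ε • T (g x) := by
    intro T ε hT x hx
    have h1 : gradient (fun y => U (T y)) x = T.symm (g (T x)) := gradient_comp_isometry T
    have h2 : (fun y => U (T y)) =ᶠ[𝓝 x] fun y => ε * U y := by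
      filter_upwards [hB.mem_nhds hx] with y hy using hT y hy
    have h3 : gradient (fun y => U (T y)) x = ε • g x := by
      rw [gradient, h2.fderiv_eq]
      exact gradient_const_mul' ε (hUd x hx)
    rw [h3] at h1
    rw [← map_smul, h1, T.apply_symm_apply]
  have hswap : ∀ y ∈ Metric.ball (0 : Rn n) 1, U (swT hn y) = (-1) * U y :=
    M.sym_eq hU1.continuousOn hUw (swT hn) (by norm_num) (bv_comm _ (by norm_num) (SL_swT hn))
  have heven : ∀ y ∈ Metric.ball (0 : Rn n) 1,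
      U (LinearIsometryEquiv.neg ℝ (E := Rn n) y) = 1 * U y := by
    refine M.sym_eq hU1.continuousOn hUw (LinearIsometryEquiv.neg ℝ) (by norm_num)
      (bv_comm _ (by norm_num) fun x => ?_)
    simp
  have hgneg : ∀ x ∈ Metric.ball (0 : Rn n) 1, g (-x) = -g x := by
    intro x hx
    have := hgT _ _ heven x hx
    simpa using this
  have hgsw := hgT _ _ hswap
  have hU0 : U 0 = 0 := by
    have := hswap 0 h0B
    rw [map_zero] at this
    linarith
  have hg0 : g 0 = 0 := by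
    have := hgneg 0 h0B
    rw [neg_zero] at this
    have h2 : (2 : ℝ) • g 0 = 0 := by rw [two_smul]; nth_rewrite 1 [this]; simp
    exact (smul_eq_zero.1 h2).resolve_left two_ne_zero
  -- the Hessian at the origin
  set H := fderiv ℝ g 0 with hH
  have hHd : HasFDerivAt g H 0 := (hgd 0 h0B).hasFDerivAt
  have hHsw : ∀ y, H (swT hn y) = -swT hn (H y) := by
    intro y
    have h1 : HasFDerivAt (fun x => g (swT hn x)) (H.comp (swT hn : Rn n →L[ℝ] Rn n)) 0 := by
      have : HasFDerivAt g H ((swT hn : Rn n →L[ℝ] Rn n) 0) := by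
        rw [map_zero]; exact hHd
      exact this.comp 0 (swT hn : Rn n →L[ℝ] Rn n).hasFDerivAt
    have h2 : HasFDerivAt (fun x => (-1 : ℝ) • swT hn (g x))
        ((-1 : ℝ) • (swT hn : Rn n →L[ℝ] Rn n).comp H) 0 := by
      have h2a : HasFDerivAt (fun x => swT hn (g x)) ((swT hn : Rn n →L[ℝ] Rn n).comp H) 0 :=
        (swT hn : Rn n →L[ℝ] Rn n).hasFDerivAt.comp 0 hHd
      exact h2a.const_smul (-1 : ℝ)
    have h3 : (fun x => g (swT hn x)) =ᶠ[𝓝 0] fun x => (-1 : ℝ) • swT hn (g x) := by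
      filter_upwards [hB.mem_nhds h0B] with x hx using hgsw x hx
    have h4 := h1.unique (h2.congr_of_eventuallyEq h3)
    have h5 := congrArg (fun L : Rn n →L[ℝ] Rn n => L y) h4
    simpa using h5
  have hHs : ∀ y z, ⟪H y, z⟫ = ⟪y, H z⟫ := by
    have hsym : IsSymmSndFDerivAt ℝ U 0 :=
      (hU.contDiffAt (hB.mem_nhds h0B)).isSymmSndFDerivAt (by simp; norm_num)
    have hfd : DifferentiableAt ℝ (fderiv ℝ U) 0 :=
      ((hU.contDiffAt (hB.mem_nhds h0B)).fderiv_right (m := 2) (by norm_num)).differentiableAt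
        two_ne_zero
    have key : ∀ y z, ⟪H y, z⟫ = fderiv ℝ (fderiv ℝ U) 0 y z := by
      intro y z
      have h1 := hHd.inner ℝ (hasFDerivAt_const z (0 : Rn n))
      have h2 := hfd.hasFDerivAt.clm_apply (hasFDerivAt_const z (0 : Rn n))
      have h3 : (fun x => ⟪g x, z⟫) = fun x => fderiv ℝ U x z := by
        ext x
        rw [hg, inner_gradient_left]
      rw [h3] at h1
      have h4 := congrArg (fun L : Rn n →L[ℝ] ℝ => L y) (h1.unique h2)
      simpa [fderivInnerCLM_apply] using h4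
    intro y z
    rw [key, hsym y z, ← key, real_inner_comm]
  have hlim : ∀ y, ‖H y‖ ^ 2 * dvg g 0 + (p - 2) * ⟪H y, H (H y)⟫ = 0 := by
    intro y
    have hline : HasDerivAt (fun t : ℝ => g (0 + t • y)) (H y) 0 := hHd.hasLineDerivAt y
    have hsl := hasDerivAt_iff_tendsto_slope_zero.1 hline
    simp only [zero_add, zero_smul, hg0, sub_zero] at hsl
    have hty : Tendsto (fun t : ℝ => t • y) (𝓝[≠] 0) (𝓝 0) := by
      have : Continuous (fun t : ℝ => t • y) := by fun_prop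
      have h := this.tendsto 0
      rw [zero_smul] at h
      exact h.mono_left nhdsWithin_le_nhds
    have hDc : ContinuousOn (fun x => fderiv ℝ g x) (Metric.ball 0 1) :=
      hg2.continuousOn_fderiv_of_isOpen hB (by norm_num)
    have hD0 : Tendsto (fun t : ℝ => fderiv ℝ g (t • y)) (𝓝[≠] 0) (𝓝 H) :=
      (hDc.continuousAt (hB.mem_nhds h0B)).tendsto.comp hty
    have hdv : Tendsto (fun t : ℝ => dvg g (t • y)) (𝓝[≠] 0) (𝓝 (dvg g 0)) := by
      unfold dvg
      refine tendsto_finsetSum _ fun i _ => ?_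
      exact tendsto_const_nhds.inner (tendsto_clm_apply hD0 tendsto_const_nhds)
    have hmain : Tendsto (fun t : ℝ => ‖t⁻¹ • g (t • y)‖ ^ 2 * dvg g (t • y) +
        (p - 2) * ⟪t⁻¹ • g (t • y), fderiv ℝ g (t • y) (t⁻¹ • g (t • y))⟫) (𝓝[≠] 0)
        (𝓝 (‖H y‖ ^ 2 * dvg g 0 + (p - 2) * ⟪H y, H (H y)⟫)) := by
      exact ((hsl.norm.pow 2).mul hdv).add ((hsl.inner (tendsto_clm_apply hD0 hsl)).const_mul (p - 2))
    have hzero : ∀ᶠ t : ℝ in 𝓝[≠] 0, ‖t⁻¹ • g (t • y)‖ ^ 2 * dvg g (t • y) +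
        (p - 2) * ⟪t⁻¹ • g (t • y), fderiv ℝ g (t • y) (t⁻¹ • g (t • y))⟫ = 0 := by
      filter_upwards [hty.eventually (hB.mem_nhds h0B)] with t ht
      have h1 := M.nondiv hp1 hU hUw (t • y) ht
      rw [← hg] at h1
      rw [map_smul, real_inner_smul_left, real_inner_smul_right, norm_smul, mul_pow,
        Real.norm_eq_abs, sq_abs]
      have : t⁻¹ ^ 2 * (‖g (t • y)‖ ^ 2 * dvg g (t • y) +
        (p - 2) * ⟪g (t • y), fderiv ℝ g (t • y) (g (t • y))⟫) = 0 := by rw [h1, mul_zero]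
      rw [← this]; ring
    exact tendsto_nhds_unique (hmain.congr' hzero) tendsto_const_nhds
  have hH0 : H = 0 := by
    refine eq_zero_of_cubic hHs fun y => ?_
    have h1 := hlim y
    have h2 := hlim (swT hn y)
    rw [hHsw, map_neg, hHsw, neg_neg, norm_neg, LinearIsometryEquiv.norm_map, inner_neg_left,
      LinearIsometryEquiv.inner_map_map] at h2
    have h3 : (p - 2) * ⟪H y, H (H y)⟫ = 0 := by linarith
    exact (mul_eq_zero.1 h3).resolve_left (by linarith)
  -- the derivative of `Dg` at the origin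
  have hDg : DifferentiableAt ℝ (fderiv ℝ g) 0 :=
    ((hg2.contDiffAt (hB.mem_nhds h0B)).fderiv_right (m := 1) (by norm_num)).differentiableAt
      one_ne_zero
  set L := fderiv ℝ (fderiv ℝ g) 0 with hL
  have hLd : HasFDerivAt (fderiv ℝ g) L 0 := hDg.hasFDerivAt
  have hDeven : ∀ x ∈ Metric.ball (0 : Rn n) 1, fderiv ℝ g (-x) = fderiv ℝ g x := by
    intro x hx
    have hx' : -x ∈ Metric.ball (0 : Rn n) 1 := by simpa using hx
    have h1 : HasFDerivAt (fun y => g (-y)) ((fderiv ℝ g (-x)).comp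
        (-(ContinuousLinearMap.id ℝ (Rn n)))) x :=
      (hgd _ hx').hasFDerivAt.comp x (hasFDerivAt_id x).neg
    have h2 : HasFDerivAt (fun y => -g y) (-(fderiv ℝ g x)) x := (hgd _ hx).hasFDerivAt.neg
    have h3 : (fun y => g (-y)) =ᶠ[𝓝 x] fun y => -g y := by
      filter_upwards [hB.mem_nhds hx] with y hy using hgneg y hy
    have h4 := h1.unique (h2.congr_of_eventuallyEq h3)
    ext1 y
    have h5 := congrArg (fun L : Rn n →L[ℝ] Rn n => L y) h4
    simpa using h5
  have hL0 : L = 0 := by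
    have h1 : HasFDerivAt (fun y => fderiv ℝ g (-y)) (L.comp
        (-(ContinuousLinearMap.id ℝ (Rn n)))) 0 := by
      have : HasFDerivAt (fderiv ℝ g) L (-(0 : Rn n)) := by rw [neg_zero]; exact hLd
      exact this.comp (0 : Rn n) (hasFDerivAt_id (0 : Rn n)).neg
    have h3 : (fun y => fderiv ℝ g (-y)) =ᶠ[𝓝 0] fun y => fderiv ℝ g y := by
      filter_upwards [hB.mem_nhds h0B] with y hy using hDeven y hy
    have h4 := h1.unique (hLd.congr_of_eventuallyEq h3)
    ext1 y
    have h5 := congrArg (fun L : Rn n →L[ℝ] (Rn n →L[ℝ] Rn n) => L y) h4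
    simp only [ContinuousLinearMap.comp_apply, neg_apply, ContinuousLinearMap.id_apply,
      map_neg] at h5
    have h7 : L y + L y = 0 := by nth_rewrite 1 [← h5]; exact neg_add_cancel _
    ext1 z
    have h9 : L y z + L y z = 0 := congrArg (fun A : Rn n →L[ℝ] Rn n => A z) h7
    have h10 : L y z = (1 / 2 : ℝ) • (L y z + L y z) := by module
    rw [h10, h9, smul_zero]
    rfl
  -- smallness
  have hsmall : ∀ᶠ x in 𝓝 (0 : Rn n), ‖fderiv ℝ g x‖ ≤ (1 / 2) * ‖x‖ := by
    have h1 := hLd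
    rw [hL0, hasFDerivAt_iff_isLittleO] at h1
    have h2 := h1.bound (show (0 : ℝ) < 1 / 2 by norm_num)
    filter_upwards [h2] with x hx
    have h3 : fderiv ℝ g 0 = 0 := hH0
    simpa [h3] using hx
  obtain ⟨r, hr, hrs⟩ := Metric.eventually_nhds_iff_ball.1 hsmall
  set s := min r 1 / 2 with hs
  have hs0 : 0 < s := by positivity
  have hsr : s < r := by
    have := min_le_left r 1; rw [hs]; linarith
  have hs1 : s < 1 := by
    have := min_le_right r 1; rw [hs]; linarith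
  have hgs : ∀ x ∈ Metric.closedBall (0 : Rn n) s, ‖g x‖ ≤ (1 / 2) * s * s := by
    intro x hx
    have hxs : ‖x‖ ≤ s := by simpa using hx
    have h1 := (convex_closedBall (0 : Rn n) s).norm_image_sub_le_of_norm_fderiv_le (𝕜 := ℝ)
      (f := g) (C := (1 / 2) * s) (x := 0) (y := x) (fun y hy => hgd y ?_) (fun y hy => ?_)
      (by simp [hs0.le]) hx
    · rw [hg0, sub_zero, sub_zero] at h1
      refine h1.trans ?_
      gcongr
    · have : ‖y‖ ≤ s := by simpa using hy
      rw [mem_ball_zero_iff]; linarith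
    · have hy' : ‖y‖ ≤ s := by simpa using hy
      have h2 := hrs y (by rw [mem_ball_zero_iff]; linarith)
      refine h2.trans ?_
      gcongr
  have hUs : ∀ x ∈ Metric.closedBall (0 : Rn n) s, |U x| ≤ (1 / 2) * s * s * s := by
    intro x hx
    have hxs : ‖x‖ ≤ s := by simpa using hx
    have h1 := (convex_closedBall (0 : Rn n) s).norm_image_sub_le_of_norm_fderiv_le (𝕜 := ℝ)
      (f := U) (C := (1 / 2) * s * s) (x := 0) (y := x) (fun y hy => hUd y ?_) (fun y hy => ?_)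
      (by simp [hs0.le]) hx
    · rw [hU0, sub_zero, sub_zero, Real.norm_eq_abs] at h1
      refine h1.trans ?_
      gcongr
    · have : ‖y‖ ≤ s := by simpa using hy
      rw [mem_ball_zero_iff]; linarith
    · rw [← norm_gradient]
      exact hgs y hy
  -- the point `s e₀`
  set e : Rn n := EuclideanSpace.single (⟨0, by omega⟩ : Fin n) (1 : ℝ) with he
  have hne : ‖e‖ = 1 := by rw [he]; simp
  have hSe : SL n e = e := by
    ext i
    rw [SL_apply, he]
    by_cases hi : i = ⟨0, by omega⟩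
    · subst hi; simp [sg]
    · simp [hi]
  set x : Rn n := s • e with hx
  have hnx : ‖x‖ = s := by rw [hx, norm_smul, hne, mul_one, Real.norm_of_nonneg hs0.le]
  have hSx : SL n x = x := by rw [hx, map_smul, hSe]
  have hsx : sgm x = s ^ 2 := by
    rw [sgm, hSx, real_inner_self_eq_norm_sq, hnx]
  have hbx : bv x = s ^ 3 := by rw [bv, hsx, hSx, hnx]; ring
  have hxD : x ∈ DD n := ⟨by rw [mem_ball_zero_iff, hnx]; exact hs1, by rw [hsx]; positivity⟩
  have h1 := M.compare hn hp1 hp2 hU1 hUw (M.zero_on_cone hn hU1.continuousOn hUw) x hxD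
  have h2 := hUs x (by rw [mem_closedBall_zero_iff, hnx])
  rw [hbx] at h1
  have h3 := le_abs_self (U x)
  have h4 : 0 < s ^ 3 := by positivity
  nlinarith

end Pool.Agent.Lib.MP_c081e6_an
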