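import Mathlib
import Pool.Agent.Lib.MP_c081e6_an.Blowup

/-!
# The degree of regularity is at most `3` in dimensions `n ≥ 8`
-/

set_option autoImplicit false

open MeasureTheory Set Filter
open scoped ENNReal NNReal Topology RealInnerProductSpace

namespace Pool.Agent.Lib.MP_c081e6_an

theorem gammaDeg_le_three {n : ℕ} (hn : 8 ≤ n) {p : ℝ} (hp1 : 1 < p) (hp2 : p < 2) :
    gammaDeg n p ≤ 3 := by
  refine sSup_le ?_
  rintro t ⟨s, hs0, rfl, hs⟩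
  by_contra hcon
  have hs3 : 3 < s := by
    by_contra h
    refine hcon ?_
    have h1 : s ≤ 3 := not_lt.1 h
    have h2 := ENNReal.ofReal_le_ofReal h1
    have h3 : ENNReal.ofReal 3 = 3 := by norm_num
    rwa [h3] at h2
  obtain ⟨M⟩ := exists_minData (n := n) (by omega) hp1 hp2
  obtain ⟨k, α, hα0, hα1, hsk, g, hug, hg, -⟩ :=
    hs (Metric.ball 0 1) Metric.isOpen_ball _ (M.isPHarmonic hp1)
  have hk : 3 ≤ k := by
    by_contra h
    have h1 : k ≤ 2 := by omega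
    have h2 : (k : ℝ) ≤ 2 := by exact_mod_cast h1
    linarith
  have hU : ContDiffOn ℝ 3 g (Metric.ball 0 1) := hg.of_le (by exact_mod_cast hk)
  refine M.contradiction hn hp1 hp2 hU ?_
  filter_upwards [hug] with x hx using hx.symm

/-- The main theorem: `γ(n,p) ≤ 3` for all `n ≥ 8`, `1 < p < 2`; in particular it is not true that
`γ(n,p) → ∞` as `p → 1⁺` for every `n ≥ 3`. -/
theorem main : (∀ n : ℕ, 8 ≤ n → ∀ p : ℝ, 1 < p → p < 2 → gammaDeg n p ≤ 3) ∧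
    ¬ (∀ n : ℕ, 3 ≤ n → Tendsto (gammaDeg n) (𝓝[>] 1) (𝓝 ⊤)) := by
  refine ⟨fun n hn p hp1 hp2 => gammaDeg_le_three hn hp1 hp2, fun h => ?_⟩
  have h8 := h 8 (by norm_num)
  have h1 : ∀ᶠ p in 𝓝[>] (1 : ℝ), (3 : ℝ≥0∞) < gammaDeg 8 p :=
    h8.eventually (lt_mem_nhds (by norm_num))
  have h2 : ∀ᶠ p in 𝓝[>] (1 : ℝ), p ∈ Ioo (1 : ℝ) 2 := Ioo_mem_nhdsGT (by norm_num)
  obtain ⟨p, hp, hp'⟩ := (h1.and h2).exists
  exact absurd (gammaDeg_le_three le_rfl hp'.1 hp'.2) (not_le.2 hp)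

end Pool.Agent.Lib.MP_c081e6_an
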